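import Pool.Agent.Work.MP_8d2cba_co_h18.Interface

/-! MP_8d2cba_co, block R: the word tool. -/

set_option autoImplicit false

namespace Pool.OM.h76

open Finset Pool.OM

section words
variable {G : Type} [Group G]

theorem ev_nil (γ : G) (ρ : ℕ → G) : ev γ ρ [] = 1 := rfl

theorem ev_cons (γ : G) (ρ : ℕ → G) (a : ℕ × Bool) (w : Wd) :
    ev γ ρ (a :: w) = evL γ ρ a * ev γ ρ w := by simp [ev]

theorem ev_append (γ : G) (ρ : ℕ → G) (u w : Wd) :
    ev γ ρ (u ++ w) = ev γ ρ u * ev γ ρ w := by simp [ev]

theorem evL_canc {γ : G} (hγ : γ * γ = 1) (ρ : ℕ → G) {a b : ℕ × Bool}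
    (h : Wd.canc a b = true) : evL γ ρ a * evL γ ρ b = 1 := by
  obtain ⟨i, s⟩ := a
  obtain ⟨j, t⟩ := b
  simp only [Wd.canc, Bool.and_eq_true, Nat.beq_eq, Bool.or_eq_true] at h
  obtain ⟨hij, h⟩ := h
  subst hij
  cases i with
  | zero => simpa [evL] using hγ
  | succ i =>
    rcases h with h | h
    · simp at h
    · cases s <;> cases t <;> simp_all [Wd.lc, evL]

theorem ev_push {γ : G} (hγ : γ * γ = 1) (ρ : ℕ → G) (a : ℕ × Bool) (w : Wd) :
    ev γ ρ (Wd.push a w) = evL γ ρ a * ev γ ρ w := by
  cases w with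
  | nil => simp [Wd.push, ev]
  | cons b w =>
    simp only [Wd.push]
    cases h : Wd.canc a b with
    | false => simp [ev_cons]
    | true =>
      simp only [cond_true, ev_cons]
      rw [← mul_assoc, evL_canc hγ ρ h, one_mul]

theorem ev_red {γ : G} (hγ : γ * γ = 1) (ρ : ℕ → G) (w : Wd) :
    ev γ ρ (Wd.red w) = ev γ ρ w := by
  induction w with
  | nil => rfl
  | cons a w ih =>
    have : Wd.red (a :: w) = Wd.push a (Wd.red w) := rfl
    rw [this, ev_push hγ, ih, ev_cons]

theorem evL_not {γ : G} (hγ : γ * γ = 1) (ρ : ℕ → G) (a : ℕ × Bool) :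
    evL γ ρ (a.1, !a.2) = (evL γ ρ a)⁻¹ := by
  obtain ⟨i, s⟩ := a
  cases i with
  | zero => simpa [evL] using (eq_inv_of_mul_eq_one_left hγ)
  | succ i => cases s <;> simp [evL]

theorem ev_inv {γ : G} (hγ : γ * γ = 1) (ρ : ℕ → G) (w : Wd) :
    ev γ ρ (Wd.inv w) = (ev γ ρ w)⁻¹ := by
  induction w with
  | nil => simp [Wd.inv, ev]
  | cons a w ih =>
    have : Wd.inv (a :: w) = Wd.inv w ++ [(a.1, !a.2)] := by simp [Wd.inv]
    rw [this, ev_append, ih, ev_cons, ev_cons, ev_nil, mul_one, mul_inv_rev, evL_not hγ]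

theorem ev_cycR {γ : G} (hγ : γ * γ = 1) (ρ : ℕ → G) (n : ℕ) :
    ∀ w : Wd, ∃ g : G, ev γ ρ w = g * ev γ ρ (Wd.cycR n w) * g⁻¹ := by
  induction n with
  | zero => intro w; exact ⟨1, by simp [Wd.cycR]⟩
  | succ n ih =>
    intro w
    cases w with
    | nil => exact ⟨1, by simp [Wd.cycR]⟩
    | cons a w =>
      rcases hw : w.reverse with _ | ⟨b, w'⟩
      · refine ⟨1, ?_⟩
        have hw0 : w = [] := by simpa using hw
        subst hw0
        simp [Wd.cycR]
      · have hw1 : w = w'.reverse ++ [b] := by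
          have := congrArg List.reverse hw
          simpa using this
        cases h : Wd.canc a b with
        | false => exact ⟨1, by simp [Wd.cycR, hw, h]⟩
        | true =>
          obtain ⟨g, hg⟩ := ih w'.reverse
          refine ⟨evL γ ρ a * g, ?_⟩
          have hb : evL γ ρ b = (evL γ ρ a)⁻¹ :=
            (inv_eq_of_mul_eq_one_right (evL_canc hγ ρ h)).symm
          have h1 : Wd.cycR (n + 1) (a :: w) = Wd.cycR n w'.reverse := by
            simp [Wd.cycR, hw, h]
          rw [h1, ev_cons, hw1, ev_append, ev_cons, ev_nil, hb, hg]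
          group

theorem ev_cyc {γ : G} (hγ : γ * γ = 1) (ρ : ℕ → G) (w : Wd) :
    ∃ g : G, ev γ ρ w = g * ev γ ρ (Wd.cyc w) * g⁻¹ := by
  obtain ⟨g, hg⟩ := ev_cycR hγ ρ (Wd.red w).length (Wd.red w)
  exact ⟨g, by rw [← ev_red hγ ρ w]; exact hg⟩

theorem ev_cyc_eq_one {γ : G} (hγ : γ * γ = 1) (ρ : ℕ → G) (w : Wd) :
    ev γ ρ w = 1 ↔ ev γ ρ (Wd.cyc w) = 1 := by
  obtain ⟨g, hg⟩ := ev_cyc hγ ρ w
  rw [hg]
  constructor
  · intro h
    have : ev γ ρ (Wd.cyc w) = g⁻¹ * (g * ev γ ρ (Wd.cyc w) * g⁻¹) * g := by group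
    rw [this, h]; group
  · intro h; rw [h]; group

theorem cnt_cons (v : ℕ) (a : ℕ × Bool) (w : Wd) :
    Wd.cnt v (a :: w) = bif Nat.beq a.1 (v + 1) then Wd.cnt v w + 1 else Wd.cnt v w := rfl

theorem ev_congr (γ : G) {ρ ρ' : ℕ → G} (w : Wd)
    (h : ∀ v, Wd.cnt v w ≠ 0 → ρ v = ρ' v) : ev γ ρ w = ev γ ρ' w := by
  induction w with
  | nil => rfl
  | cons a w ih =>
    obtain ⟨i, s⟩ := a
    rw [ev_cons, ev_cons]
    have h1 : ev γ ρ w = ev γ ρ' w := by
      apply ih
      intro v hv
      apply h v
      rw [cnt_cons]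
      cases Nat.beq i (v + 1) <;> simp [hv]
    rw [h1]
    cases i with
    | zero => rfl
    | succ j =>
      have h2 : ρ j = ρ' j := by
        apply h j
        rw [cnt_cons]
        have : Nat.beq (j + 1) (j + 1) = true := by simp [Nat.beq_eq]
        simp [this]
      cases s <;> simp [evL, h2]

theorem splitAt_spec (v : ℕ) : ∀ (w P R : Wd) (b : Bool), Wd.splitAt v w = some (P, b, R) →
    w = P ++ (v + 1, b) :: R ∧ Wd.cnt v P = 0 := by
  intro w
  induction w with
  | nil => intro P R b h; simp [Wd.splitAt] at h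
  | cons a w ih =>
    intro P R b h
    obtain ⟨i, s⟩ := a
    simp only [Wd.splitAt] at h
    cases hi : Nat.beq i (v + 1) with
    | true =>
      rw [hi] at h
      simp only [cond_true, Option.some.injEq, Prod.mk.injEq] at h
      obtain ⟨rfl, rfl, rfl⟩ := h
      have : i = v + 1 := by simpa [Nat.beq_eq] using hi
      subst this
      exact ⟨rfl, rfl⟩
    | false =>
      rw [hi] at h
      simp only [cond_false] at h
      rcases hw : Wd.splitAt v w with _ | ⟨P', b', R'⟩
      · rw [hw] at h; simp at h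
      · rw [hw] at h
        simp only [Option.some.injEq, Prod.mk.injEq] at h
        obtain ⟨rfl, rfl, rfl⟩ := h
        obtain ⟨h1, h2⟩ := ih P' R' b' hw
        refine ⟨by rw [h1]; rfl, ?_⟩
        rw [cnt_cons, hi]
        exact h2

theorem exists_splitAt (v : ℕ) : ∀ w : Wd, Wd.cnt v w ≠ 0 → ∃ P b R,
    Wd.splitAt v w = some (P, b, R) := by
  intro w
  induction w with
  | nil => intro h; exact absurd rfl h
  | cons a w ih =>
    intro h
    obtain ⟨i, s⟩ := a
    simp only [Wd.splitAt]
    rw [cnt_cons] at h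
    cases hi : Nat.beq i (v + 1) with
    | true => exact ⟨[], s, w, rfl⟩
    | false =>
      rw [hi] at h
      obtain ⟨P, b, R, hR⟩ := ih h
      refine ⟨(i, s) :: P, b, R, ?_⟩
      simp [hR]

theorem cnt_append (v : ℕ) (u w : Wd) : Wd.cnt v (u ++ w) = Wd.cnt v u + Wd.cnt v w := by
  induction u with
  | nil => simp [Wd.cnt]
  | cons a u ih =>
    rw [List.cons_append, cnt_cons, cnt_cons, ih]
    cases Nat.beq a.1 (v + 1) <;> simp <;> omega

theorem cnt_self_cons (v : ℕ) (b : Bool) (w : Wd) : Wd.cnt v ((v + 1, b) :: w) = Wd.cnt v w + 1 := by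
  rw [cnt_cons]
  have : Nat.beq (v + 1) (v + 1) = true := by simp [Nat.beq_eq]
  simp [this]

/-- value of `join` after changing the variable `v` -/
theorem join_update (f : ℕ) (ω : Fin f → G) (ρ : ℕ → G) (v : Fin f) (g : G) (j : ℕ) :
    join f (Function.update ω v g) ρ j = if j = v then g else join f ω ρ j := by
  unfold join
  by_cases h : j < f
  · rw [dif_pos h, dif_pos h]
    by_cases hv : j = v
    · have : (⟨j, h⟩ : Fin f) = v := Fin.ext hv
      rw [this, Function.update_self, if_pos hv]
    · have : (⟨j, h⟩ : Fin f) ≠ v := fun e => hv (congrArg Fin.val e)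
      rw [Function.update_of_ne this, if_neg hv]
  · rw [dif_neg h, dif_neg h]
    have : j ≠ v := fun e => h (e ▸ v.2)
    rw [if_neg this]

theorem ev_update_of_cnt_zero (γ : G) (f : ℕ) (ω : Fin f → G) (ρ : ℕ → G) (v : Fin f) (g : G)
    (w : Wd) (h : Wd.cnt v w = 0) :
    ev γ (join f (Function.update ω v g) ρ) w = ev γ (join f ω ρ) w := by
  apply ev_congr
  intro u hu
  rw [join_update]
  have : u ≠ v := fun e => hu (e ▸ h)
  rw [if_neg this]

theorem ev_stat (γ : G) (f : ℕ) (ω ω' : Fin f → G) (ρ : ℕ → G) (w : Wd)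
    (h : Wd.stat f w = true) : ev γ (join f ω ρ) w = ev γ (join f ω' ρ) w := by
  apply ev_congr
  intro u hu
  have : ¬ u < f := by
    intro huf
    apply hu
    simp only [Wd.stat, List.all_eq_true, List.mem_range, Nat.beq_eq] at h
    exact h u huf
  simp [join, this]

end words

section counting
variable {G : Type} [Group G] [Fintype G] [DecidableEq G]

/-- double counting over one coordinate -/
theorem count_update (f : ℕ) (v : Fin f) (p : (Fin f → G) → Prop) [DecidablePred p] :
    Fintype.card G * (univ.filter fun ω : Fin f → G => p ω).card =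
      ∑ ω : Fin f → G, (univ.filter fun g : G => p (Function.update ω v g)).card := by
  classical
  let e : (Fin f → G) × G ≃ (Fin f → G) × G :=
    { toFun := fun x => (Function.update x.1 v x.2, x.1 v)
      invFun := fun x => (Function.update x.1 v x.2, x.1 v)
      left_inv := fun x => by
        apply Prod.ext
        · simp
        · simp
      right_inv := fun x => by
        apply Prod.ext
        · simp
        · simp }
  have h1 : ∑ ω : Fin f → G, (univ.filter fun g : G => p (Function.update ω v g)).card =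
      ∑ x : (Fin f → G) × G, if p (e x).1 then 1 else 0 := by
    rw [Fintype.sum_prod_type]
    refine Finset.sum_congr rfl fun ω _ => ?_
    rw [Finset.card_filter]
    rfl
  have h2 : (∑ x : (Fin f → G) × G, if p (e x).1 then 1 else 0) =
      ∑ x : (Fin f → G) × G, if p x.1 then 1 else 0 :=
    Equiv.sum_comp e (fun x => if p x.1 then (1 : ℕ) else 0)
  rw [h1, h2, Fintype.sum_prod_type, Finset.card_filter, Finset.mul_sum]
  refine Finset.sum_congr rfl fun ω _ => ?_
  change (Fintype.card G * if p ω then 1 else 0) = ∑ _y : G, if p ω then 1 else 0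
  rw [Finset.sum_const, Finset.card_univ, smul_eq_mul]

theorem rt_conj (a g : G) : rt (g * a * g⁻¹) = rt a := by
  unfold rt
  apply Finset.card_bij' (fun x _ => g⁻¹ * x * g) (fun x _ => g * x * g⁻¹)
  · intro x hx
    simp only [mem_filter, mem_univ, true_and] at hx ⊢
    calc g⁻¹ * x * g * (g⁻¹ * x * g) = g⁻¹ * (x * x) * g := by group
      _ = a := by rw [hx]; group
  · intro x hx
    simp only [mem_filter, mem_univ, true_and] at hx ⊢
    calc g * x * g⁻¹ * (g * x * g⁻¹) = g * (x * x) * g⁻¹ := by group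
      _ = g * a * g⁻¹ := by rw [hx]
  · intro x _; group
  · intro x _; group

theorem cj_conj (a b g h : G) : cj (g * a * g⁻¹) (h * b * h⁻¹) = cj a b := by
  unfold cj
  apply Finset.card_bij' (fun x _ => h⁻¹ * x * g) (fun x _ => h * x * g⁻¹)
  · intro x hx
    simp only [mem_filter, mem_univ, true_and] at hx ⊢
    calc h⁻¹ * x * g * a * (h⁻¹ * x * g)⁻¹ = h⁻¹ * (x * (g * a * g⁻¹) * x⁻¹) * h := by group
      _ = b := by rw [hx]; group
  · intro x hx
    simp only [mem_filter, mem_univ, true_and] at hx ⊢
    calc h * x * g⁻¹ * (g * a * g⁻¹) * (h * x * g⁻¹)⁻¹ = h * (x * a * x⁻¹) * h⁻¹ := by group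
      _ = h * b * h⁻¹ := by rw [hx]
  · intro x _; group
  · intro x _; group

/-- number of solutions `g` of `P g Q g R = 1` -/
theorem card_quad (P Q R : G) :
    (univ.filter fun g : G => P * (g * (Q * (g * R))) = 1).card = rt (P⁻¹ * (R⁻¹ * Q)) := by
  unfold rt
  apply Finset.card_bij' (fun g _ => g * Q) (fun x _ => x * Q⁻¹)
  · intro g hg
    simp only [mem_filter, mem_univ, true_and] at hg ⊢
    calc g * Q * (g * Q) = P⁻¹ * (P * (g * (Q * (g * R)))) * (R⁻¹ * Q) := by group
      _ = P⁻¹ * (R⁻¹ * Q) := by rw [hg]; group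
  · intro x hx
    simp only [mem_filter, mem_univ, true_and] at hx ⊢
    calc P * (x * Q⁻¹ * (Q * (x * Q⁻¹ * R))) = P * (x * x) * Q⁻¹ * R := by group
      _ = 1 := by rw [hx]; group
  · intro x _; group
  · intro x _; group

/-- number of solutions `g` of `P g Q g⁻¹ R = 1` -/
theorem card_cj (P Q R : G) :
    (univ.filter fun g : G => P * (g * (Q * (g⁻¹ * R))) = 1).card = cj Q (R * P)⁻¹ := by
  unfold cj
  congr 1
  ext g
  simp only [mem_filter, mem_univ, true_and]
  constructor
  · intro h
    calc g * Q * g⁻¹ = P⁻¹ * (P * (g * (Q * (g⁻¹ * R)))) * R⁻¹ := by group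
      _ = (R * P)⁻¹ := by rw [h]; group
  · intro h
    calc P * (g * (Q * (g⁻¹ * R))) = P * (g * Q * g⁻¹) * R := by group
      _ = 1 := by rw [h]; group

theorem card_inv (p : G → Prop) [DecidablePred p] :
    (univ.filter fun g : G => p g⁻¹).card = (univ.filter fun g : G => p g).card := by
  apply Finset.card_bij' (fun x _ => x⁻¹) (fun x _ => x⁻¹) <;> simp

end counting

theorem stmt_R2 : Stmt_R2 := by
  intro G _ _ _ γ hγ f w hw ρ c
  simp only [Wd.lin, List.any_eq_true, List.mem_range, Nat.beq_eq] at hw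
  obtain ⟨v, hv, hcnt⟩ := hw
  obtain ⟨P, b, R, hs⟩ := exists_splitAt v (Wd.red w) (by omega)
  obtain ⟨hw1, hP⟩ := splitAt_spec v _ _ _ _ hs
  have hR : Wd.cnt v R = 0 := by
    rw [hw1, cnt_append, cnt_self_cons] at hcnt
    omega
  rw [count_update f ⟨v, hv⟩]
  have key : ∀ ω : Fin f → G, (univ.filter fun g : G =>
      ev γ (join f (Function.update ω ⟨v, hv⟩ g) ρ) w = c).card = 1 := by
    intro ω
    have h1 : ∀ g : G, ev γ (join f (Function.update ω ⟨v, hv⟩ g) ρ) w =
        ev γ (join f ω ρ) P * ((bif b then g else g⁻¹) * ev γ (join f ω ρ) R) := by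
      intro g
      rw [← ev_red hγ, hw1, ev_append, ev_cons,
        ev_update_of_cnt_zero γ f ω ρ ⟨v, hv⟩ g P hP, ev_update_of_cnt_zero γ f ω ρ ⟨v, hv⟩ g R hR]
      have h2 : join f (Function.update ω ⟨v, hv⟩ g) ρ v = g := by
        rw [join_update]; simp
      cases b <;> simp [evL, h2]
    simp only [h1]
    set A := ev γ (join f ω ρ) P
    set B := ev γ (join f ω ρ) R
    rw [Finset.card_eq_one]
    cases b with
    | true =>
      refine ⟨A⁻¹ * c * B⁻¹, ?_⟩
      ext g
      simp only [cond_true, mem_filter, mem_univ, true_and, mem_singleton]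
      constructor
      · intro h; rw [← h]; group
      · intro h; rw [h]; group
    | false =>
      refine ⟨(A⁻¹ * c * B⁻¹)⁻¹, ?_⟩
      ext g
      simp only [cond_false, mem_filter, mem_univ, true_and, mem_singleton]
      constructor
      · intro h; rw [← h]; group
      · intro h; rw [h]; group
  rw [Finset.sum_congr rfl fun ω _ => key ω]
  simp

/-! ### R1 -/

section R1
variable {G : Type} [Group G] [Fintype G] [DecidableEq G]

/-- number of solutions of a word with two occurrences of a free variable -/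
theorem quad_count {γ : G} (hγ : γ * γ = 1) (f v : ℕ) (hv : v < f) (w : Wd) (o : Ob)
    (h : Wd.quad f v w = some o) (K : ℕ) (ρ : ℕ → G)
    (ho : ObOK K γ (join f (fun _ => 1) ρ) o) :
    K * (univ.filter fun ω : Fin f → G => ev γ (join f ω ρ) w = 1).card ≤ Fintype.card G ^ f := by
  have hn : 0 < Fintype.card G := Fintype.card_pos
  unfold Wd.quad at h
  rcases h1 : Wd.splitAt v w with _ | ⟨P, b, R0⟩
  · rw [h1] at h; simp at h
  rw [h1] at h
  simp only at h
  rcases h2 : Wd.splitAt v R0 with _ | ⟨Q, b', R⟩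
  · rw [h2] at h; simp at h
  rw [h2] at h
  simp only at h
  obtain ⟨hw1, hP⟩ := splitAt_spec v _ _ _ _ h1
  obtain ⟨hw2, hQ⟩ := splitAt_spec v _ _ _ _ h2
  -- general principle
  have main : ∀ M : ℕ, (∀ ω : Fin f → G, (univ.filter fun g : G =>
      ev γ (join f (Function.update ω ⟨v, hv⟩ g) ρ) w = 1).card = M) →
      K * M ≤ Fintype.card G →
      K * (univ.filter fun ω : Fin f → G => ev γ (join f ω ρ) w = 1).card ≤
        Fintype.card G ^ f := by
    intro M hM hKM
    have h3 := count_update f ⟨v, hv⟩ (fun ω : Fin f → G => ev γ (join f ω ρ) w = 1)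
    rw [Finset.sum_congr rfl fun ω _ => hM ω, Finset.sum_const, Finset.card_univ,
      Fintype.card_fun, Fintype.card_fin, smul_eq_mul] at h3
    refine Nat.le_of_mul_le_mul_left ?_ hn
    calc Fintype.card G * (K * (univ.filter fun ω : Fin f → G =>
          ev γ (join f ω ρ) w = 1).card)
        = K * (Fintype.card G * (univ.filter fun ω : Fin f → G =>
          ev γ (join f ω ρ) w = 1).card) := by ring
      _ = K * (Fintype.card G ^ f * M) := by rw [h3]
      _ = (K * M) * Fintype.card G ^ f := by ring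
      _ ≤ Fintype.card G * Fintype.card G ^ f := Nat.mul_le_mul_right _ hKM
  cases hR' : (!(Nat.beq (Wd.cnt v R) 0)) with
  | true => rw [hR'] at h; simp at h
  | false =>
  rw [hR'] at h
  simp only [cond_false] at h
  have hR : Wd.cnt v R = 0 := by simpa [Nat.beq_eq] using hR'
  have hval : ∀ (ω : Fin f → G) (g : G),
      ev γ (join f (Function.update ω ⟨v, hv⟩ g) ρ) w =
        ev γ (join f ω ρ) P * ((bif b then g else g⁻¹) * (ev γ (join f ω ρ) Q *
          ((bif b' then g else g⁻¹) * ev γ (join f ω ρ) R))) := by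
    intro ω g
    have h5 : join f (Function.update ω ⟨v, hv⟩ g) ρ v = g := by
      rw [join_update]; simp
    rw [hw1, hw2, ev_append, ev_cons, ev_append, ev_cons,
      ev_update_of_cnt_zero γ f ω ρ ⟨v, hv⟩ g P hP,
      ev_update_of_cnt_zero γ f ω ρ ⟨v, hv⟩ g Q hQ,
      ev_update_of_cnt_zero γ f ω ρ ⟨v, hv⟩ g R hR]
    cases b <;> cases b' <;> simp [evL, h5]
  cases hlc : Wd.lc b b' with
  | true =>
    rw [hlc] at h
    simp only [cond_true] at h
    cases hst : (Wd.stat f (Wd.cyc Q) && Wd.stat f (Wd.cyc (Wd.inv (R ++ P)))) with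
    | false => rw [hst] at h; simp at h
    | true =>
    rw [hst] at h
    simp only [cond_true, Option.some.injEq] at h
    subst h
    simp only [ObOK] at ho
    rw [Bool.and_eq_true] at hst
    obtain ⟨hs1, hs2⟩ := hst
    refine main _ (fun ω => ?_) ho
    have hcj : (univ.filter fun g : G =>
        ev γ (join f (Function.update ω ⟨v, hv⟩ g) ρ) w = 1).card =
        cj (ev γ (join f ω ρ) Q) (ev γ (join f ω ρ) (Wd.inv (R ++ P))) := by
      rw [ev_inv hγ, ev_append, ← card_cj]
      cases b with
      | true =>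
        cases b' with
        | true => simp [Wd.lc] at hlc
        | false => simp only [hval, cond_true, cond_false]
      | false =>
        cases b' with
        | false => simp [Wd.lc] at hlc
        | true =>
          simp only [hval, cond_true, cond_false]
          rw [← card_inv (fun g => ev γ (join f ω ρ) P * (g * (ev γ (join f ω ρ) Q *
            (g⁻¹ * ev γ (join f ω ρ) R))) = 1)]
          simp only [inv_inv]
    rw [hcj]
    obtain ⟨g1, hg1⟩ := ev_cyc hγ (join f ω ρ) Q
    obtain ⟨g2, hg2⟩ := ev_cyc hγ (join f ω ρ) (Wd.inv (R ++ P))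
    rw [hg1, hg2, cj_conj, ev_stat γ f ω (fun _ => 1) ρ _ hs1, ev_stat γ f ω (fun _ => 1) ρ _ hs2]
  | false =>
    rw [hlc] at h
    simp only [cond_false] at h
    cases hst : Wd.stat f (Wd.cyc (Wd.inv P ++ Wd.inv R ++ Q)) with
    | false => rw [hst] at h; simp at h
    | true =>
    rw [hst] at h
    simp only [cond_true, Option.some.injEq] at h
    subst h
    simp only [ObOK] at ho
    refine main _ (fun ω => ?_) ho
    have hrt : (univ.filter fun g : G =>
        ev γ (join f (Function.update ω ⟨v, hv⟩ g) ρ) w = 1).card =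
        rt (ev γ (join f ω ρ) (Wd.inv P ++ Wd.inv R ++ Q)) := by
      rw [ev_append, ev_append, ev_inv hγ, ev_inv hγ, mul_assoc, ← card_quad]
      cases b with
      | true =>
        cases b' with
        | false => simp [Wd.lc] at hlc
        | true => simp only [hval, cond_true]
      | false =>
        cases b' with
        | true => simp [Wd.lc] at hlc
        | false =>
          simp only [hval, cond_false]
          exact card_inv (fun g => ev γ (join f ω ρ) P * (g * (ev γ (join f ω ρ) Q *
            (g * ev γ (join f ω ρ) R))) = 1)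
    rw [hrt]
    obtain ⟨g1, hg1⟩ := ev_cyc hγ (join f ω ρ) (Wd.inv P ++ Wd.inv R ++ Q)
    rw [hg1, rt_conj, ev_stat γ f ω (fun _ => 1) ρ _ hst]

theorem foldr_quad (f : ℕ) (c : Wd) (l : List Ob) : ∀ L : List ℕ,
    L.foldr (fun v r => match r with
    | some l => some l
    | none => match Wd.quad f v c with
      | some o => some [o]
      | none => none) none = some l → ∃ v ∈ L, ∃ o, Wd.quad f v c = some o ∧ l = [o] := by
  intro L
  induction L with
  | nil => intro h; simp at h
  | cons v L ih =>
    intro h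
    rw [List.foldr_cons] at h
    rcases hr : L.foldr (fun v r => match r with
      | some l => some l
      | none => match Wd.quad f v c with
        | some o => some [o]
        | none => none) (none : Option (List Ob)) with _ | l'
    · rw [hr] at h
      simp only at h
      rcases hq : Wd.quad f v c with _ | o
      · rw [hq] at h; simp at h
      · rw [hq] at h
        simp only [Option.some.injEq] at h
        exact ⟨v, by simp, o, hq, h.symm⟩
    · rw [hr] at h
      simp only [Option.some.injEq] at h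
      subst h
      obtain ⟨v', hv', o, ho⟩ := ih hr
      exact ⟨v', by simp [hv'], o, ho⟩

end R1

theorem stmt_R1 : Stmt_R1 := by
  intro G _ _ _ γ hγ f w l hl K ρ hK hOb
  have hn : 0 < Fintype.card G := Fintype.card_pos
  have hfil : (univ.filter fun ω : Fin f → G => ev γ (join f ω ρ) w = 1) =
      (univ.filter fun ω : Fin f → G => ev γ (join f ω ρ) (Wd.cyc w) = 1) := by
    ext ω
    simp only [mem_filter, mem_univ, true_and]
    exact ev_cyc_eq_one hγ _ w
  rw [hfil]
  unfold Wd.obl at hl
  simp only at hl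
  cases hlin : Wd.lin f (Wd.cyc w) with
  | true =>
    -- the cyclically reduced word contains a free variable once
    simp only [Wd.lin, List.any_eq_true, List.mem_range, Nat.beq_eq] at hlin
    obtain ⟨v, hv, hcnt⟩ := hlin
    obtain ⟨P, b, R, hs⟩ := exists_splitAt v (Wd.cyc w) (by omega)
    obtain ⟨hw1, hP⟩ := splitAt_spec v _ _ _ _ hs
    have hR : Wd.cnt v R = 0 := by
      rw [hw1, cnt_append, cnt_self_cons] at hcnt
      omega
    have h3 := count_update f ⟨v, hv⟩ (fun ω : Fin f → G => ev γ (join f ω ρ) (Wd.cyc w) = 1)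
    have key : ∀ ω : Fin f → G, (univ.filter fun g : G =>
        ev γ (join f (Function.update ω ⟨v, hv⟩ g) ρ) (Wd.cyc w) = 1).card = 1 := by
      intro ω
      have h1 : ∀ g : G, ev γ (join f (Function.update ω ⟨v, hv⟩ g) ρ) (Wd.cyc w) =
          ev γ (join f ω ρ) P * ((bif b then g else g⁻¹) * ev γ (join f ω ρ) R) := by
        intro g
        rw [hw1, ev_append, ev_cons,
          ev_update_of_cnt_zero γ f ω ρ ⟨v, hv⟩ g P hP, ev_update_of_cnt_zero γ f ω ρ ⟨v, hv⟩ g R hR]
        have h2 : join f (Function.update ω ⟨v, hv⟩ g) ρ v = g := by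
          rw [join_update]; simp
        cases b <;> simp [evL, h2]
      simp only [h1]
      set A := ev γ (join f ω ρ) P
      set B := ev γ (join f ω ρ) R
      rw [Finset.card_eq_one]
      cases b with
      | true =>
        refine ⟨A⁻¹ * B⁻¹, ?_⟩
        ext g
        simp only [cond_true, mem_filter, mem_univ, true_and, mem_singleton]
        constructor
        · intro h
          calc g = A⁻¹ * (A * (g * B)) * B⁻¹ := by group
            _ = A⁻¹ * B⁻¹ := by rw [h]; group
        · intro h; rw [h]; group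
      | false =>
        refine ⟨(A⁻¹ * B⁻¹)⁻¹, ?_⟩
        ext g
        simp only [cond_false, mem_filter, mem_univ, true_and, mem_singleton]
        constructor
        · intro h
          calc g = (A⁻¹ * (A * (g⁻¹ * B)) * B⁻¹)⁻¹ := by group
            _ = (A⁻¹ * B⁻¹)⁻¹ := by rw [h]; group
        · intro h; rw [h]; group
    rw [Finset.sum_congr rfl fun ω _ => key ω, Finset.sum_const, Finset.card_univ,
      Fintype.card_fun, Fintype.card_fin, smul_eq_mul, mul_one] at h3
    calc K * _ ≤ Fintype.card G * _ := Nat.mul_le_mul_right _ hK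
      _ = Fintype.card G ^ f := h3
  | false =>
    rw [hlin] at hl
    simp only [cond_false] at hl
    cases hst : Wd.stat f (Wd.cyc w) with
    | true =>
      rw [hst] at hl
      simp only [cond_true, Option.some.injEq] at hl
      subst hl
      have h1 := hOb (Ob.ne (Wd.cyc w)) (by simp)
      simp only [ObOK] at h1
      have h2 : (univ.filter fun ω : Fin f → G => ev γ (join f ω ρ) (Wd.cyc w) = 1) = ∅ := by
        rw [Finset.filter_eq_empty_iff]
        intro ω _ h3
        apply h1
        rw [← h3]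
        exact ev_stat γ f _ _ ρ _ hst
      rw [h2]
      simp
    | false =>
      rw [hst] at hl
      simp only [cond_false] at hl
      obtain ⟨v, hv, o, hq, rfl⟩ := foldr_quad f (Wd.cyc w) l _ hl
      exact quad_count hγ f v (by simpa using hv) (Wd.cyc w) o hq K ρ (hOb o (by simp))

/-! ### R3, R4 -/

theorem lobls_spec (f : ℕ) : ∀ (ws : List Wd) (l : List Ob), Sys.lobls f ws = some l →
    ∀ w ∈ ws, ∃ l', Wd.obl f w = some l' ∧ ∀ o ∈ l', o ∈ l := by
  intro ws
  induction ws with
  | nil => intro l _ w hw; simp at hw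
  | cons u ws ih =>
    intro l h w hw
    have h' : (match Sys.lobls f ws, Wd.obl f u with
      | some l, some l' => some (l' ++ l)
      | _, _ => none) = some l := h
    rcases h1 : Sys.lobls f ws with _ | l1
    · rw [h1] at h'; simp at h'
    rcases h2 : Wd.obl f u with _ | l2
    · rw [h1, h2] at h'; simp at h'
    rw [h1, h2] at h'
    simp only [Option.some.injEq] at h'
    subst h'
    rcases List.mem_cons.1 hw with rfl | hw
    · exact ⟨l2, h2, fun o ho => by simp [ho]⟩
    · obtain ⟨l', hl', ho⟩ := ih l1 h1 w hw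
      exact ⟨l', hl', fun o h3 => by simp [ho o h3]⟩

section R3
variable {G : Type} [Group G] [Fintype G] [DecidableEq G]

omit [Fintype G] [DecidableEq G] in
theorem nodup_of_diffs {γ : G} (hγ : γ * γ = 1) (ρ : ℕ → G) : ∀ l : List Wd,
    (∀ w ∈ Sys.diffs l, ev γ ρ w ≠ 1) → (l.map (ev γ ρ)).Nodup := by
  intro l
  induction l with
  | nil => intro _; simp
  | cons u l ih =>
    intro h
    rw [List.map_cons, List.nodup_cons]
    constructor
    · intro hu
      obtain ⟨v, hv, huv⟩ := List.mem_map.1 hu
      apply h (u ++ Wd.inv v)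
      · simp only [Sys.diffs, List.mem_append, List.mem_map]
        exact Or.inl ⟨v, hv, rfl⟩
      · rw [ev_append, ev_inv hγ, huv, mul_inv_cancel]
    · apply ih
      intro w hw
      apply h
      simp only [Sys.diffs, List.mem_append]
      exact Or.inr hw

omit [Fintype G] [DecidableEq G] in
theorem nodup_of_pdiffs {γ : G} (hγ : γ * γ = 1) (ρ : ℕ → G) : ∀ l : List Wd,
    (∀ w ∈ Sys.pdiffs l, ev γ ρ w ≠ 1) →
      (prs γ (l.map (ev γ ρ) : Multiset G)).Nodup := by
  have hgi : γ⁻¹ = γ := inv_eq_of_mul_eq_one_left hγ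
  intro l
  induction l with
  | nil => intro _; simp [prs]
  | cons a l ih =>
    intro h
    have hmem : ∀ w, w ∈ Sys.pdiffs (a :: l) ↔ w = a ++ a ++ [(0, true)] ∨
        (((∃ b ∈ l, a ++ Wd.inv b = w) ∨ (∃ b ∈ l, b ++ a ++ [(0, true)] = w)) ∨
          (∃ b ∈ l, a ++ b ++ [(0, true)] = w)) ∨ w ∈ Sys.pdiffs l := by
      intro w
      simp only [Sys.pdiffs, List.mem_append, List.mem_cons, List.mem_map, or_assoc]
    have hlet : ev γ ρ [(0, true)] = γ := by simp [ev, evL]
    have hcons : prs γ (((a :: l).map (ev γ ρ) : List G) : Multiset G) =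
        pr γ (ev γ ρ a) + prs γ (l.map (ev γ ρ) : Multiset G) := by
      rw [List.map_cons, ← Multiset.cons_coe, prs, Multiset.cons_bind]
      rfl
    rw [hcons, Multiset.nodup_add]
    refine ⟨?_, ?_, ?_⟩
    · have h1 := h (a ++ a ++ [(0, true)]) ((hmem _).2 (Or.inl rfl))
      rw [ev_append, ev_append, hlet] at h1
      simp only [pr, Multiset.insert_eq_cons, Multiset.nodup_cons, Multiset.mem_singleton,
        Multiset.nodup_singleton, and_true]
      intro h2
      apply h1
      calc ev γ ρ a * ev γ ρ a * γ = ev γ ρ a * ((ev γ ρ a)⁻¹ * γ) * γ := by rw [← h2]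
        _ = 1 := by rw [mul_inv_cancel_left, hγ]
    · apply ih
      intro w hw
      exact h w ((hmem w).2 (Or.inr (Or.inr hw)))
    · rw [Multiset.disjoint_left]
      intro x hx hx'
      simp only [prs, Multiset.mem_bind, Multiset.mem_coe, List.mem_map] at hx'
      obtain ⟨_, ⟨b, hb, rfl⟩, hxb⟩ := hx'
      simp only [pr, Multiset.insert_eq_cons, Multiset.mem_cons, Multiset.mem_singleton] at hx hxb
      have e1 := h (a ++ Wd.inv b) ((hmem _).2 (Or.inr (Or.inl (Or.inl (Or.inl ⟨b, hb, rfl⟩)))))
      have e2 := h (b ++ a ++ [(0, true)])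
        ((hmem _).2 (Or.inr (Or.inl (Or.inl (Or.inr ⟨b, hb, rfl⟩)))))
      have e3 := h (a ++ b ++ [(0, true)]) ((hmem _).2 (Or.inr (Or.inl (Or.inr ⟨b, hb, rfl⟩))))
      rw [ev_append, ev_inv hγ] at e1
      rw [ev_append, ev_append, hlet] at e2 e3
      set α := ev γ ρ a
      set β := ev γ ρ b
      rcases hx with rfl | rfl
      · rcases hxb with h1 | h1
        · exact e1 (by rw [h1, mul_inv_cancel])
        · apply e2
          rw [h1, mul_inv_cancel_left, hγ]
      · rcases hxb with h1 | h1
        · apply e3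
          rw [← h1, mul_inv_cancel_left, hγ]
        · apply e1
          have h2 : α⁻¹ = β⁻¹ := mul_right_cancel h1
          rw [← h2, mul_inv_cancel]

theorem union_count (f : ℕ) (ws : List Wd) (γ : G) (ρ : ℕ → G) (K : ℕ)
    (h : ∀ w ∈ ws, K * (univ.filter fun ω : Fin f → G => ev γ (join f ω ρ) w = 1).card ≤
      Fintype.card G ^ f) :
    K * (univ.filter fun ω : Fin f → G => ∃ w ∈ ws, ev γ (join f ω ρ) w = 1).card ≤
      ws.length * Fintype.card G ^ f := by
  classical
  induction ws with
  | nil => simp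
  | cons u ws ih =>
    have h1 : (univ.filter fun ω : Fin f → G => ∃ w ∈ u :: ws, ev γ (join f ω ρ) w = 1) ⊆
        (univ.filter fun ω : Fin f → G => ev γ (join f ω ρ) u = 1) ∪
        (univ.filter fun ω : Fin f → G => ∃ w ∈ ws, ev γ (join f ω ρ) w = 1) := by
      intro ω hω
      simp only [mem_filter, mem_univ, true_and, mem_union, List.mem_cons] at hω ⊢
      obtain ⟨w, rfl | hw, h2⟩ := hω
      · exact Or.inl h2
      · exact Or.inr ⟨w, hw, h2⟩
    have h2 := (Finset.card_le_card h1).trans (Finset.card_union_le _ _)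
    have h3 := ih (fun w hw => h w (by simp [hw]))
    have h4 := h u (by simp)
    calc K * _ ≤ K * (_ + _) := Nat.mul_le_mul_left _ h2
      _ = K * _ + K * _ := by ring
      _ ≤ Fintype.card G ^ f + ws.length * Fintype.card G ^ f := Nat.add_le_add h4 h3
      _ = (u :: ws).length * Fintype.card G ^ f := by rw [List.length_cons]; ring

end R3

theorem stmt_R3 : Stmt_R3 := by
  intro G _ _ _ γ hγ f S l hl K ρ hK hOb
  classical
  have h1 : ∀ w ∈ S.colls,
      K * (univ.filter fun ω : Fin f → G => ev γ (join f ω ρ) w = 1).card ≤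
        Fintype.card G ^ f := by
    intro w hw
    obtain ⟨l', hl', ho⟩ := lobls_spec f S.colls l hl w hw
    exact stmt_R1 G γ hγ f w l' hl' K ρ hK (fun o h => hOb o (ho o h))
  refine le_trans (Nat.mul_le_mul_left _ (Finset.card_le_card ?_)) (union_count f S.colls γ ρ K h1)
  intro ω hω
  simp only [mem_filter, mem_univ, true_and] at hω ⊢
  by_contra hcon
  push Not at hcon
  apply hω
  constructor
  · apply nodup_of_pdiffs hγ
    intro w hw
    exact hcon w (by simp [Sys.colls, hw])
  · apply nodup_of_diffs hγ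
    intro w hw
    exact hcon w (by simp [Sys.colls, hw])

theorem stmt_R4 : Stmt_R4 := by
  intro G _ _ _ γ hγ f ds l hl av hav K ρ hK hds hOb hlt
  classical
  have hn : 0 < Fintype.card G := Fintype.card_pos
  have hnf : 0 < Fintype.card G ^ f := Nat.pow_pos hn
  set B1 := (univ.filter fun ω : Fin f → G => ∃ w ∈ ds, ev γ (join f ω ρ) w = 1) with hB1
  set B2 := (univ.filter fun ω : Fin f → G => ∃ a ∈ av, ev γ (join f ω ρ) a.1 ∈ a.2) with hB2
  have c1 : K * B1.card ≤ ds.length * Fintype.card G ^ f := by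
    apply union_count
    intro w hw
    obtain ⟨l', hl', ho⟩ := lobls_spec f ds l hl w hw
    exact stmt_R1 G γ hγ f w l' hl' K ρ hK (fun o h => hOb o (ho o h))
  have c1' : 2 * B1.card ≤ Fintype.card G ^ f := by
    rcases Nat.eq_zero_or_pos K with h0 | h0
    · have : ds = [] := by
        have : ds.length = 0 := by omega
        exact List.length_eq_zero_iff.1 this
      have h2 : B1 = ∅ := by
        rw [hB1, this]; simp
      rw [h2]; simp
    · refine Nat.le_of_mul_le_mul_left ?_ h0
      calc K * (2 * B1.card) = 2 * (K * B1.card) := by ring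
        _ ≤ 2 * (ds.length * Fintype.card G ^ f) := Nat.mul_le_mul_left _ c1
        _ = (2 * ds.length) * Fintype.card G ^ f := by ring
        _ ≤ K * Fintype.card G ^ f := Nat.mul_le_mul_right _ hds
  have c2 : ∀ av' : List (Wd × Finset G), (∀ a ∈ av', Wd.lin f (Wd.red a.1) = true) →
      Fintype.card G * (univ.filter fun ω : Fin f → G =>
        ∃ a ∈ av', ev γ (join f ω ρ) a.1 ∈ a.2).card ≤
      (av'.map fun a => a.2.card).sum * Fintype.card G ^ f := by
    intro av'
    induction av' with
    | nil => intro _; simp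
    | cons a av' ih =>
      intro h
      have h1 : (univ.filter fun ω : Fin f → G => ∃ b ∈ a :: av', ev γ (join f ω ρ) b.1 ∈ b.2) ⊆
          (a.2.biUnion fun c => univ.filter fun ω : Fin f → G => ev γ (join f ω ρ) a.1 = c) ∪
          (univ.filter fun ω : Fin f → G => ∃ b ∈ av', ev γ (join f ω ρ) b.1 ∈ b.2) := by
        intro ω hω
        simp only [mem_filter, mem_univ, true_and, mem_union, List.mem_cons, mem_biUnion] at hω ⊢
        obtain ⟨b, rfl | hb, h2⟩ := hω
        · exact Or.inl ⟨_, h2, rfl⟩
        · exact Or.inr ⟨b, hb, h2⟩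
      have h2 := (Finset.card_le_card h1).trans (Finset.card_union_le _ _)
      have h3 := ih (fun b hb => h b (by simp [hb]))
      have h4 : Fintype.card G * (a.2.biUnion fun c => univ.filter fun ω : Fin f → G =>
          ev γ (join f ω ρ) a.1 = c).card ≤ a.2.card * Fintype.card G ^ f := by
        calc _ ≤ Fintype.card G * ∑ c ∈ a.2, (univ.filter fun ω : Fin f → G =>
              ev γ (join f ω ρ) a.1 = c).card :=
              Nat.mul_le_mul_left _ Finset.card_biUnion_le
          _ = ∑ c ∈ a.2, Fintype.card G * (univ.filter fun ω : Fin f → G =>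
              ev γ (join f ω ρ) a.1 = c).card := by rw [Finset.mul_sum]
          _ = ∑ c ∈ a.2, Fintype.card G ^ f :=
              Finset.sum_congr rfl fun c _ => stmt_R2 G γ hγ f a.1 (h a (by simp)) ρ c
          _ = a.2.card * Fintype.card G ^ f := by rw [Finset.sum_const, smul_eq_mul]
      calc Fintype.card G * _ ≤ Fintype.card G * (_ + _) := Nat.mul_le_mul_left _ h2
        _ = Fintype.card G * _ + Fintype.card G * _ := by ring
        _ ≤ a.2.card * Fintype.card G ^ f +
            (av'.map fun a => a.2.card).sum * Fintype.card G ^ f := Nat.add_le_add h4 h3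
        _ = ((a :: av').map fun a => a.2.card).sum * Fintype.card G ^ f := by
            rw [List.map_cons, List.sum_cons]; ring
  have c2' : 2 * B2.card < Fintype.card G ^ f := by
    refine Nat.lt_of_mul_lt_mul_left (a := Fintype.card G) ?_
    calc Fintype.card G * (2 * B2.card) = 2 * (Fintype.card G * B2.card) := by ring
      _ ≤ 2 * ((av.map fun a => a.2.card).sum * Fintype.card G ^ f) :=
          Nat.mul_le_mul_left _ (c2 av hav)
      _ = (2 * (av.map fun a => a.2.card).sum) * Fintype.card G ^ f := by ring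
      _ < Fintype.card G * Fintype.card G ^ f := Nat.mul_lt_mul_of_pos_right hlt hnf
  have hcard : (B1 ∪ B2).card < (univ : Finset (Fin f → G)).card := by
    rw [Finset.card_univ, Fintype.card_fun, Fintype.card_fin]
    have := Finset.card_union_le B1 B2
    omega
  obtain ⟨ω, -, hω⟩ := Finset.exists_mem_notMem_of_card_lt_card hcard
  refine ⟨ω, ?_, ?_⟩
  · intro w hw h1
    apply hω
    rw [mem_union]
    left
    rw [hB1]
    simp only [mem_filter, mem_univ, true_and]
    exact ⟨w, hw, h1⟩
  · intro a ha h1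
    apply hω
    rw [mem_union]
    right
    rw [hB2]
    simp only [mem_filter, mem_univ, true_and]
    exact ⟨a, ha, h1⟩

end Pool.OM.h76
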