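import Pool.Agent.Work.MP_8d2cba_co_h18.Interface2
import Pool.Agent.Work.MP_8d2cba_co_h18.Basic
import Pool.Agent.Work.MP_8d2cba_co_helper76.R

/-! MP_8d2cba_co, blocks MSB and MSN. -/

set_option autoImplicit false

namespace Pool.OM.h76

open Finset Pool.OM

section steps
variable {G : Type} [Group G]

theorem gg {γ : G} (hγ : γ * γ = 1) (x : G) : γ * (γ * x) = x := by
  rw [← mul_assoc, hγ, one_mul]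

theorem ginv {γ : G} (hγ : γ * γ = 1) : γ⁻¹ = γ := inv_eq_of_mul_eq_one_left hγ

/-- the RR step -/
theorem stepR {γ : G} (hγ : γ * γ = 1) (c : Cp G) (P z z' P1 P2 : G)
    (h1 : P1 = γ * c.g⁻¹ * P * z) (h2 : P2 = P * z * z') :
    MS (c.idx γ) {c.s * P, c.s * P * z, c.r * P1, c.r * P1 * z'}
      {P, z, P1⁻¹ * γ, P1, z', P2⁻¹ * γ} := by
  have a := MS.three c.s c.t (c.s * P) (c.s * P * z)
  have b := MS.three c.r (c.t' γ) (c.r * P1) (c.r * P1 * z')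
  have e1 : c.s⁻¹ * (c.s * P) = P := by group
  have e2 : (c.s * P)⁻¹ * (c.s * P * z) = z := by group
  have e3 : (c.s * P * z)⁻¹ * c.t = P1⁻¹ * γ := by
    rw [h1, Cp.t]
    simp only [mul_inv_rev, inv_inv, ginv hγ, mul_assoc, inv_mul_cancel_left, hγ, mul_one]
  have e4 : c.r⁻¹ * (c.r * P1) = P1 := by group
  have e5 : (c.r * P1)⁻¹ * (c.r * P1 * z') = z' := by group
  have e6 : (c.r * P1 * z')⁻¹ * c.t' γ = P2⁻¹ * γ := by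
    rw [h2, h1, Cp.t', Cp.g']
    simp only [mul_inv_rev, inv_inv, ginv hγ, mul_assoc, inv_mul_cancel_left, gg hγ,
      mul_inv_cancel_left]
  rw [e1, e2, e3] at a
  rw [e4, e5, e6] at b
  exact a.add b

/-- the LL step -/
theorem stepL {γ : G} (hγ : γ * γ = 1) (c : Cp G) (P y y' P1 P2 : G)
    (h1 : P1 = y * P * c.g⁻¹ * γ) (h2 : P2 = y' * y * P) :
    MS (c.idx γ) {c.t * (y * P)⁻¹, c.t * P⁻¹, c.t' γ * (y' * P1)⁻¹, c.t' γ * P1⁻¹}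
      {γ * P1⁻¹, y, P, γ * P2⁻¹, y', P1} := by
  have a := MS.three c.s c.t (c.t * (y * P)⁻¹) (c.t * P⁻¹)
  have b := MS.three c.r (c.t' γ) (c.t' γ * (y' * P1)⁻¹) (c.t' γ * P1⁻¹)
  have e1 : c.s⁻¹ * (c.t * (y * P)⁻¹) = γ * P1⁻¹ := by
    rw [h1, Cp.t]
    simp only [mul_inv_rev, inv_inv, ginv hγ, mul_assoc, inv_mul_cancel_left, gg hγ]
  have e2 : (c.t * (y * P)⁻¹)⁻¹ * (c.t * P⁻¹) = y := by group
  have e3 : (c.t * P⁻¹)⁻¹ * c.t = P := by group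
  have e4 : c.r⁻¹ * (c.t' γ * (y' * P1)⁻¹) = γ * P2⁻¹ := by
    rw [h2, h1, Cp.t', Cp.g']
    simp only [mul_inv_rev, inv_inv, ginv hγ, mul_assoc, inv_mul_cancel_left, gg hγ]
  have e5 : (c.t' γ * (y' * P1)⁻¹)⁻¹ * (c.t' γ * P1⁻¹) = y' := by group
  have e6 : (c.t' γ * P1⁻¹)⁻¹ * c.t' γ = P1 := by group
  rw [e1, e2, e3] at a
  rw [e4, e5, e6] at b
  exact a.add b

theorem pr_ginv (γ x : G) : pr γ (γ * x⁻¹) = {γ * x⁻¹, x} := by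
  have : (γ * x⁻¹)⁻¹ * γ = x := by group
  rw [pr, this]

theorem ev_X (γ : G) (ρ : ℕ → G) (j : ℕ) : ev γ ρ (Walk.X j) = ρ j := by
  simp [Walk.X, ev, evL]

theorem ev_gam (γ : G) (ρ : ℕ → G) : ev γ ρ Walk.γ = γ := by
  simp [Walk.γ, ev, evL]

theorem ev_i {γ : G} (hγ : γ * γ = 1) (ρ : ℕ → G) (w : Wd) :
    ev γ ρ (Walk.i w) = (ev γ ρ w)⁻¹ := ev_inv hγ ρ w

end steps

theorem msb_feed (G : Type) [Group G] (γ : G) (hγ : γ * γ = 1) (c1 c2 c3 c4 c5 nx : Cp G)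
    (d1 d2 α z1 z2 : G) (ω : Fin 4 → G) : ∃ V C : Multiset G,
    (((Bt.feed c1 c2 c3 c4 c5 d1 d2).vws γ nx α z1 z2 ω : List G) : Multiset G) =
      V + {nx.t * (α * (d1 * d2) * ω 2 * ω 3)⁻¹} ∧
    MS (([c1, c2, c3, c4, c5].map (Cp.idx γ)).sum) ((c1.t * (α * z1 * z2)⁻¹) ::ₘ V) C ∧
    C + {α * (d1 * d2) * ω 2 * ω 3, (ω 3)⁻¹ * γ, γ * (ω 2)⁻¹} =
      {α * z1 * z2, z2⁻¹ * γ, γ * z1⁻¹} + {d1, d2} +
        prs γ (((Bt.feed c1 c2 c3 c4 c5 d1 d2).pws γ nx α z1 z2 ω : List G) : Multiset G) := by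
  obtain ⟨y, hy⟩ : ∃ y, y = ω 0 := ⟨_, rfl⟩
  obtain ⟨Y, hY⟩ : ∃ Y, Y = ω 1 := ⟨_, rfl⟩
  obtain ⟨w1, hw1⟩ : ∃ w1, w1 = ω 2 := ⟨_, rfl⟩
  obtain ⟨w2, hw2⟩ : ∃ w2, w2 = ω 3 := ⟨_, rfl⟩
  obtain ⟨y2, hy2⟩ : ∃ x, x = Y * α⁻¹ * y⁻¹ := ⟨_, rfl⟩
  obtain ⟨P0, hP0⟩ : ∃ x, x = α * z1 * z2 := ⟨_, rfl⟩
  obtain ⟨PA, hPA⟩ : ∃ x, x = Y * z1 * z2 := ⟨_, rfl⟩
  obtain ⟨PC, hPC⟩ : ∃ x, x = Y * d1 * d2 := ⟨_, rfl⟩
  obtain ⟨PD, hPD⟩ : ∃ x, x = PC * w1 * w2 := ⟨_, rfl⟩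
  obtain ⟨PE, hPE⟩ : ∃ x, x = α * d1 * d2 * w1 * w2 := ⟨_, rfl⟩
  obtain ⟨A1, hA1⟩ : ∃ x, x = y * P0 * c1.g⁻¹ * γ := ⟨_, rfl⟩
  obtain ⟨B1, hB1⟩ : ∃ x, x = γ * c2.g⁻¹ * PA * (z2⁻¹ * γ) := ⟨_, rfl⟩
  obtain ⟨C1, hC1⟩ : ∃ x, x = γ * c3.g⁻¹ * Y * d1 := ⟨_, rfl⟩
  obtain ⟨D1, hD1⟩ : ∃ x, x = γ * c4.g⁻¹ * PC * w1 := ⟨_, rfl⟩
  obtain ⟨E1, hE1⟩ : ∃ x, x = (γ * y2⁻¹) * PD * c5.g⁻¹ * γ := ⟨_, rfl⟩
  have hA := stepL hγ c1 P0 y y2 A1 PA hA1 (by rw [hPA, hy2, hP0]; group)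
  have hB := stepR hγ c2 PA (z2⁻¹ * γ) (γ * z1⁻¹) B1 Y hB1 (by
    rw [hPA]; simp only [mul_assoc, gg hγ, mul_inv_cancel_left, mul_inv_cancel, mul_one])
  have hC := stepR hγ c3 Y d1 d2 C1 PC hC1 hPC
  have hD := stepR hγ c4 PC w1 w2 D1 PD hD1 hPD
  have hE := stepL hγ c5 PD (γ * y2⁻¹) (y⁻¹ * γ) E1 PE hE1 (by
    rw [hPE, hPD, hPC, hy2]
    simp only [mul_inv_rev, inv_inv, mul_assoc, gg hγ, inv_mul_cancel_left])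
  have hall := hA.add (hB.add (hC.add (hD.add (hE.add MS.zero))))
  have hvw : (Bt.feed c1 c2 c3 c4 c5 d1 d2).vws γ nx α z1 z2 ω =
      [c1.t * (y * P0)⁻¹, c1.t' γ * A1⁻¹, c1.t' γ * (y2 * A1)⁻¹,
        c2.s * PA, c2.s * PA * (z2⁻¹ * γ), c2.r * B1, c2.r * B1 * (γ * z1⁻¹),
        c3.s * Y, c3.s * Y * d1, c3.r * C1, c3.r * C1 * d2,
        c4.s * PC, c4.s * PC * w1, c4.r * D1, c4.r * D1 * w2,
        c5.t * PD⁻¹, c5.t * ((γ * y2⁻¹) * PD)⁻¹, c5.t' γ * E1⁻¹, c5.t' γ * ((y⁻¹ * γ) * E1)⁻¹,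
        nx.t * PE⁻¹] := by
    subst hE1 hD1 hC1 hB1 hA1 hPE hPD hPC hPA hP0 hy2 hw2 hw1 hY hy
    simp only [Bt.vws, Bt.sys, Bt.par, Walk.feedSys, Walk.vL, Walk.vR, Walk.P1L, Walk.P1R,
      Walk.cw, Walk.CW.t, Walk.CW.t', Walk.CW.g', List.map_append, List.map_cons, List.map_nil,
      List.cons_append, List.nil_append, ev_append, ev_i hγ, ev_X, ev_gam, Cp.t, Cp.t', Cp.g']
    rfl
  have hpw : (Bt.feed c1 c2 c3 c4 c5 d1 d2).pws γ nx α z1 z2 ω =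
      [y, γ * y2⁻¹, γ * A1⁻¹, γ * PA⁻¹, B1, Y, C1, PC, γ * w1⁻¹, w2, D1, PD, γ * E1⁻¹,
        γ * PE⁻¹] := by
    subst hE1 hD1 hC1 hB1 hA1 hPE hPD hPC hPA hP0 hy2 hw2 hw1 hY hy
    simp only [Bt.pws, Bt.sys, Bt.par, Walk.feedSys, Walk.vL, Walk.vR, Walk.P1L, Walk.P1R,
      Walk.cw, Walk.CW.t, Walk.CW.t', Walk.CW.g', List.map_append, List.map_cons, List.map_nil,
      List.cons_append, List.nil_append, ev_append, ev_i hγ, ev_X, ev_gam, Cp.t, Cp.t', Cp.g']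
    rfl
  have hPE' : α * (d1 * d2) * ω 2 * ω 3 = PE := by
    rw [hPE, hw1, hw2]; group
  rw [hPE', ← hw1, ← hw2, hvw, hpw, ← hP0]
  refine ⟨(([c1.t * (y * P0)⁻¹, c1.t' γ * A1⁻¹, c1.t' γ * (y2 * A1)⁻¹,
        c2.s * PA, c2.s * PA * (z2⁻¹ * γ), c2.r * B1, c2.r * B1 * (γ * z1⁻¹),
        c3.s * Y, c3.s * Y * d1, c3.r * C1, c3.r * C1 * d2,
        c4.s * PC, c4.s * PC * w1, c4.r * D1, c4.r * D1 * w2,
        c5.t * PD⁻¹, c5.t * ((γ * y2⁻¹) * PD)⁻¹, c5.t' γ * E1⁻¹,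
        c5.t' γ * ((y⁻¹ * γ) * E1)⁻¹] : List G) : Multiset G),
      {γ * A1⁻¹, y, P0, γ * PA⁻¹, y2, A1} + ({PA, z2⁻¹ * γ, B1⁻¹ * γ, B1, γ * z1⁻¹, Y⁻¹ * γ} +
        ({Y, d1, C1⁻¹ * γ, C1, d2, PC⁻¹ * γ} + ({PC, w1, D1⁻¹ * γ, D1, w2, PD⁻¹ * γ} +
        ({γ * E1⁻¹, γ * y2⁻¹, PD, γ * PE⁻¹, y⁻¹ * γ, E1} + 0)))), rfl, ?_, ?_⟩
  · have hJ : ([c1, c2, c3, c4, c5].map (Cp.idx γ)).sum = c1.idx γ + (c2.idx γ + (c3.idx γ +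
        (c4.idx γ + (c5.idx γ + 0)))) := by
      simp only [List.map_cons, List.map_nil, List.sum_cons, List.sum_nil]
    rw [hJ]
    refine (congrArg (fun V => MS _ V _) ?_).mp hall
    simp only [← Multiset.cons_coe, Multiset.coe_nil, Multiset.insert_eq_cons]
    simp only [← Multiset.singleton_add]
    abel
  · simp only [← Multiset.cons_coe, Multiset.coe_nil, prs_cons, prs_zero, pr_ginv,
      Multiset.insert_eq_cons]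
    simp only [pr, Multiset.insert_eq_cons]
    simp only [← Multiset.singleton_add]
    abel

theorem msb_burn (G : Type) [Group G] (γ : G) (hγ : γ * γ = 1) (c1 c2 c4 c5 nx : Cp G)
    (α z1 z2 : G) (ω : Fin 4 → G) : ∃ V C : Multiset G,
    (((Bt.burn c1 c2 c4 c5).vws γ nx α z1 z2 ω : List G) : Multiset G) =
      V + {nx.t * (α * 1 * ω 2 * ω 3)⁻¹} ∧
    MS (([c1, c2, c4, c5].map (Cp.idx γ)).sum) ((c1.t * (α * z1 * z2)⁻¹) ::ₘ V) C ∧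
    C + {α * 1 * ω 2 * ω 3, (ω 3)⁻¹ * γ, γ * (ω 2)⁻¹} =
      {α * z1 * z2, z2⁻¹ * γ, γ * z1⁻¹} + 0 +
        prs γ (((Bt.burn c1 c2 c4 c5).pws γ nx α z1 z2 ω : List G) : Multiset G) := by
  obtain ⟨y, hy⟩ : ∃ y, y = ω 0 := ⟨_, rfl⟩
  obtain ⟨Y, hY⟩ : ∃ Y, Y = ω 1 := ⟨_, rfl⟩
  obtain ⟨w1, hw1⟩ : ∃ w1, w1 = ω 2 := ⟨_, rfl⟩
  obtain ⟨w2, hw2⟩ : ∃ w2, w2 = ω 3 := ⟨_, rfl⟩
  obtain ⟨y2, hy2⟩ : ∃ x, x = Y * α⁻¹ * y⁻¹ := ⟨_, rfl⟩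
  obtain ⟨P0, hP0⟩ : ∃ x, x = α * z1 * z2 := ⟨_, rfl⟩
  obtain ⟨PA, hPA⟩ : ∃ x, x = Y * z1 * z2 := ⟨_, rfl⟩
  obtain ⟨PD, hPD⟩ : ∃ x, x = Y * w1 * w2 := ⟨_, rfl⟩
  obtain ⟨PE, hPE⟩ : ∃ x, x = α * w1 * w2 := ⟨_, rfl⟩
  obtain ⟨A1, hA1⟩ : ∃ x, x = y * P0 * c1.g⁻¹ * γ := ⟨_, rfl⟩
  obtain ⟨B1, hB1⟩ : ∃ x, x = γ * c2.g⁻¹ * PA * (z2⁻¹ * γ) := ⟨_, rfl⟩
  obtain ⟨D1, hD1⟩ : ∃ x, x = γ * c4.g⁻¹ * Y * w1 := ⟨_, rfl⟩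
  obtain ⟨E1, hE1⟩ : ∃ x, x = (γ * y2⁻¹) * PD * c5.g⁻¹ * γ := ⟨_, rfl⟩
  have hA := stepL hγ c1 P0 y y2 A1 PA hA1 (by rw [hPA, hy2, hP0]; group)
  have hB := stepR hγ c2 PA (z2⁻¹ * γ) (γ * z1⁻¹) B1 Y hB1 (by
    rw [hPA]; simp only [mul_assoc, gg hγ, mul_inv_cancel_left, mul_inv_cancel, mul_one])
  have hD := stepR hγ c4 Y w1 w2 D1 PD hD1 hPD
  have hE := stepL hγ c5 PD (γ * y2⁻¹) (y⁻¹ * γ) E1 PE hE1 (by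
    rw [hPE, hPD, hy2]
    simp only [mul_inv_rev, inv_inv, mul_assoc, gg hγ, inv_mul_cancel_left])
  have hall := hA.add (hB.add (hD.add (hE.add MS.zero)))
  have hvw : (Bt.burn c1 c2 c4 c5).vws γ nx α z1 z2 ω =
      [c1.t * (y * P0)⁻¹, c1.t' γ * A1⁻¹, c1.t' γ * (y2 * A1)⁻¹,
        c2.s * PA, c2.s * PA * (z2⁻¹ * γ), c2.r * B1, c2.r * B1 * (γ * z1⁻¹),
        c4.s * Y, c4.s * Y * w1, c4.r * D1, c4.r * D1 * w2,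
        c5.t * PD⁻¹, c5.t * ((γ * y2⁻¹) * PD)⁻¹, c5.t' γ * E1⁻¹, c5.t' γ * ((y⁻¹ * γ) * E1)⁻¹,
        nx.t * PE⁻¹] := by
    subst hE1 hD1 hB1 hA1 hPE hPD hPA hP0 hy2 hw2 hw1 hY hy
    simp only [Bt.vws, Bt.sys, Bt.par, Walk.burnSys, Walk.vL, Walk.vR, Walk.P1L, Walk.P1R,
      Walk.cw, Walk.CW.t, Walk.CW.t', Walk.CW.g', List.map_append, List.map_cons, List.map_nil,
      List.cons_append, List.nil_append, ev_append, ev_i hγ, ev_X, ev_gam, Cp.t, Cp.t', Cp.g']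
    rfl
  have hpw : (Bt.burn c1 c2 c4 c5).pws γ nx α z1 z2 ω =
      [y, γ * y2⁻¹, γ * A1⁻¹, γ * PA⁻¹, B1, Y, γ * w1⁻¹, w2, D1, PD, γ * E1⁻¹,
        γ * PE⁻¹] := by
    subst hE1 hD1 hB1 hA1 hPE hPD hPA hP0 hy2 hw2 hw1 hY hy
    simp only [Bt.pws, Bt.sys, Bt.par, Walk.burnSys, Walk.vL, Walk.vR, Walk.P1L, Walk.P1R,
      Walk.cw, Walk.CW.t, Walk.CW.t', Walk.CW.g', List.map_append, List.map_cons, List.map_nil,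
      List.cons_append, List.nil_append, ev_append, ev_i hγ, ev_X, ev_gam, Cp.t, Cp.t', Cp.g']
    rfl
  have hPE' : α * 1 * ω 2 * ω 3 = PE := by
    rw [hPE, hw1, hw2]; group
  rw [hPE', ← hw1, ← hw2, hvw, hpw, ← hP0]
  refine ⟨(([c1.t * (y * P0)⁻¹, c1.t' γ * A1⁻¹, c1.t' γ * (y2 * A1)⁻¹,
        c2.s * PA, c2.s * PA * (z2⁻¹ * γ), c2.r * B1, c2.r * B1 * (γ * z1⁻¹),
        c4.s * Y, c4.s * Y * w1, c4.r * D1, c4.r * D1 * w2,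
        c5.t * PD⁻¹, c5.t * ((γ * y2⁻¹) * PD)⁻¹, c5.t' γ * E1⁻¹,
        c5.t' γ * ((y⁻¹ * γ) * E1)⁻¹] : List G) : Multiset G),
      {γ * A1⁻¹, y, P0, γ * PA⁻¹, y2, A1} + ({PA, z2⁻¹ * γ, B1⁻¹ * γ, B1, γ * z1⁻¹, Y⁻¹ * γ} +
        ({Y, w1, D1⁻¹ * γ, D1, w2, PD⁻¹ * γ} +
        ({γ * E1⁻¹, γ * y2⁻¹, PD, γ * PE⁻¹, y⁻¹ * γ, E1} + 0))), rfl, ?_, ?_⟩
  · have hJ : ([c1, c2, c4, c5].map (Cp.idx γ)).sum = c1.idx γ + (c2.idx γ +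
        (c4.idx γ + (c5.idx γ + 0))) := by
      simp only [List.map_cons, List.map_nil, List.sum_cons, List.sum_nil]
    rw [hJ]
    refine (congrArg (fun V => MS _ V _) ?_).mp hall
    simp only [← Multiset.cons_coe, Multiset.coe_nil, Multiset.insert_eq_cons]
    simp only [← Multiset.singleton_add]
    abel
  · simp only [← Multiset.cons_coe, Multiset.coe_nil, prs_cons, prs_zero, pr_ginv,
      Multiset.insert_eq_cons]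
    simp only [pr, Multiset.insert_eq_cons]
    simp only [← Multiset.singleton_add]
    abel

theorem stmt_MSB : Stmt_MSB := by
  intro G _ γ hγ b nx α z1 z2 ω
  cases b with
  | feed c1 c2 c3 c4 c5 d1 d2 => exact msb_feed G γ hγ c1 c2 c3 c4 c5 nx d1 d2 α z1 z2 ω
  | burn c1 c2 c4 c5 => exact msb_burn G γ hγ c1 c2 c4 c5 nx α z1 z2 ω

theorem stmt_MSN : Stmt_MSN := by
  intro G _ γ hγ f α z1 z2 ω
  obtain ⟨c1, c2, c5⟩ := f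
  obtain ⟨y, hy⟩ : ∃ y, y = ω 0 := ⟨_, rfl⟩
  obtain ⟨Y, hY⟩ : ∃ Y, Y = ω 1 := ⟨_, rfl⟩
  obtain ⟨y2, hy2⟩ : ∃ x, x = Y * α⁻¹ * y⁻¹ := ⟨_, rfl⟩
  obtain ⟨P0, hP0⟩ : ∃ x, x = α * z1 * z2 := ⟨_, rfl⟩
  obtain ⟨PA, hPA⟩ : ∃ x, x = Y * z1 * z2 := ⟨_, rfl⟩
  obtain ⟨A1, hA1⟩ : ∃ x, x = y * P0 * c1.g⁻¹ * γ := ⟨_, rfl⟩
  obtain ⟨B1, hB1⟩ : ∃ x, x = γ * c2.g⁻¹ * PA * (z2⁻¹ * γ) := ⟨_, rfl⟩
  obtain ⟨E1, hE1⟩ : ∃ x, x = (γ * y2⁻¹) * Y * c5.g⁻¹ * γ := ⟨_, rfl⟩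
  have hA := stepL hγ c1 P0 y y2 A1 PA hA1 (by rw [hPA, hy2, hP0]; group)
  have hB := stepR hγ c2 PA (z2⁻¹ * γ) (γ * z1⁻¹) B1 Y hB1 (by
    rw [hPA]; simp only [mul_assoc, gg hγ, mul_inv_cancel_left, mul_inv_cancel, mul_one])
  have hE := stepL hγ c5 Y (γ * y2⁻¹) (y⁻¹ * γ) E1 α hE1 (by
    rw [hy2]
    simp only [mul_inv_rev, inv_inv, mul_assoc, gg hγ, inv_mul_cancel_left, inv_mul_cancel,
      mul_one])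
  have hlast : c5.t' γ * ((y⁻¹ * γ) * E1)⁻¹ = c5.r * (γ * α⁻¹) := by
    rw [hE1, hy2, Cp.t', Cp.g']
    simp only [mul_inv_rev, inv_inv, ginv hγ, mul_assoc, inv_mul_cancel_left, gg hγ,
      mul_inv_cancel_left, mul_inv_cancel, mul_one]
  rw [hlast] at hE
  have hall := hA.add (hB.add (hE.add MS.zero))
  have hvw : (Fn.mk c1 c2 c5).vws γ α z1 z2 ω =
      [c1.t * (y * P0)⁻¹, c1.t' γ * A1⁻¹, c1.t' γ * (y2 * A1)⁻¹,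
        c2.s * PA, c2.s * PA * (z2⁻¹ * γ), c2.r * B1, c2.r * B1 * (γ * z1⁻¹),
        c5.t * Y⁻¹, c5.t * ((γ * y2⁻¹) * Y)⁻¹, c5.t' γ * E1⁻¹] := by
    subst hE1 hB1 hA1 hPA hP0 hy2 hY hy
    simp only [Fn.vws, Fn.par, Walk.finSys, Walk.vL, Walk.vR, Walk.P1L, Walk.P1R,
      Walk.cw, Walk.CW.t, Walk.CW.t', Walk.CW.g', List.map_append, List.map_cons, List.map_nil,
      List.cons_append, List.nil_append, ev_append, ev_i hγ, ev_X, ev_gam, Cp.t, Cp.t', Cp.g']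
    rfl
  have hpw : (Fn.mk c1 c2 c5).pws γ α z1 z2 ω =
      [y, γ * y2⁻¹, γ * A1⁻¹, γ * PA⁻¹, B1, Y, γ * E1⁻¹] := by
    subst hE1 hB1 hA1 hPA hP0 hy2 hY hy
    simp only [Fn.pws, Fn.par, Walk.finSys, Walk.vL, Walk.vR, Walk.P1L, Walk.P1R,
      Walk.cw, Walk.CW.t, Walk.CW.t', Walk.CW.g', List.map_append, List.map_cons, List.map_nil,
      List.cons_append, List.nil_append, ev_append, ev_i hγ, ev_X, ev_gam, Cp.t, Cp.t', Cp.g']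
    rfl
  rw [hvw, hpw, ← hP0]
  have hJ : ((Fn.mk c1 c2 c5).cps.map (Cp.idx γ)).sum = c1.idx γ + (c2.idx γ +
      (c5.idx γ + 0)) := by
    simp only [Fn.cps, List.map_cons, List.map_nil, List.sum_cons, List.sum_nil]
  rw [hJ]
  refine (congrArg₂ (fun V C => MS _ V C) ?_ ?_).mp hall
  · simp only [← Multiset.cons_coe, Multiset.coe_nil, Multiset.insert_eq_cons]
    simp only [← Multiset.singleton_add]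
    abel
  · simp only [← Multiset.cons_coe, Multiset.coe_nil, prs_cons, prs_zero, pr_ginv,
      Multiset.insert_eq_cons]
    simp only [pr, Multiset.insert_eq_cons]
    simp only [← Multiset.singleton_add]
    abel

end Pool.OM.h76
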