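import Pool.Agent.Work.MP_8d2cba_co_h18.Interface2
import Pool.Agent.Work.MP_8d2cba_co_helper76.MSB

/-! MP_8d2cba_co, blocks STB and STN. -/

set_option autoImplicit false

namespace Pool.OM.h76

open Finset Pool.OM

def chk (S : Sys) (f : ℕ) (L : List Ob) : Bool :=
  match S.obls f with
  | some l => l.all fun o => L.contains o
  | none => false

theorem chk_spec {S : Sys} {f : ℕ} {L : List Ob} (h : chk S f L = true) :
    ∃ l, S.obls f = some l ∧ ∀ o ∈ l, o ∈ L := by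
  unfold chk at h
  rcases hS : S.obls f with _ | l
  · rw [hS] at h; simp at h
  · rw [hS] at h
    refine ⟨l, rfl, fun o ho => ?_⟩
    have := List.all_eq_true.1 h o ho
    simpa using this

def feedOb : List Ob := [
  Ob.ne [(10, true), (22, true), (0, false), (16, false)],
  Ob.rt [(0, false), (16, false), (11, true)],
  Ob.ne [(11, true), (23, true), (0, false), (17, false)],
  Ob.ne [(17, true), (0, true), (23, false), (12, false)],
  Ob.cj [(8, false)] [(23, true), (0, false), (17, false), (12, true)],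
  Ob.cj [(8, false)] [(23, true), (0, false), (17, false), (18, true), (0, true), (24, false)],
  Ob.cj [(9, false), (8, false)] [(23, true), (0, false), (17, false), (18, true), (0, true), (24, false)],
  Ob.cj [(9, false), (8, false)] [(23, true), (0, false), (17, false), (13, true)],
  Ob.ne [(8, false)],
  Ob.cj [(8, false)] [(12, false), (18, true), (0, true), (24, false)],
  Ob.cj [(9, false), (8, false)] [(12, false), (18, true), (0, true), (24, false)],
  Ob.cj [(9, false), (8, false)] [(12, false), (13, true)],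
  Ob.ne [(12, true), (24, true), (0, false), (18, false)],
  Ob.cj [(9, false)] [(12, false), (18, true), (0, true), (24, false)],
  Ob.cj [(9, false)] [(12, false), (13, true)],
  Ob.ne [(9, false)],
  Ob.cj [(9, false)] [(24, true), (0, false), (18, false), (13, true)],
  Ob.ne [(18, true), (0, true), (24, false), (13, false)],
  Ob.ne [(13, true), (25, true), (0, false), (19, false)],
  Ob.rt [(25, true), (0, false), (19, false), (14, true), (26, true)],
  Ob.ne [(14, true), (26, true), (0, false), (20, false)],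
  Ob.ne [(20, true), (0, true), (27, false), (15, false)],
  Ob.cj [(8, false)] [(0, true), (24, false)],
  Ob.ne [(9, false), (8, false)],
  Ob.rt [(24, true), (8, true)],
  Ob.rt [(0, false), (8, true), (9, true)],
  Ob.rt [(0, false), (8, false), (0, true), (24, false)],
  Ob.rt [(0, false), (9, false), (8, false)],
  Ob.cj [(9, false)] [(24, true), (0, false)],
  Ob.rt [(0, false), (9, true), (0, true), (24, false)],
  Ob.rt [(24, true), (9, false)],
  Ob.rt [(0, false)],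
  Ob.rt [(0, true)]]

def burnOb : List Ob := [
  Ob.ne [(8, true), (20, true), (0, false), (14, false)],
  Ob.rt [(0, false), (14, false), (9, true)],
  Ob.ne [(9, true), (21, true), (0, false), (15, false)],
  Ob.ne [(15, true), (0, true), (21, false), (11, false)],
  Ob.ne [(11, true), (23, true), (0, false), (17, false)],
  Ob.rt [(23, true), (0, false), (17, false), (12, true), (24, true)],
  Ob.ne [(12, true), (24, true), (0, false), (18, false)],
  Ob.ne [(18, true), (0, true), (25, false), (13, false)],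
  Ob.rt [(0, false)],
  Ob.rt [(0, true)]]

def finOb : List Ob := [
  Ob.ne [(6, true), (18, true), (0, false), (12, false)],
  Ob.rt [(0, false), (12, false), (7, true)],
  Ob.ne [(7, true), (19, true), (0, false), (13, false)],
  Ob.rt [(19, true), (0, false), (13, false), (10, true), (22, true)],
  Ob.ne [(10, true), (22, true), (0, false), (16, false)],
  Ob.rt [(22, true), (5, false), (0, true)],
  Ob.cj [(0, false)] [(5, true), (22, false), (0, false)],
  Ob.ne [(22, true), (5, false)],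
  Ob.rt [(0, true)],
  Ob.rt [(0, false)]]

theorem chk_feed : chk Walk.feedSys 6 feedOb = true := by decide +kernel
theorem chk_burn : chk Walk.burnSys 6 burnOb = true := by decide +kernel
theorem chk_fin : chk Walk.finSys 4 finOb = true := by decide +kernel
theorem len_feed : Walk.feedSys.colls.length = 477 := by decide +kernel
theorem len_burn : Walk.burnSys.colls.length = 330 := by decide +kernel
theorem len_fin : Walk.finSys.colls.length = 115 := by decide +kernel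

section facts
variable {G : Type} [Group G] [Fintype G] [DecidableEq G]

theorem rt_inv (a : G) : rt a⁻¹ = rt a := by
  unfold rt
  refine Finset.card_bij' (fun x _ => x⁻¹) (fun x _ => x⁻¹) ?_ ?_ ?_ ?_
  · intro x hx
    simp only [mem_filter, mem_univ, true_and] at hx ⊢
    rw [← mul_inv_rev, hx, inv_inv]
  · intro x hx
    simp only [mem_filter, mem_univ, true_and] at hx ⊢
    rw [← mul_inv_rev, hx]
  · intro x _; simp
  · intro x _; simp

theorem cj_symm (a b : G) : cj a b = cj b a := by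
  unfold cj
  refine Finset.card_bij' (fun x _ => x⁻¹) (fun x _ => x⁻¹) ?_ ?_ ?_ ?_
  · intro x hx
    simp only [mem_filter, mem_univ, true_and] at hx ⊢
    rw [← hx]; group
  · intro x hx
    simp only [mem_filter, mem_univ, true_and] at hx ⊢
    rw [← hx]; group
  · intro x _; simp
  · intro x _; simp

theorem cj_inv (a b : G) : cj a⁻¹ b⁻¹ = cj a b := by
  unfold cj
  congr 1
  ext x
  simp only [mem_filter, mem_univ, true_and]
  constructor
  · intro h
    have := congrArg Inv.inv h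
    simpa [mul_assoc] using this
  · intro h
    have := congrArg Inv.inv h
    simpa [mul_assoc] using this

theorem rt_of_inv {K N : ℕ} {a x : G} (h : K * rt a ≤ N) (e : x = a⁻¹) : K * rt x ≤ N := by
  rw [e, rt_inv]; exact h

theorem cj_of_inv {K N : ℕ} {a b x y : G} (h : K * cj a b ≤ N) (ea : x = a⁻¹) (eb : y = b⁻¹) :
    K * cj x y ≤ N := by
  rw [ea, eb, cj_inv]; exact h

theorem ne_of {x a b : G} (h : a ≠ b) (e : x = 1 → a = b) : x ≠ 1 := fun hx => h (e hx)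

end facts

section obl
variable {G : Type} [Group G] [Fintype G] [DecidableEq G]

theorem w1' {γ : G} (hγ : γ * γ = 1) {K k : ℕ} {Q : Finset (Cp G)} (hQ : GenPos K k γ Q)
    {c : Cp G} (hc : c ∈ Q) : c.s * (c.g * (γ * (c.r⁻¹ * 1))) ≠ 1 := by
  intro h
  apply hQ.w1 c hc
  have h1 : c.r * γ * c.g⁻¹ = (c.s * (c.g * (γ * (c.r⁻¹ * 1))))⁻¹ * c.s := by
    simp only [mul_inv_rev, inv_inv, ginv hγ, mul_assoc, inv_one, one_mul, inv_mul_cancel,
      mul_one]
  rw [h1, h, inv_one, one_mul]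

theorem w2' {γ : G} {K k : ℕ} {Q : Finset (Cp G)} (hQ : GenPos K k γ Q)
    {c c' : Cp G} (hc : c ∈ Q) (hc' : c' ∈ Q) (hne : c ≠ c') :
    c.r * (γ * (c.g⁻¹ * (c'.s⁻¹ * 1))) ≠ 1 := by
  intro h
  apply hQ.w2 c hc c' hc' hne
  have h1 : c.r * γ * c.g⁻¹ = c.r * (γ * (c.g⁻¹ * (c'.s⁻¹ * 1))) * c'.s := by
    simp only [mul_assoc, one_mul, inv_mul_cancel, mul_one]
  rw [h1, h, one_mul]

theorem w3' {γ : G} (hγ : γ * γ = 1) {K k : ℕ} {Q : Finset (Cp G)} (hQ : GenPos K k γ Q)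
    {c c' : Cp G} (hc : c ∈ Q) (hc' : c' ∈ Q) (hne : c ≠ c') :
    c.r * (γ * (c'.g⁻¹ * (c'.s⁻¹ * 1))) ≠ 1 := by
  intro h
  apply hQ.w3 c hc c' hc' hne
  have h1 : c'.s * c'.g * γ = (c.r * (γ * (c'.g⁻¹ * (c'.s⁻¹ * 1))))⁻¹ * c.r := by
    simp only [mul_inv_rev, inv_inv, ginv hγ, mul_assoc, inv_one, one_mul, inv_mul_cancel,
      mul_one]
  rw [h1, h, inv_one, one_mul]

theorem feed_ok {γ : G} (hγ : γ * γ = 1) {K k : ℕ} {Q : Finset (Cp G)} (hQ : GenPos K k γ Q)
    (hrt : K * rt γ ≤ Fintype.card G) (c1 c2 c3 c4 c5 nx : Cp G) (d1 d2 α : G)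
    (hA : FeedAd K γ c2 c3 c4 d1 d2) (m1 : c1 ∈ Q) (m2 : c2 ∈ Q) (m3 : c3 ∈ Q) (m4 : c4 ∈ Q)
    (m5 : c5 ∈ Q) (m6 : nx ∈ Q) (n12 : c1 ≠ c2) (n23 : c2 ≠ c3) (n34 : c3 ≠ c4) (n45 : c4 ≠ c5)
    (n56 : c5 ≠ nx) :
    ∀ o ∈ feedOb, ObOK K γ (join 6 (fun _ => 1) (parL [α, d1, d2, c1.s, c2.s, c3.s, c4.s, c5.s,
      nx.s, c1.r, c2.r, c3.r, c4.r, c5.r, nx.r, c1.g, c2.g, c3.g, c4.g, c5.g, nx.g])) o := by
  simp only [feedOb, List.forall_mem_cons]
  refine ⟨?_, ?_, ?_, ?_, ?_, ?_, ?_, ?_, ?_, ?_, ?_, ?_, ?_, ?_, ?_, ?_, ?_, ?_, ?_, ?_, ?_, ?_,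
    ?_, ?_, ?_, ?_, ?_, ?_, ?_, ?_, ?_, ?_, ?_, ?_⟩
  · exact w1' hγ hQ m1
  · change K * rt (γ * (c1.r⁻¹ * (c2.s * 1))) ≤ _
    exact rt_of_inv (hQ.r1 c1 m1 c2 m2 n12)
      (by simp only [mul_inv_rev, inv_inv, ginv hγ, mul_assoc, mul_one])
  · exact w1' hγ hQ m2
  · exact w2' hQ m2 m3 n23
  · change K * cj (d1⁻¹ * 1) (c2.g * (γ * (c2.r⁻¹ * (c3.s * 1)))) ≤ _
    exact cj_of_inv hA.b2 (mul_one _)
      (by simp only [mul_inv_rev, inv_inv, ginv hγ, mul_assoc, mul_one])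
  · change K * cj (d1⁻¹ * 1) (c2.g * (γ * (c2.r⁻¹ * (c3.r * (γ * (c3.g⁻¹ * 1)))))) ≤ _
    exact cj_of_inv hA.b3 (mul_one _)
      (by simp only [mul_inv_rev, inv_inv, ginv hγ, mul_assoc, mul_one])
  · change K * cj (d2⁻¹ * (d1⁻¹ * 1)) (c2.g * (γ * (c2.r⁻¹ * (c3.r * (γ * (c3.g⁻¹ * 1)))))) ≤ _
    exact cj_of_inv hA.b5 (by simp only [mul_inv_rev, mul_one])
      (by simp only [mul_inv_rev, inv_inv, ginv hγ, mul_assoc, mul_one])
  · change K * cj (d2⁻¹ * (d1⁻¹ * 1)) (c2.g * (γ * (c2.r⁻¹ * (c4.s * 1)))) ≤ _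
    exact cj_of_inv hA.b7 (by simp only [mul_inv_rev, mul_one])
      (by simp only [mul_inv_rev, inv_inv, ginv hγ, mul_assoc, mul_one])
  · change d1⁻¹ * 1 ≠ 1
    rw [mul_one]; exact inv_ne_one.2 hA.e1
  · change K * cj (d1⁻¹ * 1) (c3.s⁻¹ * (c3.r * (γ * (c3.g⁻¹ * 1)))) ≤ _
    exact cj_of_inv hA.b4 (mul_one _)
      (by simp only [mul_inv_rev, inv_inv, ginv hγ, mul_assoc, mul_one])
  · change K * cj (d2⁻¹ * (d1⁻¹ * 1)) (c3.s⁻¹ * (c3.r * (γ * (c3.g⁻¹ * 1)))) ≤ _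
    exact cj_of_inv hA.b6 (by simp only [mul_inv_rev, mul_one])
      (by simp only [mul_inv_rev, inv_inv, ginv hγ, mul_assoc, mul_one])
  · change K * cj (d2⁻¹ * (d1⁻¹ * 1)) (c3.s⁻¹ * (c4.s * 1)) ≤ _
    exact cj_of_inv hA.b8 (by simp only [mul_inv_rev, mul_one])
      (by simp only [mul_inv_rev, inv_inv, mul_one])
  · exact w1' hγ hQ m3
  · change K * cj (d2⁻¹ * 1) (c3.s⁻¹ * (c3.r * (γ * (c3.g⁻¹ * 1)))) ≤ _
    exact cj_of_inv hA.b10 (mul_one _)
      (by simp only [mul_inv_rev, inv_inv, ginv hγ, mul_assoc, mul_one])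
  · change K * cj (d2⁻¹ * 1) (c3.s⁻¹ * (c4.s * 1)) ≤ _
    exact cj_of_inv hA.b11 (mul_one _) (by simp only [mul_inv_rev, inv_inv, mul_one])
  · change d2⁻¹ * 1 ≠ 1
    rw [mul_one]; exact inv_ne_one.2 hA.e2
  · change K * cj (d2⁻¹ * 1) (c3.g * (γ * (c3.r⁻¹ * (c4.s * 1)))) ≤ _
    exact cj_of_inv hA.b12 (mul_one _)
      (by simp only [mul_inv_rev, inv_inv, ginv hγ, mul_assoc, mul_one])
  · exact w2' hQ m3 m4 n34
  · exact w1' hγ hQ m4
  · change K * rt (c4.g * (γ * (c4.r⁻¹ * (c5.s * (c5.g * 1))))) ≤ _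
    exact rt_of_inv (hQ.r2 c4 m4 c5 m5 n45)
      (by simp only [mul_inv_rev, inv_inv, ginv hγ, mul_assoc, mul_one])
  · exact w1' hγ hQ m5
  · exact w3' hγ hQ m5 m6 n56
  · change K * cj (d1⁻¹ * 1) (γ * (c3.g⁻¹ * 1)) ≤ _
    exact cj_of_inv hA.b1 (mul_one _)
      (by simp only [mul_inv_rev, ginv hγ, mul_one])
  · change d2⁻¹ * (d1⁻¹ * 1) ≠ 1
    rw [mul_one, ← mul_inv_rev]; exact inv_ne_one.2 hA.e3
  · change K * rt (c3.g * (d1 * 1)) ≤ _
    exact rt_of_inv hA.a2 (by simp only [mul_inv_rev, inv_inv, mul_one])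
  · change K * rt (γ * (d1 * (d2 * 1))) ≤ _
    have : γ * (d1 * (d2 * 1)) = γ * (d1 * d2 * γ) * γ⁻¹ := by group
    rw [this, rt_conj]; exact hA.a3
  · change K * rt (γ * (d1⁻¹ * (γ * (c3.g⁻¹ * 1)))) ≤ _
    exact rt_of_inv hA.a1 (by simp only [mul_inv_rev, ginv hγ, mul_assoc, mul_one])
  · change K * rt (γ * (d2⁻¹ * (d1⁻¹ * 1))) ≤ _
    exact rt_of_inv hA.a3 (by simp only [mul_inv_rev, ginv hγ, mul_one])
  · change K * cj (d2⁻¹ * 1) (c3.g * (γ * 1)) ≤ _
    exact cj_of_inv hA.b9 (mul_one _) (by simp only [mul_inv_rev, inv_inv, ginv hγ, mul_one])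
  · change K * rt (γ * (d2 * (γ * (c3.g⁻¹ * 1)))) ≤ _
    exact rt_of_inv hA.a6 (by simp only [mul_inv_rev, inv_inv, ginv hγ, mul_assoc, mul_one])
  · change K * rt (c3.g * (d2⁻¹ * 1)) ≤ _
    exact rt_of_inv hA.a5 (by simp only [mul_inv_rev, inv_inv, mul_one])
  · change K * rt (γ * 1) ≤ _
    rw [mul_one]; exact hrt
  · change K * rt (γ * 1) ≤ _
    rw [mul_one]; exact hrt
  · simp

theorem burn_ok {γ : G} (hγ : γ * γ = 1) {K k : ℕ} {Q : Finset (Cp G)} (hQ : GenPos K k γ Q)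
    (hrt : K * rt γ ≤ Fintype.card G) (c1 c2 c4 c5 nx : Cp G) (α : G)
    (m1 : c1 ∈ Q) (m2 : c2 ∈ Q) (m4 : c4 ∈ Q)
    (m5 : c5 ∈ Q) (m6 : nx ∈ Q) (n12 : c1 ≠ c2) (n24 : c2 ≠ c4) (n45 : c4 ≠ c5)
    (n56 : c5 ≠ nx) :
    ∀ o ∈ burnOb, ObOK K γ (join 6 (fun _ => 1) (parL [α, c1.s, c2.s, 1, c4.s, c5.s,
      nx.s, c1.r, c2.r, 1, c4.r, c5.r, nx.r, c1.g, c2.g, 1, c4.g, c5.g, nx.g])) o := by
  simp only [burnOb, List.forall_mem_cons]
  refine ⟨?_, ?_, ?_, ?_, ?_, ?_, ?_, ?_, ?_, ?_, ?_⟩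
  · exact w1' hγ hQ m1
  · change K * rt (γ * (c1.r⁻¹ * (c2.s * 1))) ≤ _
    exact rt_of_inv (hQ.r1 c1 m1 c2 m2 n12)
      (by simp only [mul_inv_rev, inv_inv, ginv hγ, mul_assoc, mul_one])
  · exact w1' hγ hQ m2
  · exact w2' hQ m2 m4 n24
  · exact w1' hγ hQ m4
  · change K * rt (c4.g * (γ * (c4.r⁻¹ * (c5.s * (c5.g * 1))))) ≤ _
    exact rt_of_inv (hQ.r2 c4 m4 c5 m5 n45)
      (by simp only [mul_inv_rev, inv_inv, ginv hγ, mul_assoc, mul_one])
  · exact w1' hγ hQ m5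
  · exact w3' hγ hQ m5 m6 n56
  · change K * rt (γ * 1) ≤ _
    rw [mul_one]; exact hrt
  · change K * rt (γ * 1) ≤ _
    rw [mul_one]; exact hrt
  · simp

theorem fin_ok {γ : G} (hγ : γ * γ = 1) {K k : ℕ} {Q : Finset (Cp G)} (hQ : GenPos K k γ Q)
    (hrt : K * rt γ ≤ Fintype.card G) (c1 c2 c5 : Cp G) (α : G) (hA : FinAd K γ c5 α)
    (m1 : c1 ∈ Q) (m2 : c2 ∈ Q) (m5 : c5 ∈ Q) (n12 : c1 ≠ c2) (n25 : c2 ≠ c5) :
    ∀ o ∈ finOb, ObOK K γ (join 4 (fun _ => 1) (parL [α, c1.s, c2.s, 1, 1, c5.s, 1,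
      c1.r, c2.r, 1, 1, c5.r, 1, c1.g, c2.g, 1, 1, c5.g, 1])) o := by
  simp only [finOb, List.forall_mem_cons]
  refine ⟨?_, ?_, ?_, ?_, ?_, ?_, ?_, ?_, ?_, ?_, ?_⟩
  · exact w1' hγ hQ m1
  · change K * rt (γ * (c1.r⁻¹ * (c2.s * 1))) ≤ _
    exact rt_of_inv (hQ.r1 c1 m1 c2 m2 n12)
      (by simp only [mul_inv_rev, inv_inv, ginv hγ, mul_assoc, mul_one])
  · exact w1' hγ hQ m2
  · change K * rt (c2.g * (γ * (c2.r⁻¹ * (c5.s * (c5.g * 1))))) ≤ _
    exact rt_of_inv (hQ.r2 c2 m2 c5 m5 n25)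
      (by simp only [mul_inv_rev, inv_inv, ginv hγ, mul_assoc, mul_one])
  · exact w1' hγ hQ m5
  · change K * rt (c5.g * (α⁻¹ * (γ * 1))) ≤ _
    have h1 : K * rt (γ * (c5.g * α⁻¹)) ≤ Fintype.card G :=
      rt_of_inv hA.a1 (by simp only [mul_inv_rev, inv_inv, ginv hγ])
    have h2 : γ * (c5.g * α⁻¹) = γ * (c5.g * (α⁻¹ * (γ * 1))) * γ⁻¹ := by group
    rw [h2, rt_conj] at h1
    exact h1
  · change K * cj (γ * 1) (α * (c5.g⁻¹ * (γ * 1))) ≤ _
    rw [cj_symm]
    exact cj_of_inv hA.b1 (by simp only [mul_inv_rev, inv_inv, ginv hγ, mul_one])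
      (by rw [mul_one, ginv hγ])
  · change c5.g * (α⁻¹ * 1) ≠ 1
    rw [mul_one]
    intro h
    exact hA.e1 (mul_inv_eq_one.1 h)
  · change K * rt (γ * 1) ≤ _
    rw [mul_one]; exact hrt
  · change K * rt (γ * 1) ≤ _
    rw [mul_one]; exact hrt
  · simp

/-! ### counting -/

/-- joining two extra variables -/
theorem join_ext (f : ℕ) (ω : Fin f → G) (z1 z2 : G) (L : List G) :
    join f ω (parL (z1 :: z2 :: L)) =
      join (f + 2) (Fin.append ω ![z1, z2]) (parL L) := by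
  funext j
  unfold join
  by_cases h1 : j < f
  · have h2 : j < f + 2 := by omega
    rw [dif_pos h1, dif_pos h2]
    have : (⟨j, h2⟩ : Fin (f + 2)) = Fin.castAdd 2 ⟨j, h1⟩ := rfl
    rw [this, Fin.append_left]
  · rw [dif_neg h1]
    by_cases h2 : j < f + 2
    · rw [dif_pos h2]
      rcases (by omega : j = f ∨ j = f + 1) with rfl | rfl
      · have : (⟨j, h2⟩ : Fin (j + 2)) = Fin.natAdd j 0 := rfl
        rw [this, Fin.append_right]
        simp [parL]
      · have : (⟨f + 1, h2⟩ : Fin (f + 2)) = Fin.natAdd f 1 := rfl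
        rw [this, Fin.append_right]
        simp [parL]
    · rw [dif_neg h2]
      have : j - f = (j - (f + 2)) + 1 + 1 := by omega
      rw [this]
      rfl

/-- from a bound for the bad choices of all variables to a bound for the bad pairs -/
theorem pair_count (f : ℕ) (p : (Fin f → G) → G → G → Prop)
    (q : (Fin (f + 2) → G) → Prop) (hpq : ∀ ω z1 z2, q (Fin.append ω ![z1, z2]) ↔ ¬ p ω z1 z2)
    (N K K' : ℕ) (hK : 2 * N * K ≤ K')
    (hq : ∀ (inst : DecidablePred q), K' * (univ.filter q).card ≤ N * Fintype.card G ^ (f + 2))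
    (S : Finset (G × G))
    (hS : ∀ z ∈ S, ¬ (∀ (inst : DecidablePred fun ω => p ω z.1 z.2), Fintype.card G ^ f ≤
      2 * (univ.filter fun ω => p ω z.1 z.2).card)) (hN : 0 < N) :
    K * S.card ≤ Fintype.card G ^ 2 := by
  classical
  have hn : 0 < Fintype.card G := Fintype.card_pos
  have h1 := hq inferInstance
  -- lower bound
  have h2 : S.card * Fintype.card G ^ f ≤ 2 * (univ.filter q).card := by
    have h3 : (S.sigma fun z => univ.filter fun ω : Fin f → G => ¬ p ω z.1 z.2).card ≤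
        (univ.filter q).card := by
      apply Finset.card_le_card_of_injOn (fun x => Fin.append x.2 ![x.1.1, x.1.2])
      · intro x hx
        simp only [Finset.coe_sigma, Set.mem_sigma_iff, Finset.mem_coe, mem_filter, mem_univ,
          true_and] at hx ⊢
        exact (hpq _ _ _).2 hx.2
      · rintro ⟨⟨a, b⟩, ω⟩ _ ⟨⟨a', b'⟩, ω'⟩ _ h
        simp only at h
        have e1 : ω = ω' := by
          funext i
          have := congrFun h (Fin.castAdd 2 i)
          simpa using this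
        have e2 : a = a' := by
          have := congrFun h (Fin.natAdd f 0)
          simpa using this
        have e3 : b = b' := by
          have := congrFun h (Fin.natAdd f 1)
          simpa using this
        subst e1 e2 e3
        rfl
    rw [Finset.card_sigma] at h3
    have h4 : ∀ z ∈ S, Fintype.card G ^ f ≤
        2 * (univ.filter fun ω : Fin f → G => ¬ p ω z.1 z.2).card := by
      intro z hz
      have h5 := hS z hz
      have h6 : 2 * (univ.filter fun ω : Fin f → G => p ω z.1 z.2).card <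
          Fintype.card G ^ f := by
        by_contra h7
        apply h5
        intro inst
        push Not at h7
        exact h7.trans_eq (by congr!)
      have h7 := Finset.card_filter_add_card_filter_not (s := (univ : Finset (Fin f → G)))
        (fun ω => p ω z.1 z.2)
      rw [Finset.card_univ, Fintype.card_fun, Fintype.card_fin] at h7
      omega
    calc S.card * Fintype.card G ^ f = ∑ z ∈ S, Fintype.card G ^ f := by
          rw [Finset.sum_const, smul_eq_mul]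
      _ ≤ ∑ z ∈ S, 2 * (univ.filter fun ω : Fin f → G => ¬ p ω z.1 z.2).card :=
          Finset.sum_le_sum h4
      _ = 2 * ∑ z ∈ S, (univ.filter fun ω : Fin f → G => ¬ p ω z.1 z.2).card := by
          rw [Finset.mul_sum]
      _ ≤ 2 * (univ.filter q).card := Nat.mul_le_mul_left _ h3
  have hpos : 0 < 2 * N * Fintype.card G ^ f := by positivity
  refine Nat.le_of_mul_le_mul_left ?_ hpos
  calc 2 * N * Fintype.card G ^ f * (K * S.card)
      = (2 * N * K) * (S.card * Fintype.card G ^ f) := by ring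
    _ ≤ K' * (2 * (univ.filter q).card) := Nat.mul_le_mul hK h2
    _ = 2 * (K' * (univ.filter q).card) := by ring
    _ ≤ 2 * (N * Fintype.card G ^ (f + 2)) := Nat.mul_le_mul_left _ h1
    _ = 2 * N * Fintype.card G ^ f * Fintype.card G ^ 2 := by ring

end obl

theorem stmt_STB : Stmt_STB := by
  intro K
  refine ⟨954 * K, ?_⟩
  intro G _ _ _ k γ Q hγ hn hrt hQ b nx hAd hnd hmem α S hS
  classical
  cases b with
  | feed c1 c2 c3 c4 c5 d1 d2 =>
    obtain ⟨l, hl, hl2⟩ := chk_spec chk_feed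
    simp only [Bt.cps, List.cons_append, List.nil_append, List.nodup_cons, List.mem_cons,
      List.not_mem_nil, or_false, not_or] at hnd hmem
    obtain ⟨⟨n12, -⟩, ⟨n23, -⟩, ⟨n34, -⟩, ⟨n45, -⟩, n56, -⟩ := hnd
    have hok := feed_ok hγ hQ hrt c1 c2 c3 c4 c5 nx d1 d2 α hAd (hmem c1 (by simp))
      (hmem c2 (by simp)) (hmem c3 (by simp)) (hmem c4 (by simp)) (hmem c5 (by simp))
      (hmem nx (by simp)) n12 n23 n34 n45 n56
    have h3 := stmt_R3 G γ hγ 6 Walk.feedSys l hl (954 * K) (parL [α, d1, d2, c1.s, c2.s, c3.s,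
      c4.s, c5.s, nx.s, c1.r, c2.r, c3.r, c4.r, c5.r, nx.r, c1.g, c2.g, c3.g, c4.g, c5.g, nx.g])
      hn (fun o ho => hok o (hl2 o ho))
    rw [len_feed] at h3
    refine pair_count 4
      (fun ω z1 z2 => CF γ ((Bt.feed c1 c2 c3 c4 c5 d1 d2).pws γ nx α z1 z2 ω)
        ((Bt.feed c1 c2 c3 c4 c5 d1 d2).vws γ nx α z1 z2 ω))
      (fun ω => ¬ ((prs γ (Walk.feedSys.pw.map (ev γ (join 6 ω (parL [α, d1, d2, c1.s, c2.s,
        c3.s, c4.s, c5.s, nx.s, c1.r, c2.r, c3.r, c4.r, c5.r, nx.r, c1.g, c2.g, c3.g, c4.g,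
        c5.g, nx.g]))) : Multiset G)).Nodup ∧ (Walk.feedSys.vw.map (ev γ (join 6 ω (parL [α, d1,
        d2, c1.s, c2.s, c3.s, c4.s, c5.s, nx.s, c1.r, c2.r, c3.r, c4.r, c5.r, nx.r, c1.g, c2.g,
        c3.g, c4.g, c5.g, nx.g])))).Nodup))
      ?_ 477 K (954 * K) (by omega) ?_ S ?_ (by norm_num)
    · intro ω z1 z2
      simp only [CF, Bt.pws, Bt.vws, Bt.sys, Bt.par]
      rw [join_ext 4]
    · intro inst
      convert h3
    · intro z hz h
      apply hS z hz
      unfold Bt.Good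
      exact h _
  | burn c1 c2 c4 c5 =>
    obtain ⟨l, hl, hl2⟩ := chk_spec chk_burn
    simp only [Bt.cps, List.cons_append, List.nil_append, List.nodup_cons, List.mem_cons,
      List.not_mem_nil, or_false, not_or] at hnd hmem
    obtain ⟨⟨n12, -⟩, ⟨n24, -⟩, ⟨n45, -⟩, n56, -⟩ := hnd
    have hok := burn_ok hγ hQ hrt c1 c2 c4 c5 nx α (hmem c1 (by simp))
      (hmem c2 (by simp)) (hmem c4 (by simp)) (hmem c5 (by simp))
      (hmem nx (by simp)) n12 n24 n45 n56
    have h3 := stmt_R3 G γ hγ 6 Walk.burnSys l hl (954 * K) (parL [α, c1.s, c2.s, 1, c4.s, c5.s,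
      nx.s, c1.r, c2.r, 1, c4.r, c5.r, nx.r, c1.g, c2.g, 1, c4.g, c5.g, nx.g])
      hn (fun o ho => hok o (hl2 o ho))
    rw [len_burn] at h3
    refine pair_count 4
      (fun ω z1 z2 => CF γ ((Bt.burn c1 c2 c4 c5).pws γ nx α z1 z2 ω)
        ((Bt.burn c1 c2 c4 c5).vws γ nx α z1 z2 ω))
      (fun ω => ¬ ((prs γ (Walk.burnSys.pw.map (ev γ (join 6 ω (parL [α, c1.s, c2.s, 1, c4.s,
        c5.s, nx.s, c1.r, c2.r, 1, c4.r, c5.r, nx.r, c1.g, c2.g, 1, c4.g, c5.g, nx.g]))) :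
        Multiset G)).Nodup ∧ (Walk.burnSys.vw.map (ev γ (join 6 ω (parL [α, c1.s, c2.s, 1, c4.s,
        c5.s, nx.s, c1.r, c2.r, 1, c4.r, c5.r, nx.r, c1.g, c2.g, 1, c4.g, c5.g,
        nx.g])))).Nodup))
      ?_ 330 K (954 * K) (by omega) ?_ S ?_ (by norm_num)
    · intro ω z1 z2
      simp only [CF, Bt.pws, Bt.vws, Bt.sys, Bt.par]
      rw [join_ext 4]
    · intro inst
      convert h3
    · intro z hz h
      apply hS z hz
      unfold Bt.Good
      exact h _

theorem stmt_STN : Stmt_STN := by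
  intro K
  refine ⟨954 * K, ?_⟩
  intro G _ _ _ k γ Q hγ hn hrt hQ f α hAd hnd hmem S hS
  classical
  obtain ⟨c1, c2, c5⟩ := f
  obtain ⟨l, hl, hl2⟩ := chk_spec chk_fin
  simp only [Fn.cps, List.nodup_cons, List.mem_cons, List.not_mem_nil, or_false, not_or]
    at hnd hmem
  obtain ⟨⟨n12, -⟩, n25, -⟩ := hnd
  have hok := fin_ok hγ hQ hrt c1 c2 c5 α hAd (hmem c1 (by simp))
    (hmem c2 (by simp)) (hmem c5 (by simp)) n12 n25
  have h3 := stmt_R3 G γ hγ 4 Walk.finSys l hl (954 * K) (parL [α, c1.s, c2.s, 1, 1, c5.s, 1,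
    c1.r, c2.r, 1, 1, c5.r, 1, c1.g, c2.g, 1, 1, c5.g, 1])
    hn (fun o ho => hok o (hl2 o ho))
  rw [len_fin] at h3
  refine pair_count 2
    (fun ω z1 z2 => CF γ ((Fn.mk c1 c2 c5).pws γ α z1 z2 ω) ((Fn.mk c1 c2 c5).vws γ α z1 z2 ω))
    (fun ω => ¬ ((prs γ (Walk.finSys.pw.map (ev γ (join 4 ω (parL [α, c1.s, c2.s, 1, 1, c5.s, 1,
      c1.r, c2.r, 1, 1, c5.r, 1, c1.g, c2.g, 1, 1, c5.g, 1]))) : Multiset G)).Nodup ∧
      (Walk.finSys.vw.map (ev γ (join 4 ω (parL [α, c1.s, c2.s, 1, 1, c5.s, 1,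
      c1.r, c2.r, 1, 1, c5.r, 1, c1.g, c2.g, 1, 1, c5.g, 1])))).Nodup))
    ?_ 115 K (954 * K) (by omega) ?_ S ?_ (by norm_num)
  · intro ω z1 z2
    simp only [CF, Fn.pws, Fn.vws, Fn.par]
    rw [join_ext 2]
  · intro inst
    convert h3
  · intro z hz h
    apply hS z hz
    unfold Fn.Good
    exact h _

end Pool.OM.h76
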