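import Pool.Agent.Work.MP_8d2cba_co_h18.Interface2
import Pool.Agent.Work.MP_8d2cba_co_h18.Basic
import Pool.Agent.Work.MP_8d2cba_co_helper76.ST

/-! MP_8d2cba_co, block EXEC: execution of a plan. -/

set_option autoImplicit false
set_option linter.unusedSectionVars false

namespace Pool.OM.h76

open Finset Pool.OM

section counts
variable {G : Type} [Group G] [Fintype G] [DecidableEq G]

theorem gp_mono {K K' k : ℕ} {γ : G} {Q : Finset (Cp G)} (h : GenPos K' k γ Q) (hK : K ≤ K') :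
    GenPos K k γ Q where
  k3 := h.k3
  w1 := h.w1
  w2 := h.w2
  w3 := h.w3
  r1 c hc c' hc' hne := (Nat.mul_le_mul_right _ hK).trans (h.r1 c hc c' hc' hne)
  r2 c hc c' hc' hne := (Nat.mul_le_mul_right _ hK).trans (h.r2 c hc c' hc' hne)
  i1 := h.i1
  i2 := h.i2
  i3 := h.i3
  i4 := h.i4
  i5 := h.i5

/-- values of a uniform word in a set -/
theorem x_card_word {γ : G} (hγ : γ * γ = 1) {f : ℕ} {w : Wd}
    (hw : Wd.lin f (Wd.red w) = true) (ρ : ℕ → G) (U : Finset G) :
    Fintype.card G * (univ.filter fun ω : Fin f → G => ev γ (join f ω ρ) w ∈ U).card ≤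
      U.card * Fintype.card G ^ f := by
  have h1 : (univ.filter fun ω : Fin f → G => ev γ (join f ω ρ) w ∈ U) ⊆
      U.biUnion fun c => univ.filter fun ω : Fin f → G => ev γ (join f ω ρ) w = c := by
    intro ω hω
    rw [mem_filter] at hω
    exact mem_biUnion.2 ⟨_, hω.2, mem_filter.2 ⟨mem_univ _, rfl⟩⟩
  calc Fintype.card G * (univ.filter fun ω : Fin f → G => ev γ (join f ω ρ) w ∈ U).card
      ≤ Fintype.card G * ∑ c ∈ U, (univ.filter fun ω : Fin f → G =>
          ev γ (join f ω ρ) w = c).card :=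
        Nat.mul_le_mul_left _ ((card_le_card h1).trans card_biUnion_le)
    _ = ∑ c ∈ U, Fintype.card G * (univ.filter fun ω : Fin f → G =>
          ev γ (join f ω ρ) w = c).card := Finset.mul_sum _ _ _
    _ = ∑ _c ∈ U, Fintype.card G ^ f := by
        refine Finset.sum_congr rfl fun c _ => ?_
        exact stmt_R2 G γ hγ f w hw ρ c
    _ = U.card * Fintype.card G ^ f := by rw [Finset.sum_const, smul_eq_mul]

/-- values of finitely many uniform words in a set -/
theorem x_card_words {γ : G} (hγ : γ * γ = 1) {f : ℕ} (L : List Wd)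
    (hL : ∀ w ∈ L, Wd.lin f (Wd.red w) = true) (ρ : ℕ → G) (U : Finset G) :
    Fintype.card G * (univ.filter fun ω : Fin f → G =>
      ∃ w ∈ L, ev γ (join f ω ρ) w ∈ U).card ≤ L.length * (U.card * Fintype.card G ^ f) := by
  induction L with
  | nil => simp
  | cons w L ih =>
    have h1 : (univ.filter fun ω : Fin f → G => ∃ w' ∈ w :: L, ev γ (join f ω ρ) w' ∈ U) ⊆
        (univ.filter fun ω : Fin f → G => ev γ (join f ω ρ) w ∈ U) ∪
          (univ.filter fun ω : Fin f → G => ∃ w' ∈ L, ev γ (join f ω ρ) w' ∈ U) := by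
      intro ω hω
      rw [mem_filter] at hω
      obtain ⟨w', hw', hu⟩ := hω.2
      rw [mem_union, mem_filter, mem_filter]
      rcases List.mem_cons.1 hw' with rfl | hw'
      · exact Or.inl ⟨mem_univ _, hu⟩
      · exact Or.inr ⟨mem_univ _, w', hw', hu⟩
    have h2 := ih fun w' hw' => hL w' (List.mem_cons_of_mem _ hw')
    have h3 := x_card_word hγ (hL w List.mem_cons_self) ρ U
    calc _ ≤ Fintype.card G * ((univ.filter fun ω : Fin f → G =>
            ev γ (join f ω ρ) w ∈ U).card + (univ.filter fun ω : Fin f → G =>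
              ∃ w' ∈ L, ev γ (join f ω ρ) w' ∈ U).card) :=
          Nat.mul_le_mul_left _ ((card_le_card h1).trans (card_union_le _ _))
      _ ≤ U.card * Fintype.card G ^ f + L.length * (U.card * Fintype.card G ^ f) := by
          rw [mul_add]
          exact add_le_add h3 h2
      _ = (w :: L).length * (U.card * Fintype.card G ^ f) := by
          rw [List.length_cons]
          ring

theorem x_le_prs (γ : G) (P : Multiset G) : P ≤ prs γ P := by
  induction P using Multiset.induction_on with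
  | empty => simp
  | cons a P ih =>
    rw [prs_cons, ← Multiset.singleton_add]
    refine add_le_add ?_ ih
    rw [pr, Multiset.insert_eq_cons, Multiset.singleton_le]
    exact Multiset.mem_cons_self _ _

open Classical in
theorem x_avail {γ : G} {K₁ : ℕ} {R P : Finset G} {S : Sys} {f m : ℕ}
    (hav : Avail γ K₁ R P (S.fam γ f m)) (L : List G) (hL : L.length ≤ m)
    (h : Fintype.card G ^ f ≤ 2 * (univ.filter fun ω : Fin f → G =>
      CF γ (S.pw.map (ev γ (join f ω (parL L))))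
        (S.vw.map (ev γ (join f ω (parL L))))).card) :
    Fintype.card G ^ f ≤ K₁ * (univ.filter fun ω : Fin f → G =>
      CF γ (S.pw.map (ev γ (join f ω (parL L)))) (S.vw.map (ev γ (join f ω (parL L)))) ∧
      (∀ c ∈ S.pw.map (ev γ (join f ω (parL L))), c ∈ P) ∧
      ∀ v ∈ S.vw.map (ev γ (join f ω (parL L))), v ∈ R).card := by
  have hc : Fintype.card (Fin f → G) = Fintype.card G ^ f := by simp
  have hpar : parL L = fun j => if h : j < m then (fun i : Fin m => parL L i) ⟨j, h⟩ else 1 := by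
    funext j
    by_cases hj : j < m
    · simp [hj]
    · simp only [hj, dif_neg, not_false_eq_true]
      unfold parL
      rw [List.getD_eq_getElem?_getD, List.getElem?_eq_none (by omega)]
      rfl
  rw [hpar] at h ⊢
  rw [← hc] at h ⊢
  have h1 := hav (fun i : Fin m => parL L i) (by
    refine h.trans (Nat.mul_le_mul_left _ (le_of_eq ?_))
    refine congrArg Finset.card ?_
    apply Finset.filter_congr_decidable)
  refine h1.trans (Nat.mul_le_mul_left _ (le_of_eq ?_))
  refine congrArg Finset.card ?_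
  apply Finset.filter_congr_decidable

/-- selection of a good choice -/
theorem x_pick {γ : G} (hγ : γ * γ = 1) {K₁ : ℕ} {R P : Finset G} {S : Sys} {f m : ℕ}
    (hav : Avail γ K₁ R P (S.fam γ f m)) (L : List G) (hL : L.length ≤ m)
    (hh : ∀ A : Finset (Fin f → G), (∀ ω, ω ∈ A ↔ CF γ (S.pw.map (ev γ (join f ω (parL L))))
        (S.vw.map (ev γ (join f ω (parL L))))) → Fintype.card G ^ f ≤ 2 * A.card)
    (hu : ∀ w ∈ S.vw, Wd.lin f (Wd.red w) = true) (hu' : ∀ w ∈ S.pw, Wd.lin f (Wd.red w) = true)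
    (hlv : S.vw.length ≤ 20) (hlp : S.pw.length ≤ 20) (U U' : Finset G)
    (hU : 160 * (K₁ + 1) * (U.card + U'.card) ≤ Fintype.card G)
    (B : Finset (Fin f → G)) (hB : 4 * (K₁ + 1) * B.card ≤ Fintype.card G ^ f) :
    ∃ ω : Fin f → G, ω ∉ B ∧ CF γ (S.pw.map (ev γ (join f ω (parL L))))
      (S.vw.map (ev γ (join f ω (parL L)))) ∧
      (∀ c ∈ S.pw.map (ev γ (join f ω (parL L))), c ∈ P ∧ c ∉ U') ∧
      ∀ v ∈ S.vw.map (ev γ (join f ω (parL L))), v ∈ R ∧ v ∉ U := by
  classical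
  obtain ⟨n, hndef⟩ : ∃ n, n = Fintype.card G := ⟨_, rfl⟩
  have hn0 : 0 < n := by rw [hndef]; exact Fintype.card_pos
  have h1 := x_avail hav L hL (hh _ (fun ω => by rw [mem_filter]; simp))
  obtain ⟨A, hAdef⟩ : ∃ A : Finset (Fin f → G), A = univ.filter fun ω : Fin f → G =>
      CF γ (S.pw.map (ev γ (join f ω (parL L)))) (S.vw.map (ev γ (join f ω (parL L)))) ∧
      (∀ c ∈ S.pw.map (ev γ (join f ω (parL L))), c ∈ P) ∧
      ∀ v ∈ S.vw.map (ev γ (join f ω (parL L))), v ∈ R := ⟨_, rfl⟩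
  rw [← hAdef] at h1
  obtain ⟨B1, hB1⟩ : ∃ B : Finset (Fin f → G), B = univ.filter fun ω : Fin f → G =>
      ∃ w ∈ S.vw, ev γ (join f ω (parL L)) w ∈ U := ⟨_, rfl⟩
  obtain ⟨B2, hB2⟩ : ∃ B : Finset (Fin f → G), B = univ.filter fun ω : Fin f → G =>
      ∃ w ∈ S.pw, ev γ (join f ω (parL L)) w ∈ U' := ⟨_, rfl⟩
  have k1 : Fintype.card G * B1.card ≤ 20 * (U.card * Fintype.card G ^ f) := by
    have := x_card_words hγ _ hu (parL L) U
    rw [← hB1] at this
    exact this.trans (Nat.mul_le_mul_right _ hlv)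
  have k2 : Fintype.card G * B2.card ≤ 20 * (U'.card * Fintype.card G ^ f) := by
    have := x_card_words hγ _ hu' (parL L) U'
    rw [← hB2] at this
    exact this.trans (Nat.mul_le_mul_right _ hlp)
  obtain ⟨ω, hωA, hω1, hω2, hω3⟩ : ∃ ω, ω ∈ A ∧ ω ∉ B1 ∧ ω ∉ B2 ∧ ω ∉ B := by
    by_contra hno
    push Not at hno
    have hsub : A ⊆ B1 ∪ (B2 ∪ B) := by
      intro ω hω
      rw [mem_union, mem_union]
      by_contra hcon
      push Not at hcon
      exact hcon.2.2 (hno ω hω hcon.1 hcon.2.1)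
    have hc' : A.card ≤ B1.card + (B2.card + B.card) :=
      (card_le_card hsub).trans ((card_union_le _ _).trans (add_le_add le_rfl (card_union_le _ _)))
    rw [← hndef] at k1 k2 h1 hB hU
    have hN : 0 < n ^ f := pow_pos hn0 f
    have e1 : 2 * (4 * (K₁ + 1)) * (B1.card + B2.card) ≤ n ^ f := by
      have h1 : n * (B1.card + B2.card) ≤ 20 * ((U.card + U'.card) * n ^ f) := by
        calc n * (B1.card + B2.card) = n * B1.card + n * B2.card := by ring
          _ ≤ 20 * (U.card * n ^ f) + 20 * (U'.card * n ^ f) := add_le_add k1 k2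
          _ = _ := by ring
      have h3 : n * (2 * (4 * (K₁ + 1)) * (B1.card + B2.card)) ≤ n * n ^ f := by
        calc n * (2 * (4 * (K₁ + 1)) * (B1.card + B2.card))
            = 2 * (4 * (K₁ + 1)) * (n * (B1.card + B2.card)) := by ring
          _ ≤ 2 * (4 * (K₁ + 1)) * (20 * ((U.card + U'.card) * n ^ f)) :=
              Nat.mul_le_mul_left _ h1
          _ = (160 * (K₁ + 1) * (U.card + U'.card)) * n ^ f := by ring
          _ ≤ n * n ^ f := Nat.mul_le_mul_right _ hU
      exact Nat.le_of_mul_le_mul_left h3 hn0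
    have e5 : 2 * (4 * (K₁ + 1)) * A.card ≤ 3 * n ^ f := by
      calc 2 * (4 * (K₁ + 1)) * A.card
          ≤ 2 * (4 * (K₁ + 1)) * (B1.card + (B2.card + B.card)) :=
            Nat.mul_le_mul_left _ hc'
        _ = 2 * (4 * (K₁ + 1)) * (B1.card + B2.card) + 2 * (4 * (K₁ + 1) * B.card) := by ring
        _ ≤ n ^ f + 2 * n ^ f := add_le_add e1 (Nat.mul_le_mul_left _ hB)
        _ = 3 * n ^ f := by ring
    nlinarith
  have hmem := (mem_filter.1 (hAdef ▸ hωA)).2
  refine ⟨ω, hω3, hmem.1, fun c hc => ⟨hmem.2.1 c hc, fun hcu => ?_⟩,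
    fun v hv => ⟨hmem.2.2 v hv, fun hvu => ?_⟩⟩
  · obtain ⟨w, hw, rfl⟩ := List.mem_map.1 hc
    exact hω2 (by rw [hB2, mem_filter]; exact ⟨mem_univ _, w, hw, hcu⟩)
  · obtain ⟨w, hw, rfl⟩ := List.mem_map.1 hv
    exact hω1 (by rw [hB1, mem_filter]; exact ⟨mem_univ _, w, hw, hvu⟩)

/-- choices with an exceptional pair of coordinates -/
theorem x_bad2 (M : ℕ) (p : G → G → Prop) (B : Finset (Fin 4 → G))
    (hB : ∀ ω, ω ∈ B → p (ω 2) (ω 3))
    (hp : ∀ S : Finset (G × G), (∀ z ∈ S, p z.1 z.2) → M * S.card ≤ Fintype.card G ^ 2) :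
    M * B.card ≤ Fintype.card G ^ 4 := by
  classical
  have h1 : B.card = ∑ q : G × G, (B.filter fun ω => (ω 0, ω 1) = q).card :=
    Finset.card_eq_sum_card_fiberwise (f := fun ω : Fin 4 → G => (ω 0, ω 1))
      (t := univ) fun _ _ => mem_univ _
  have h2 : ∀ q : G × G, M * (B.filter fun ω => (ω 0, ω 1) = q).card ≤ Fintype.card G ^ 2 := by
    intro q
    have h3 : ((B.filter fun ω => (ω 0, ω 1) = q).image fun ω => (ω 2, ω 3)).card =
        (B.filter fun ω => (ω 0, ω 1) = q).card := by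
      apply Finset.card_image_of_injOn
      intro ω hω ω' hω' h
      simp only [coe_filter, Set.mem_ofPred_eq] at hω hω'
      have h3 := hω.2.trans hω'.2.symm
      simp only [Prod.mk.injEq] at h3 h
      funext i
      fin_cases i
      · exact h3.1
      · exact h3.2
      · exact h.1
      · exact h.2
    rw [← h3]
    apply hp
    intro z hz
    obtain ⟨ω, hω, rfl⟩ := mem_image.1 hz
    exact hB ω (mem_filter.1 hω).1
  rw [h1, Finset.mul_sum]
  calc ∑ q : G × G, M * (B.filter fun ω => (ω 0, ω 1) = q).card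
      ≤ ∑ _q : G × G, Fintype.card G ^ 2 := Finset.sum_le_sum fun q _ => h2 q
    _ = Fintype.card G ^ 4 := by
        rw [Finset.sum_const, Finset.card_univ, Fintype.card_prod, smul_eq_mul]
        ring

end counts

section exec
variable {G : Type} [Group G] [Fintype G] [DecidableEq G]

theorem fa_mono {K K' : ℕ} {γ : G} {c2 c3 c4 : Cp G} {d1 d2 : G} (h : FeedAd K' γ c2 c3 c4 d1 d2)
    (hK : K ≤ K') : FeedAd K γ c2 c3 c4 d1 d2 where
  e1 := h.e1
  e2 := h.e2
  e3 := h.e3
  a1 := (Nat.mul_le_mul_right _ hK).trans h.a1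
  a2 := (Nat.mul_le_mul_right _ hK).trans h.a2
  a3 := (Nat.mul_le_mul_right _ hK).trans h.a3
  a4 := (Nat.mul_le_mul_right _ hK).trans h.a4
  a5 := (Nat.mul_le_mul_right _ hK).trans h.a5
  a6 := (Nat.mul_le_mul_right _ hK).trans h.a6
  b1 := (Nat.mul_le_mul_right _ hK).trans h.b1
  b2 := (Nat.mul_le_mul_right _ hK).trans h.b2
  b3 := (Nat.mul_le_mul_right _ hK).trans h.b3
  b4 := (Nat.mul_le_mul_right _ hK).trans h.b4
  b5 := (Nat.mul_le_mul_right _ hK).trans h.b5
  b6 := (Nat.mul_le_mul_right _ hK).trans h.b6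
  b7 := (Nat.mul_le_mul_right _ hK).trans h.b7
  b8 := (Nat.mul_le_mul_right _ hK).trans h.b8
  b9 := (Nat.mul_le_mul_right _ hK).trans h.b9
  b10 := (Nat.mul_le_mul_right _ hK).trans h.b10
  b11 := (Nat.mul_le_mul_right _ hK).trans h.b11
  b12 := (Nat.mul_le_mul_right _ hK).trans h.b12

theorem fi_mono {K K' : ℕ} {γ : G} {c : Cp G} {α : G} (h : FinAd K' γ c α)
    (hK : K ≤ K') : FinAd K γ c α where
  e1 := h.e1
  a1 := (Nat.mul_le_mul_right _ hK).trans h.a1
  b1 := (Nat.mul_le_mul_right _ hK).trans h.b1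

theorem ad_mono {K K' : ℕ} {γ : G} {b : Bt G} (h : b.Ad K' γ) (hK : K ≤ K') : b.Ad K γ := by
  cases b with
  | feed c1 c2 c3 c4 c5 d1 d2 => exact fa_mono h hK
  | burn c1 c2 c4 c5 => trivial

theorem planCps_cons (f : Fn G) (b : Bt G) (bs : List (Bt G)) :
    planCps f (b :: bs) = b.cps ++ planCps f bs := by
  simp [planCps, List.flatMap_cons]

theorem planCps_hd (f : Fn G) (bs : List (Bt G)) :
    ∃ rest, planCps f bs = planHd f bs :: rest := by
  cases bs with
  | nil => exact ⟨[f.c2, f.c5], rfl⟩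
  | cons b bs =>
    rw [planCps_cons]
    cases b with
    | feed c1 c2 c3 c4 c5 d1 d2 => exact ⟨[c2, c3, c4, c5] ++ planCps f bs, rfl⟩
    | burn c1 c2 c4 c5 => exact ⟨[c2, c4, c5] ++ planCps f bs, rfl⟩

theorem cps_len (b : Bt G) : 4 ≤ b.cps.length := by
  cases b <;> simp [Bt.cps]

theorem x_pick_b {γ : G} (hγ : γ * γ = 1) {K₁ : ℕ} {R P : Finset G}
    (hav : ∀ F ∈ covFams γ, Avail γ K₁ R P F) (b : Bt G) (nx : Cp G) (α z1 z2 : G)
    (hg : b.Good γ nx α z1 z2) (U U' : Finset G)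
    (hU : 160 * (K₁ + 1) * (U.card + U'.card) ≤ Fintype.card G)
    (B : Finset (Fin 4 → G)) (hB : 4 * (K₁ + 1) * B.card ≤ Fintype.card G ^ 4) :
    ∃ ω : Fin 4 → G, ω ∉ B ∧ CF γ (b.pws γ nx α z1 z2 ω) (b.vws γ nx α z1 z2 ω) ∧
      (∀ c ∈ b.pws γ nx α z1 z2 ω, c ∈ P ∧ c ∉ U') ∧
      (∀ v ∈ b.vws γ nx α z1 z2 ω, v ∈ R ∧ v ∉ U) ∧
      (b.vws γ nx α z1 z2 ω).length ≤ 20 ∧ (b.pws γ nx α z1 z2 ω).length ≤ 20 := by
  classical
  have key : ∀ A : Finset (Fin 4 → G), (∀ ω, ω ∈ A ↔ CF γ (b.pws γ nx α z1 z2 ω)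
      (b.vws γ nx α z1 z2 ω)) → Fintype.card G ^ 4 ≤ 2 * A.card := by
    intro A hA
    refine hg.trans (Nat.mul_le_mul_left _ (le_of_eq ?_))
    congr 1
    ext ω
    rw [mem_filter, hA]
    simp
  cases b with
  | feed c1 c2 c3 c4 c5 d1 d2 =>
    obtain ⟨ω, h1, h2, h3, h4⟩ := x_pick (m := 23) hγ
      (hav (Walk.feedSys.fam γ 4 23) (by simp [covFams]))
      ((Bt.feed c1 c2 c3 c4 c5 d1 d2).par nx α z1 z2) (by simp [Bt.par]) key
      (by decide +kernel) (by decide +kernel) (by decide +kernel) (by decide +kernel) U U' hU B hB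
    refine ⟨ω, h1, h2, h3, h4, ?_, ?_⟩
    · unfold Bt.vws
      rw [List.length_map]
      change Walk.feedSys.vw.length ≤ 20
      decide +kernel
    · unfold Bt.pws
      rw [List.length_map]
      change Walk.feedSys.pw.length ≤ 20
      decide +kernel
  | burn c1 c2 c4 c5 =>
    obtain ⟨ω, h1, h2, h3, h4⟩ := x_pick (m := 21) hγ
      (hav (Walk.burnSys.fam γ 4 21) (by simp [covFams]))
      ((Bt.burn c1 c2 c4 c5).par nx α z1 z2) (by simp [Bt.par]) key
      (by decide +kernel) (by decide +kernel) (by decide +kernel) (by decide +kernel) U U' hU B hB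
    refine ⟨ω, h1, h2, h3, h4, ?_, ?_⟩
    · unfold Bt.vws
      rw [List.length_map]
      change Walk.burnSys.vw.length ≤ 20
      decide +kernel
    · unfold Bt.pws
      rw [List.length_map]
      change Walk.burnSys.pw.length ≤ 20
      decide +kernel

theorem exec_aux {γ : G} (hγ : γ * γ = 1) {K₁ KS : ℕ} {R P : Finset G} {Q : Finset (Cp G)}
    (hav : ∀ F ∈ covFams γ, Avail γ K₁ R P F)
    (hSB : ∀ (b : Bt G) (nx : Cp G), b.Ad KS γ → (b.cps ++ [nx]).Nodup →
      (∀ c ∈ b.cps ++ [nx], c ∈ Q) → ∀ α : G, ∀ S : Finset (G × G),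
      (∀ z ∈ S, ¬ b.Good γ nx α z.1 z.2) → 4 * (K₁ + 1) * S.card ≤ Fintype.card G ^ 2)
    (hSN : ∀ (f : Fn G) (α : G), FinAd KS γ f.c5 α → f.cps.Nodup → (∀ c ∈ f.cps, c ∈ Q) →
      ∀ S : Finset (G × G), (∀ z ∈ S, ¬ f.Good γ α z.1 z.2) →
      4 * (K₁ + 1) * S.card ≤ Fintype.card G ^ 2) (f : Fn G) :
    ∀ (bs : List (Bt G)) (α z1 z2 : G) (U U' : Finset G),
    (planCps f bs).Nodup → (∀ c ∈ planCps f bs, c ∈ Q) → (∀ b ∈ bs, b.Ad KS γ) →
    FinAd KS γ f.c5 (α * planD bs) →
    160 * (K₁ + 1) * (U.card + U'.card + 10 * (planCps f bs).length) ≤ Fintype.card G →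
    planGood γ f α z1 z2 bs →
    ∃ W W' : Finset G, W ⊆ R \ U ∧ W' ⊆ P \ U' ∧
    MS (((planCps f bs).map (Cp.idx γ)).sum)
      (((planHd f bs).t * (α * z1 * z2)⁻¹) ::ₘ (f.c5.r * (γ * (α * planD bs)⁻¹)) ::ₘ W.val)
      ({α * z1 * z2, z2⁻¹ * γ, γ * z1⁻¹} + {γ * (α * planD bs)⁻¹} + planFed bs +
        prs γ W'.val) := by
  classical
  intro bs
  induction bs with
  | nil =>
    intro α z1 z2 U U' hnd hQ had hfin hU hg
    have key : ∀ A : Finset (Fin 2 → G), (∀ ω, ω ∈ A ↔ CF γ (f.pws γ α z1 z2 ω)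
        (f.vws γ α z1 z2 ω)) → Fintype.card G ^ 2 ≤ 2 * A.card := by
      intro A hA
      have hg' : f.Good γ α z1 z2 := hg
      refine hg'.trans (Nat.mul_le_mul_left _ (le_of_eq ?_))
      congr 1
      ext ω
      rw [mem_filter, hA]
      simp
    obtain ⟨ω, -, h2, h3, h4⟩ := x_pick (m := 21) hγ
      (hav (Walk.finSys.fam γ 2 21) (by simp [covFams]))
      (f.par α z1 z2) (by simp [Fn.par]) key
      (by decide +kernel) (by decide +kernel) (by decide +kernel) (by decide +kernel) U U'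
      ((Nat.mul_le_mul_left _ (by omega)).trans hU) ∅ (by simp)
    refine ⟨⟨(f.vws γ α z1 z2 ω : List G), h2.2⟩, ⟨(f.pws γ α z1 z2 ω : List G),
      Multiset.nodup_of_le (x_le_prs γ _) h2.1⟩, ?_, ?_, ?_⟩
    · intro v hv
      rw [mem_sdiff]
      exact h4 v hv
    · intro v hv
      rw [mem_sdiff]
      exact h3 v hv
    · have h5 := stmt_MSN G γ hγ f α z1 z2 ω
      simpa [planCps, planHd, planD, planFed] using h5
  | cons b bs ih =>
    intro α z1 z2 U U' hnd hQ had hfin hU hg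
    rw [planCps_cons] at hnd hQ hU
    have hnd2 := (List.nodup_append.1 hnd).2.1
    have hQ2 : ∀ c ∈ planCps f bs, c ∈ Q := fun c hc => hQ c (List.mem_append_right _ hc)
    have hD : planD (b :: bs) = b.D * planD bs := by simp [planD]
    have hF : planFed (b :: bs) = b.fed + planFed bs := by simp [planFed]
    obtain ⟨B, hBdef⟩ : ∃ B : Finset (Fin 4 → G), B = univ.filter fun ω : Fin 4 → G =>
      ¬ planGood γ f (α * b.D) (ω 2) (ω 3) bs := ⟨_, rfl⟩
    have hB : 4 * (K₁ + 1) * B.card ≤ Fintype.card G ^ 4 := by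
      apply x_bad2 (4 * (K₁ + 1)) (fun z1 z2 => ¬ planGood γ f (α * b.D) z1 z2 bs)
      · intro ω hω
        rw [hBdef, mem_filter] at hω
        exact hω.2
      · intro S hS
        cases bs with
        | nil =>
          apply hSN f (α * b.D) (by simpa [hD, planD] using hfin) hnd2 hQ2 S hS
        | cons b' bs' =>
          rw [planCps_cons] at hnd2 hQ2
          obtain ⟨rest, hrest⟩ := planCps_hd f bs'
          rw [hrest] at hnd2 hQ2
          have e1 : b'.cps ++ planHd f bs' :: rest = (b'.cps ++ [planHd f bs']) ++ rest := by simp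
          rw [e1] at hnd2 hQ2
          exact hSB b' (planHd f bs') (had b' (by simp)) (List.nodup_append.1 hnd2).1
            (fun c hc => hQ2 c (List.mem_append_left _ hc)) (α * b.D) S hS
    have hg' : b.Good γ (planHd f bs) α z1 z2 := hg
    obtain ⟨ω, h1, h2, h3, h4, h5, h6⟩ := x_pick_b hγ hav b (planHd f bs) α z1 z2 hg' U U'
      ((Nat.mul_le_mul_left _ (by omega)).trans hU) B hB
    obtain ⟨W1, hW1⟩ : ∃ W1 : Finset G, W1 = ⟨(b.vws γ (planHd f bs) α z1 z2 ω : List G), h2.2⟩ :=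
      ⟨_, rfl⟩
    obtain ⟨W2, hW2⟩ : ∃ W2 : Finset G, W2 = ⟨(b.pws γ (planHd f bs) α z1 z2 ω : List G),
      Multiset.nodup_of_le (x_le_prs γ _) h2.1⟩ := ⟨_, rfl⟩
    have hW1c : W1.card ≤ 20 := by rw [hW1]; exact h5
    have hW2c : W2.card ≤ 20 := by rw [hW2]; exact h6
    have hgood : planGood γ f (α * b.D) (ω 2) (ω 3) bs := by
      by_contra hcon
      exact h1 (by rw [hBdef, mem_filter]; exact ⟨mem_univ _, hcon⟩)
    obtain ⟨V1, V2, hV1, hV2, hMS⟩ := ih (α * b.D) (ω 2) (ω 3) (U ∪ W1) (U' ∪ W2) hnd2 hQ2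
      (fun b' hb' => had b' (List.mem_cons_of_mem _ hb'))
      (by rw [hD, ← mul_assoc] at hfin; exact hfin)
      (by
        refine (Nat.mul_le_mul_left _ ?_).trans hU
        have e1 := card_union_le U W1
        have e2 := card_union_le U' W2
        have e3 := cps_len b
        rw [List.length_append]
        omega)
      hgood
    obtain ⟨V, C, e1, e2, e3⟩ := stmt_MSB G γ hγ b (planHd f bs) α z1 z2 ω
    have hd1 : Disjoint W1 V1 := by
      rw [Finset.disjoint_left]
      intro v hv hv1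
      exact (mem_sdiff.1 (hV1 hv1)).2 (mem_union_right _ hv)
    have hd2 : Disjoint W2 V2 := by
      rw [Finset.disjoint_left]
      intro v hv hv1
      exact (mem_sdiff.1 (hV2 hv1)).2 (mem_union_right _ hv)
    refine ⟨W1.disjUnion V1 hd1, W2.disjUnion V2 hd2, ?_, ?_, ?_⟩
    · intro v hv
      rw [mem_disjUnion] at hv
      rw [mem_sdiff]
      rcases hv with hv | hv
      · rw [hW1] at hv
        exact h4 v hv
      · have := mem_sdiff.1 (hV1 hv)
        exact ⟨this.1, fun h => this.2 (mem_union_left _ h)⟩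
    · intro v hv
      rw [mem_disjUnion] at hv
      rw [mem_sdiff]
      rcases hv with hv | hv
      · rw [hW2] at hv
        exact h3 v hv
      · have := mem_sdiff.1 (hV2 hv)
        exact ⟨this.1, fun h => this.2 (mem_union_left _ h)⟩
    · have h7 := e2.add hMS
      have v1 : (W1.disjUnion V1 hd1).val = V + {(planHd f bs).t * (α * b.D * ω 2 * ω 3)⁻¹} +
          V1.val := by
        have hv : W1.val = ((b.vws γ (planHd f bs) α z1 z2 ω : List G) : Multiset G) := by
          rw [hW1]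
        change W1.val + V1.val = _
        rw [hv, e1]
      have v2 : (W2.disjUnion V2 hd2).val =
          ((b.pws γ (planHd f bs) α z1 z2 ω : List G) : Multiset G) + V2.val := by
        have hv : W2.val = ((b.pws γ (planHd f bs) α z1 z2 ω : List G) : Multiset G) := by
          rw [hW2]
        change W2.val + V2.val = _
        rw [hv]
      have j1 : ((planCps f (b :: bs)).map (Cp.idx γ)).sum =
          (b.cps.map (Cp.idx γ)).sum + ((planCps f bs).map (Cp.idx γ)).sum := by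
        rw [planCps_cons, List.map_append, List.sum_append]
      rw [j1, v1, v2, hD, hF, prs_add, ← mul_assoc α]
      have w1 : (planHd f (b :: bs)).t * (α * z1 * z2)⁻¹ ::ₘ
          f.c5.r * (γ * (α * b.D * planD bs)⁻¹) ::ₘ
            (V + {(planHd f bs).t * (α * b.D * ω 2 * ω 3)⁻¹} + V1.val) =
          (b.hd.t * (α * z1 * z2)⁻¹) ::ₘ V + (planHd f bs).t * (α * b.D * ω 2 * ω 3)⁻¹ ::ₘ
            f.c5.r * (γ * (α * b.D * planD bs)⁻¹) ::ₘ V1.val := by
        simp only [planHd, ← Multiset.singleton_add]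
        abel
      have w2 : ({α * z1 * z2, z2⁻¹ * γ, γ * z1⁻¹} + {γ * (α * b.D * planD bs)⁻¹} +
          (b.fed + planFed bs) +
            (prs γ ((b.pws γ (planHd f bs) α z1 z2 ω : List G) : Multiset G) + prs γ V2.val)) =
          C + ({α * b.D * ω 2 * ω 3, (ω 3)⁻¹ * γ, γ * (ω 2)⁻¹} + {γ * (α * b.D * planD bs)⁻¹} +
            planFed bs + prs γ V2.val) := by
        rw [show C + ({α * b.D * ω 2 * ω 3, (ω 3)⁻¹ * γ, γ * (ω 2)⁻¹} +
            {γ * (α * b.D * planD bs)⁻¹} + planFed bs + prs γ V2.val) =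
          (C + {α * b.D * ω 2 * ω 3, (ω 3)⁻¹ * γ, γ * (ω 2)⁻¹}) +
            {γ * (α * b.D * planD bs)⁻¹} + planFed bs + prs γ V2.val by abel, e3]
        abel
      rw [w1, w2]
      exact h7

end exec

/-- EXEC -/
theorem stmt_EXEC : Stmt_EXEC := by
  intro K₁
  obtain ⟨KB, hB⟩ := stmt_STB (4 * (K₁ + 1))
  obtain ⟨KN, hN⟩ := stmt_STN (4 * (K₁ + 1))
  refine ⟨KB + KN + 1600 * (K₁ + 1), ?_⟩
  intro G _ _ _ k γ R P Q hγ hn hrt hP hav hGP f bs α z1 z2 U U' hnd hQ had hfin hU hg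
  refine exec_aux hγ (K₁ := K₁) (KS := KB + KN) hav ?_ ?_ f bs α z1 z2 U U' hnd hQ
    (fun b hb => ad_mono (had b hb) (by omega)) (fi_mono hfin (by omega)) ?_ hg
  · intro b nx h1 h2 h3 α S hS
    exact hB G k γ Q hγ (by omega) ((Nat.mul_le_mul_right _ (by omega)).trans hrt)
      (gp_mono hGP (by omega)) b nx (ad_mono h1 (by omega)) h2 h3 α S hS
  · intro f α h1 h2 h3 S hS
    exact hN G k γ Q hγ (by omega) ((Nat.mul_le_mul_right _ (by omega)).trans hrt)
      (gp_mono hGP (by omega)) f α (fi_mono h1 (by omega)) h2 h3 S hS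
  · refine le_trans ?_ hU
    calc 160 * (K₁ + 1) * (U.card + U'.card + 10 * (planCps f bs).length)
        ≤ 160 * (K₁ + 1) * (10 * (U.card + U'.card + (planCps f bs).length)) :=
          Nat.mul_le_mul_left _ (by omega)
      _ = 1600 * (K₁ + 1) * (U.card + U'.card + (planCps f bs).length) := by ring
      _ ≤ _ := Nat.mul_le_mul_right _ (Nat.le_add_left _ _)

end Pool.OM.h76
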