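import Pool.Agent.Work.MP_8d2cba_co_helper76.CLOSE

/-! MP_8d2cba_co: CLOSE for families indexed by any finite type, and the construction of fresh
gadgets from sources, sinks, inner vertices and colours. -/

set_option autoImplicit false

namespace Pool.OM.h76

open Finset Pool.OM

section close2
variable {G : Type} [Group G] [Fintype G] [DecidableEq G]

theorem card_bind_le' {ι : Type} [Fintype ι] (I : Finset ι) (F : ι → Multiset G) (c : ℕ)
    (h : ∀ i, (F i).card ≤ c) : (I.val.bind F).toFinset.card ≤ c * Fintype.card ι := by
  refine (Multiset.toFinset_card_le _).trans ?_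
  rw [Multiset.card_bind]
  calc (I.val.map (Multiset.card ∘ F)).sum = ∑ i ∈ I, (F i).card := rfl
    _ ≤ ∑ i ∈ I, c := Finset.sum_le_sum fun i _ => h i
    _ = I.card * c := by rw [Finset.sum_const, smul_eq_mul]
    _ ≤ Fintype.card ι * c := Nat.mul_le_mul_right _ (Finset.card_le_univ I)
    _ = c * Fintype.card ι := Nat.mul_comm _ _

theorem close_all' {ι : Type} [Fintype ι] [DecidableEq ι] (k : ℕ) (hk : 4 ≤ k) (hdvd : k ∣ Fintype.card G - 1) (FV FC : Finset G)
    (s y : ι → G)
    (h : 40 * (FV.card + FC.card + Fintype.card ι + 1) ≤ Fintype.card G) (I : Finset ι) :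
    ∃ t τ : ι → G, (I.val.bind fun i => cV k (t i) (τ i)).Nodup ∧
      (∀ i ∈ I, t i ∉ FV ∧ τ i ∉ FV) ∧
      (I.val.bind fun i => cC k (s i) (y i) (t i) (τ i)).Nodup ∧
      ∀ i ∈ I, ∀ c ∈ cC k (s i) (y i) (t i) (τ i), c ∉ FC ∧ c ≠ 1 := by
  classical
  induction I using Finset.induction_on with
  | empty => exact ⟨fun _ => 1, fun _ => 1, by simp⟩
  | insert a I ha ih =>
    obtain ⟨t, τ, i1, i2, i3, i4⟩ := ih
    set PV := (I.val.bind fun i => cV k (t i) (τ i)).toFinset with hPV
    set PC := (I.val.bind fun i => cC k (s i) (y i) (t i) (τ i)).toFinset with hPC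
    have b1 : PV.card ≤ 2 * Fintype.card ι := card_bind_le' I _ 2 fun i => cV_card k _ _
    have b2 : PC.card ≤ 3 * Fintype.card ι := card_bind_le' I _ 3 fun i => cC_card k _ _ _ _
    have b3 := Finset.card_union_le FV PV
    have b4 := Finset.card_union_le FC PC
    obtain ⟨t0, τ0, j1, j2, j3, j4⟩ := close_step k hk hdvd (FV ∪ PV) (FC ∪ PC) (by omega)
      (s a) (y a)
    have hne : ∀ i ∈ I, i ≠ a := fun i hi e => ha (e ▸ hi)
    refine ⟨Function.update t a t0, Function.update τ a τ0, ?_, ?_, ?_, ?_⟩
    · rw [Finset.insert_val_of_notMem ha, Multiset.cons_bind]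
      simp only [Function.update_self]
      have : (I.val.bind fun i => cV k (Function.update t a t0 i) (Function.update τ a τ0 i)) =
          I.val.bind fun i => cV k (t i) (τ i) := by
        apply Multiset.bind_congr
        intro i hi
        rw [Function.update_of_ne (hne i hi), Function.update_of_ne (hne i hi)]
      rw [this, Multiset.nodup_add]
      refine ⟨j1, i1, ?_⟩
      rw [Multiset.disjoint_left]
      intro x hx hx'
      have hx2 : x ∈ PV := by rw [hPV, Multiset.mem_toFinset]; exact hx'
      rcases mem_cV k _ _ _ hx with rfl | rfl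
      · exact j2.1 (Finset.mem_union_right _ hx2)
      · exact j2.2 (Finset.mem_union_right _ hx2)
    · intro i hi
      rcases Finset.mem_insert.1 hi with rfl | hi
      · simp only [Function.update_self]
        exact ⟨fun hc => j2.1 (Finset.mem_union_left _ hc),
          fun hc => j2.2 (Finset.mem_union_left _ hc)⟩
      · rw [Function.update_of_ne (hne i hi), Function.update_of_ne (hne i hi)]
        exact i2 i hi
    · rw [Finset.insert_val_of_notMem ha, Multiset.cons_bind]
      simp only [Function.update_self]
      have : (I.val.bind fun i => cC k (s i) (y i) (Function.update t a t0 i)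
          (Function.update τ a τ0 i)) =
          I.val.bind fun i => cC k (s i) (y i) (t i) (τ i) := by
        apply Multiset.bind_congr
        intro i hi
        rw [Function.update_of_ne (hne i hi), Function.update_of_ne (hne i hi)]
      rw [this, Multiset.nodup_add]
      refine ⟨j3, i3, ?_⟩
      rw [Multiset.disjoint_left]
      intro x hx hx'
      have hx2 : x ∈ PC := by rw [hPC, Multiset.mem_toFinset]; exact hx'
      exact (j4 x hx).1 (Finset.mem_union_right _ hx2)
    · intro i hi c hc
      rcases Finset.mem_insert.1 hi with rfl | hi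
      · simp only [Function.update_self] at hc
        exact ⟨fun h' => (j4 c hc).1 (Finset.mem_union_left _ h'), (j4 c hc).2⟩
      · rw [Function.update_of_ne (hne i hi), Function.update_of_ne (hne i hi)] at hc
        exact i4 i hi c hc


/-- **Closing lemma.** Special indices with sources `s x` and last inner vertices (sinks) `y x`,
base vertices `BV` (inner vertices) and base colours `BC` (without the last arcs `y → t`) can be
completed to a fresh gadget. -/
theorem fresh_close {ι : Type} [Fintype ι] [DecidableEq ι] (k : ℕ) (hk : 3 ≤ k)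
    (hdvd : k ∣ Fintype.card G - 1) (FV FC : Finset G) (s y : ι → G) (BV BC : Multiset G)
    (hsize : 40 * (FV.card + FC.card + BV.card + BC.card + 2 * Fintype.card ι + 1) ≤
      Fintype.card G)
    (hV : (BV + (univ : Finset ι).val.map s).Nodup)
    (hVf : ∀ x ∈ BV + (univ : Finset ι).val.map s, x ∉ FV)
    (hC : (BC + if k = 3 then (univ : Finset ι).val.map fun i => (y i)⁻¹ * s i else 0).Nodup)
    (hCf : ∀ c ∈ BC + if k = 3 then (univ : Finset ι).val.map fun i => (y i)⁻¹ * s i else 0,
      c ∉ FC ∧ c ≠ 1) :
    ∃ t τ : ι → G, (k = 3 → t = s) ∧ Fresh k FV FC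
      ⟨(univ : Finset ι).val.map fun i => (s i, t i, τ i), BV,
        BC + (univ : Finset ι).val.map fun i => (y i)⁻¹ * t i⟩ := by
  rcases Nat.lt_or_ge 3 k with hk3 | hk3
  · have h3 : k ≠ 3 := by omega
    simp only [h3, if_false, add_zero] at hC hCf
    set F1 := FV ∪ (BV + (univ : Finset ι).val.map s).toFinset with hF1
    set F2 := FC ∪ BC.toFinset with hF2
    have b1 : (BV + (univ : Finset ι).val.map s).toFinset.card ≤ BV.card + Fintype.card ι := by
      refine (Multiset.toFinset_card_le _).trans ?_
      simp
    have b2 : BC.toFinset.card ≤ BC.card := Multiset.toFinset_card_le _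
    have b3 : F1.card ≤ FV.card + (BV + (univ : Finset ι).val.map s).toFinset.card :=
      Finset.card_union_le _ _
    have b4 : F2.card ≤ FC.card + BC.toFinset.card := Finset.card_union_le _ _
    obtain ⟨t, τ, h1, h2, h4, h5⟩ := close_all' k (by omega) hdvd F1 F2 s y (by omega) univ
    refine ⟨t, τ, fun h => absurd h h3, ?_⟩
    have hjl : ∀ x : ι, jl k (s x, t x, τ x) = {s x} + cV k (t x) (τ x) := by
      intro x
      unfold jl cV
      by_cases h5 : k = 5
      · simp only [h5, if_true, Nat.reduceEqDiff, if_false]
        rw [Multiset.singleton_add]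
        rfl
      · simp only [h5, h3, if_false]
        rw [Multiset.singleton_add]
        rfl
    have hverts : (⟨(univ : Finset ι).val.map fun i => (s i, t i, τ i), BV,
        BC + (univ : Finset ι).val.map fun i => (y i)⁻¹ * t i⟩ : Gad G).verts k =
        (BV + (univ : Finset ι).val.map s) +
          (univ : Finset ι).val.bind fun i => cV k (t i) (τ i) := by
      simp only [Gad.verts, Multiset.bind_map]
      rw [Multiset.bind_congr (fun x _ => hjl x), Multiset.bind_add, Multiset.bind_singleton,
        add_assoc]
    have hcols : (⟨(univ : Finset ι).val.map fun i => (s i, t i, τ i), BV,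
        BC + (univ : Finset ι).val.map fun i => (y i)⁻¹ * t i⟩ : Gad G).cols k =
        BC + (univ : Finset ι).val.bind fun i => cC k (s i) (y i) (t i) (τ i) := by
      simp only [Gad.cols, Multiset.bind_map, cC]
      have : ∀ i : ι, ((y i)⁻¹ * t i) ::ₘ tl k (s i, t i, τ i) =
          {(y i)⁻¹ * t i} + tl k (s i, t i, τ i) := fun i => (Multiset.singleton_add _ _).symm
      rw [Multiset.bind_congr (fun x _ => this x), Multiset.bind_add, Multiset.bind_singleton,
        add_assoc]
    refine ⟨fun h => absurd h h3, ?_, ?_, ?_, ?_, ?_⟩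
    · rw [hverts, Multiset.nodup_add]
      refine ⟨hV, h1, ?_⟩
      rw [Multiset.disjoint_right]
      intro x hx hx'
      rw [Multiset.mem_bind] at hx
      obtain ⟨i, hi, hx⟩ := hx
      have h6 : x ∉ F1 := by
        rcases mem_cV k _ _ _ hx with rfl | rfl
        · exact (h2 i (mem_univ _)).1
        · exact (h2 i (mem_univ _)).2
      exact h6 (Finset.mem_union_right _ (Multiset.mem_toFinset.2 hx'))
    · intro x hx
      rw [hverts, Multiset.mem_add] at hx
      rcases hx with hx | hx
      · exact hVf x hx
      · rw [Multiset.mem_bind] at hx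
        obtain ⟨i, hi, hx⟩ := hx
        have h6 : x ∉ F1 := by
          rcases mem_cV k _ _ _ hx with rfl | rfl
          · exact (h2 i (mem_univ _)).1
          · exact (h2 i (mem_univ _)).2
        exact fun h => h6 (Finset.mem_union_left _ h)
    · rw [hcols, Multiset.nodup_add]
      refine ⟨hC, h4, ?_⟩
      rw [Multiset.disjoint_right]
      intro x hx hx'
      rw [Multiset.mem_bind] at hx
      obtain ⟨i, hi, hx⟩ := hx
      exact (h5 i (mem_univ _) x hx).1 (Finset.mem_union_right _ (Multiset.mem_toFinset.2 hx'))
    · intro c hc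
      rw [hcols, Multiset.mem_add] at hc
      rcases hc with hc | hc
      · exact (hCf c hc).1
      · rw [Multiset.mem_bind] at hc
        obtain ⟨i, hi, hc⟩ := hc
        exact fun h => (h5 i (mem_univ _) c hc).1 (Finset.mem_union_left _ h)
    · intro c hc
      rw [hcols, Multiset.mem_add] at hc
      rcases hc with hc | hc
      · exact (hCf c hc).2
      · rw [Multiset.mem_bind] at hc
        obtain ⟨i, hi, hc⟩ := hc
        exact (h5 i (mem_univ _) c hc).2
  · have h3 : k = 3 := by omega
    subst h3
    simp only [if_true] at hC hCf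
    refine ⟨s, s, fun _ => rfl, ?_⟩
    have hverts : (⟨(univ : Finset ι).val.map fun i => (s i, s i, s i), BV,
        BC + (univ : Finset ι).val.map fun i => (y i)⁻¹ * s i⟩ : Gad G).verts 3 =
        BV + (univ : Finset ι).val.map s := by
      simp only [Gad.verts, jl, if_true, Multiset.bind_singleton, Multiset.map_map,
        Function.comp_def]
    have hcols : (⟨(univ : Finset ι).val.map fun i => (s i, s i, s i), BV,
        BC + (univ : Finset ι).val.map fun i => (y i)⁻¹ * s i⟩ : Gad G).cols 3 =
        BC + (univ : Finset ι).val.map fun i => (y i)⁻¹ * s i := by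
      simp [Gad.cols, tl]
    refine ⟨?_, ?_, ?_, ?_, ?_, ?_⟩
    · intro _ i hi
      simp only [Multiset.mem_map] at hi
      obtain ⟨x, -, rfl⟩ := hi
      rfl
    · rw [hverts]; exact hV
    · rw [hverts]; exact hVf
    · rw [hcols]; exact hC
    · rw [hcols]; exact fun c hc => (hCf c hc).1
    · rw [hcols]; exact fun c hc => (hCf c hc).2

end close2

/-- paths with two inner vertices for a family of indices -/
theorem ms_family {G : Type} [Group G] {ι : Type} (M : Multiset ι) (s t a b : ι → G) :
    MS (M.map fun i => (s i, t i, 3)) (M.map a + M.map b)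
      (M.map (fun i => (s i)⁻¹ * a i) + M.map (fun i => (a i)⁻¹ * b i) +
        M.map (fun i => (b i)⁻¹ * t i)) := by
  induction M using Multiset.induction_on with
  | empty => exact MS.zero
  | cons i M ih =>
    have h := MS.cons (s i) (t i) [a i, b i] ih
    have e1 : (([a i, b i] : List G) : Multiset G) + (M.map a + M.map b) =
        (i ::ₘ M).map a + (i ::ₘ M).map b := by
      change (a i ::ₘ b i ::ₘ (0 : Multiset G)) + (M.map a + M.map b) = _
      simp only [Multiset.map_cons]
      simp only [← Multiset.singleton_add]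
      abel
    have e2 : pcols (s i) [a i, b i] (t i) + (M.map (fun i => (s i)⁻¹ * a i) +
        M.map (fun i => (a i)⁻¹ * b i) + M.map (fun i => (b i)⁻¹ * t i)) =
        (i ::ₘ M).map (fun i => (s i)⁻¹ * a i) + (i ::ₘ M).map (fun i => (a i)⁻¹ * b i) +
        (i ::ₘ M).map (fun i => (b i)⁻¹ * t i) := by
      change ((s i)⁻¹ * a i) ::ₘ ((a i)⁻¹ * b i) ::ₘ {(b i)⁻¹ * t i} + _ = _
      simp only [Multiset.map_cons]
      simp only [← Multiset.singleton_add]
      abel
    rw [e1, e2] at h
    rw [Multiset.map_cons]
    exact h

end Pool.OM.h76
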