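import Pool.Agent.Work.MP_8d2cba_co_h18.Interface2
import Pool.Agent.Work.MP_8d2cba_co_helper76.R

/-! MP_8d2cba_co, block FAM. -/

set_option autoImplicit false

namespace Pool.OM.h76

open Finset Pool.OM

section fam
variable {G : Type} [Group G] [Fintype G] [DecidableEq G]

theorem unif_count {γ : G} (hγ : γ * γ = 1) (f : ℕ) (ρ : ℕ → G) (c : G) : ∀ ws : List Wd,
    (∀ w ∈ ws, Wd.lin f (Wd.red w) = true) →
    Fintype.card G * (univ.filter fun ω : Fin f → G =>
      c ∈ ws.map (ev γ (join f ω ρ))).card ≤ ws.length * Fintype.card G ^ f := by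
  intro ws
  induction ws with
  | nil => intro _; simp
  | cons w ws ih =>
    intro h
    have h1 : (univ.filter fun ω : Fin f → G => c ∈ (w :: ws).map (ev γ (join f ω ρ))) ⊆
        (univ.filter fun ω : Fin f → G => ev γ (join f ω ρ) w = c) ∪
        (univ.filter fun ω : Fin f → G => c ∈ ws.map (ev γ (join f ω ρ))) := by
      intro ω hω
      simp only [mem_filter, mem_univ, true_and, mem_union, List.map_cons, List.mem_cons] at hω ⊢
      rcases hω with h2 | h2
      · exact Or.inl h2.symm
      · exact Or.inr h2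
    have h2 := (Finset.card_le_card h1).trans (Finset.card_union_le _ _)
    have h3 := ih fun w' hw' => h w' (by simp [hw'])
    have h4 := stmt_R2 G γ hγ f w (h w (by simp)) ρ c
    calc Fintype.card G * _ ≤ Fintype.card G * (_ + _) := Nat.mul_le_mul_left _ h2
      _ = Fintype.card G * _ + Fintype.card G * _ := by ring
      _ ≤ Fintype.card G ^ f + ws.length * Fintype.card G ^ f := Nat.add_le_add h4.le h3
      _ = (w :: ws).length * Fintype.card G ^ f := by rw [List.length_cons]; ring

end fam

def FamOK (G : Type) [Group G] [Fintype G] [DecidableEq G] (F : Fam G) : Prop :=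
  letI := F.fΩ; letI := F.fP
    Fintype.card F.P ≤ Fintype.card G ^ 23 ∧
    (∀ π ω, (F.pw π ω).length ≤ 20 ∧ (F.vw π ω).length ≤ 20) ∧
    (∀ π c, Fintype.card G * (univ.filter fun ω => c ∈ F.pw π ω).card ≤
      F.Lp * Fintype.card F.Ω) ∧
    (∀ π v, Fintype.card G * (univ.filter fun ω => v ∈ F.vw π ω).card ≤
      F.Lv * Fintype.card F.Ω) ∧ F.Lp ≤ 20 ∧ F.Lv ≤ 20

theorem fam_ok (G : Type) [Group G] [Fintype G] [DecidableEq G] (γ : G) (hγ : γ * γ = 1)
    (S : Sys) (f m : ℕ) (hm : m ≤ 23) (hp : S.pw.length ≤ 20) (hv : S.vw.length ≤ 20)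
    (hu : S.unif f = true) : FamOK G (S.fam γ f m) := by
  have hn : 0 < Fintype.card G := Fintype.card_pos
  simp only [Sys.unif, Bool.and_eq_true, List.all_eq_true] at hu
  refine ⟨?_, fun π ω => ?_, fun π c => ?_, fun π v => ?_, hp, hv⟩
  · change Fintype.card (Fin m → G) ≤ _
    rw [Fintype.card_fun, Fintype.card_fin]
    exact Nat.pow_le_pow_right hn hm
  · simp only [Sys.fam, List.length_map]
    exact ⟨hp, hv⟩
  · have h := unif_count hγ f (fun j => if h : j < m then π ⟨j, h⟩ else 1) c S.pw hu.2
    have h2 : Fintype.card (Fin f → G) = Fintype.card G ^ f := by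
      rw [Fintype.card_fun, Fintype.card_fin]
    rw [← h2] at h
    exact h
  · have h := unif_count hγ f (fun j => if h : j < m then π ⟨j, h⟩ else 1) v S.vw hu.1
    have h2 : Fintype.card (Fin f → G) = Fintype.card G ^ f := by
      rw [Fintype.card_fun, Fintype.card_fin]
    rw [← h2] at h
    exact h

theorem stmt_FAM : Stmt_FAM := by
  intro G _ _ _ γ hγ F hF
  change FamOK G F
  simp only [covFams, List.mem_cons, List.not_mem_nil, or_false] at hF
  rcases hF with rfl | rfl | rfl | rfl | rfl | rfl | rfl | rfl | rfl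
  all_goals
    apply fam_ok G γ hγ
    · norm_num
    · decide +kernel
    · decide +kernel
    · decide +kernel

end Pool.OM.h76
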