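import Pool.Agent.Work.MP_8d2cba_co_h18.Interface

/-! MP_8d2cba_co, block T: robustly matchable bipartite graphs (template). -/

set_option autoImplicit false

namespace Pool.OM.h76

open Finset Pool.OM

/-- `C(n,b) ≤ (3n/b)^b` -/
theorem choose_le (n b : ℕ) (hb : 0 < b) : ((n.choose b : ℕ) : ℝ) ≤ (3 * n / b) ^ b := by
  have h1 : ((n.choose b : ℕ) : ℝ) ≤ (n : ℝ) ^ b / (b.factorial : ℝ) := by
    have := Nat.choose_le_pow_div (α := ℝ) b n
    exact_mod_cast this
  have h2 : (b : ℝ) ^ b / (b.factorial : ℝ) ≤ 3 ^ b := by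
    have h := Real.pow_div_factorial_le_exp (b : ℝ) (Nat.cast_nonneg b) b
    have h3 : Real.exp (b : ℝ) = Real.exp 1 ^ b := by
      rw [← Real.exp_nat_mul, mul_one]
    rw [h3] at h
    refine h.trans (pow_le_pow_left₀ (Real.exp_pos 1).le ?_ b)
    exact (Real.exp_one_lt_d9.trans (by norm_num)).le
  have hb' : (0 : ℝ) < b := Nat.cast_pos.2 hb
  have hf : (0 : ℝ) < (b.factorial : ℝ) := Nat.cast_pos.2 (Nat.factorial_pos b)
  refine h1.trans ?_
  calc (n : ℝ) ^ b / (b.factorial : ℝ) = (n / b : ℝ) ^ b * ((b : ℝ) ^ b / (b.factorial : ℝ)) := by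
        rw [div_pow]; field_simp
    _ ≤ (n / b : ℝ) ^ b * 3 ^ b := by
        apply mul_le_mul_of_nonneg_left h2
        positivity
    _ = (3 * n / b) ^ b := by
        rw [← mul_pow]; congr 1; ring

/-- the terms of the union bound are summable: at most `4^{-b}` -/
theorem term_le (N M b : ℕ) (hb : 0 < b) (h1 : 2 * N ≤ 3 * M) (h2 : 4 * b ≤ 3 * M) :
    ((N.choose b : ℕ) : ℝ) * ((M.choose b : ℕ) : ℝ) * ((b : ℝ) / M) ^ (20 * b) ≤
      (1 / 4 : ℝ) ^ b := by
  have hM : 0 < M := by omega
  have hM' : (0 : ℝ) < M := Nat.cast_pos.2 hM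
  have hb' : (0 : ℝ) < b := Nat.cast_pos.2 hb
  have hN' : (0 : ℝ) ≤ N := Nat.cast_nonneg N
  have e1 := choose_le N b hb
  have e2 := choose_le M b hb
  have hr : (b : ℝ) / M ≤ 3 / 4 := by
    rw [div_le_div_iff₀ hM' (by norm_num)]
    have : ((4 * b : ℕ) : ℝ) ≤ ((3 * M : ℕ) : ℝ) := Nat.cast_le.2 h2
    push_cast at this
    linarith
  have hNM : (N : ℝ) / M ≤ 3 / 2 := by
    rw [div_le_div_iff₀ hM' (by norm_num)]
    have : ((2 * N : ℕ) : ℝ) ≤ ((3 * M : ℕ) : ℝ) := Nat.cast_le.2 h1
    push_cast at this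
    linarith
  calc ((N.choose b : ℕ) : ℝ) * ((M.choose b : ℕ) : ℝ) * ((b : ℝ) / M) ^ (20 * b)
      ≤ (3 * N / b) ^ b * (3 * M / b) ^ b * ((b : ℝ) / M) ^ (20 * b) := by
        apply mul_le_mul_of_nonneg_right _ (by positivity)
        exact mul_le_mul e1 e2 (by positivity) (by positivity)
    _ = (9 * (N / M) * ((b : ℝ) / M) ^ 18) ^ b := by
        rw [pow_mul, ← mul_pow, ← mul_pow]
        congr 1
        field_simp
        ring
    _ ≤ (1 / 4) ^ b := by
        apply pow_le_pow_left₀ (by positivity)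
        have h3 : ((b : ℝ) / M) ^ 18 ≤ (3 / 4) ^ 18 := pow_le_pow_left₀ (by positivity) hr 18
        calc 9 * ((N : ℝ) / M) * ((b : ℝ) / M) ^ 18 ≤ 9 * (3 / 2) * (3 / 4) ^ 18 := by
              apply mul_le_mul _ h3 (by positivity) (by norm_num)
              linarith
          _ ≤ 1 / 4 := by norm_num

/-- **Expansion lemma.** -/
theorem expansion (S T : Type) [Fintype S] [Fintype T] [DecidableEq S] [DecidableEq T]
    (h : 2 * Fintype.card S ≤ 3 * Fintype.card T) :
    ∃ F : S → Fin 20 → T, ∀ B : Finset S, 4 * B.card ≤ 3 * Fintype.card T →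
      B.card ≤ (B.biUnion fun x => univ.image (F x)).card := by
  classical
  by_contra hcon
  push Not at hcon
  set N := Fintype.card S with hN
  set M := Fintype.card T with hM
  -- every F lies in one of the bad sets
  let bad : Finset S × Finset T → Finset (S → Fin 20 → T) := fun p =>
    Fintype.piFinset fun x => if x ∈ p.1 then Fintype.piFinset fun _ => p.2 else univ
  let idx : ℕ → Finset (Finset S × Finset T) := fun b =>
    (univ.powersetCard b) ×ˢ (univ.powersetCard b)
  have hcover : ∀ F : S → Fin 20 → T, ∃ b ∈ (range (N + 1)).filter (fun b => 0 < b ∧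
      4 * b ≤ 3 * M), ∃ p ∈ idx b, F ∈ bad p := by
    intro F
    obtain ⟨B, hB1, hB2⟩ := hcon F
    have hB0 : 0 < B.card := lt_of_le_of_lt (Nat.zero_le _) hB2
    have hBM : B.card ≤ M := by omega
    obtain ⟨W, hW1, -, hW2⟩ := Finset.exists_subsuperset_card_eq
      (Finset.subset_univ (B.biUnion fun x => univ.image (F x))) hB2.le
      (by rw [Finset.card_univ]; exact hBM)
    refine ⟨B.card, ?_, (B, W), ?_, ?_⟩
    · rw [mem_filter, mem_range]
      have := Finset.card_le_univ B
      exact ⟨by omega, hB0, hB1⟩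
    · simp only [idx, mem_product, mem_powersetCard]
      exact ⟨⟨subset_univ _, trivial⟩, subset_univ _, hW2⟩
    · simp only [bad, Fintype.mem_piFinset]
      intro x
      split_ifs with hx
      · rw [Fintype.mem_piFinset]
        intro i
        apply hW1
        rw [mem_biUnion]
        exact ⟨x, hx, mem_image_of_mem _ (mem_univ _)⟩
      · exact mem_univ _
  have hbad : ∀ b, ∀ p ∈ idx b, (bad p).card = b ^ (20 * b) * M ^ (20 * (N - b)) := by
    intro b p hp
    simp only [idx, mem_product, mem_powersetCard] at hp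
    obtain ⟨⟨-, h1⟩, -, h2⟩ := hp
    simp only [bad, Fintype.card_piFinset]
    have : ∀ x : S, (if x ∈ p.1 then (Fintype.piFinset fun _ : Fin 20 => p.2) else univ).card =
        if x ∈ p.1 then b ^ 20 else M ^ 20 := by
      intro x
      split_ifs with hx
      · rw [Fintype.card_piFinset]; simp [h2]
      · simp [hM]
    rw [Finset.prod_congr rfl fun x _ => this x, Finset.prod_ite]
    have h3 : (univ.filter fun x => x ∈ p.1).card = b := by
      rw [← h1]; congr 1; ext x; simp
    have h4 : (univ.filter fun x => x ∉ p.1).card = N - b := by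
      have := Finset.card_filter_add_card_filter_not (s := (univ : Finset S)) (fun x => x ∈ p.1)
      rw [h3, Finset.card_univ] at this
      omega
    rw [Finset.prod_const, Finset.prod_const, h3, h4, ← pow_mul, ← pow_mul]
  have hidx : ∀ b, (idx b).card = N.choose b * M.choose b := by
    intro b
    simp only [idx, card_product, card_powersetCard, Finset.card_univ]
    rfl
  have htot : (M ^ (20 * N) : ℕ) ≤ ∑ b ∈ (range (N + 1)).filter (fun b => 0 < b ∧ 4 * b ≤ 3 * M),
      (N.choose b * M.choose b) * (b ^ (20 * b) * M ^ (20 * (N - b))) := by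
    have h1 : (univ : Finset (S → Fin 20 → T)) ⊆
        ((range (N + 1)).filter (fun b => 0 < b ∧ 4 * b ≤ 3 * M)).biUnion fun b =>
          (idx b).biUnion bad := by
      intro F _
      obtain ⟨b, hb, p, hp, hF⟩ := hcover F
      rw [mem_biUnion]
      exact ⟨b, hb, mem_biUnion.2 ⟨p, hp, hF⟩⟩
    have h2 := Finset.card_le_card h1
    have h3 : (univ : Finset (S → Fin 20 → T)).card = M ^ (20 * N) := by
      rw [Finset.card_univ, Fintype.card_fun, Fintype.card_fun, Fintype.card_fin, ← pow_mul]
    rw [h3] at h2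
    refine h2.trans (Finset.card_biUnion_le.trans (Finset.sum_le_sum fun b _ => ?_))
    refine Finset.card_biUnion_le.trans ?_
    rw [Finset.sum_congr rfl fun p hp => hbad b p hp, Finset.sum_const, hidx, smul_eq_mul]
  -- some b occurs, so M > 0
  have hMpos : 0 < M := by
    by_contra h0
    have h0 : M = 0 := by omega
    have hempty : (range (N + 1)).filter (fun b => 0 < b ∧ 4 * b ≤ 3 * M) = ∅ := by
      rw [Finset.filter_eq_empty_iff]
      intro b _
      omega
    have hN0 : N = 0 := by omega
    rw [hempty, hN0] at htot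
    simp at htot
  have hM' : (0 : ℝ) < M := Nat.cast_pos.2 hMpos
  have htot' : (1 : ℝ) ≤ ∑ b ∈ (range (N + 1)).filter (fun b => 0 < b ∧ 4 * b ≤ 3 * M),
      (1 / 4 : ℝ) ^ b := by
    have h1 : ((M ^ (20 * N) : ℕ) : ℝ) ≤ ∑ b ∈ (range (N + 1)).filter
        (fun b => 0 < b ∧ 4 * b ≤ 3 * M), (((N.choose b * M.choose b) *
          (b ^ (20 * b) * M ^ (20 * (N - b))) : ℕ) : ℝ) := by
      rw [← Nat.cast_sum]
      exact Nat.cast_le.2 htot
    have h2 : ∀ b ∈ (range (N + 1)).filter (fun b => 0 < b ∧ 4 * b ≤ 3 * M),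
        (((N.choose b * M.choose b) * (b ^ (20 * b) * M ^ (20 * (N - b))) : ℕ) : ℝ) ≤
          (1 / 4 : ℝ) ^ b * (M : ℝ) ^ (20 * N) := by
      intro b hb
      rw [mem_filter, mem_range] at hb
      have h3 := term_le N M b hb.2.1 h hb.2.2
      have h4 : (M : ℝ) ^ (20 * N) = (M : ℝ) ^ (20 * b) * (M : ℝ) ^ (20 * (N - b)) := by
        rw [← pow_add]; congr 1; omega
      rw [h4]
      push_cast
      calc ((N.choose b : ℕ) : ℝ) * ((M.choose b : ℕ) : ℝ) *
            ((b : ℝ) ^ (20 * b) * (M : ℝ) ^ (20 * (N - b)))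
          = (((N.choose b : ℕ) : ℝ) * ((M.choose b : ℕ) : ℝ) * ((b : ℝ) / M) ^ (20 * b)) *
            ((M : ℝ) ^ (20 * b) * (M : ℝ) ^ (20 * (N - b))) := by
            rw [div_pow]; field_simp
        _ ≤ (1 / 4 : ℝ) ^ b * ((M : ℝ) ^ (20 * b) * (M : ℝ) ^ (20 * (N - b))) :=
            mul_le_mul_of_nonneg_right h3 (by positivity)
    have h5 := h1.trans (Finset.sum_le_sum h2)
    rw [← Finset.sum_mul] at h5
    push_cast at h5
    have h6 : (0 : ℝ) < (M : ℝ) ^ (20 * N) := by positivity
    exact (le_mul_iff_one_le_left h6).1 h5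
  have hgeo : ∑ b ∈ (range (N + 1)).filter (fun b => 0 < b ∧ 4 * b ≤ 3 * M),
      (1 / 4 : ℝ) ^ b < 1 := by
    calc ∑ b ∈ (range (N + 1)).filter (fun b => 0 < b ∧ 4 * b ≤ 3 * M), (1 / 4 : ℝ) ^ b
        ≤ ∑ b ∈ (range (N + 1)).filter (fun b => 0 < b), (1 / 4 : ℝ) ^ b := by
          apply Finset.sum_le_sum_of_subset_of_nonneg
          · intro b hb
            rw [mem_filter] at hb ⊢
            exact ⟨hb.1, hb.2.1⟩
          · intro b _ _; positivity
      _ = ∑ b ∈ range N, (1 / 4 : ℝ) ^ (b + 1) := by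
          rw [Finset.sum_filter, Finset.sum_range_succ']
          simp
      _ = (1 / 4) * ∑ b ∈ range N, (1 / 4 : ℝ) ^ b := by
          rw [Finset.mul_sum]
          exact Finset.sum_congr rfl fun b _ => by ring
      _ < 1 := by
          rw [geom_sum_eq (by norm_num)]
          have : (0 : ℝ) ≤ (1 / 4) ^ N := by positivity
          have h4 : ((1 / 4 : ℝ) ^ N - 1) / (1 / 4 - 1) = (4 / 3) * (1 - (1 / 4) ^ N) := by ring
          rw [h4]
          linarith
  linarith

theorem stmt_T : Stmt_T := by
  refine ⟨120, 2, ?_⟩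
  intro z u hz hu
  classical
  obtain ⟨F1, hF1⟩ := expansion (Fin (3 * z - u)) (Fin (2 * z)) (by simp; omega)
  obtain ⟨F2, hF2⟩ := expansion (Fin (2 * z) ⊕ Fin z) (Fin (3 * z - u)) (by simp; omega)
  simp only [Fintype.card_fin] at hF1 hF2
  let E1 : Finset (Fin (3 * z - u) × (Fin (2 * z) ⊕ Fin z)) :=
    (univ : Finset (Fin (3 * z - u) × Fin 20)).image fun p => (p.1, Sum.inl (F1 p.1 p.2))
  let E2 : Finset (Fin (3 * z - u) × (Fin (2 * z) ⊕ Fin z)) :=
    (univ : Finset ((Fin (2 * z) ⊕ Fin z) × Fin 20)).image fun p => (F2 p.1 p.2, p.1)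
  have hE1 : ∀ x i, (x, Sum.inl (F1 x i)) ∈ E1 := fun x i =>
    mem_image.2 ⟨(x, i), mem_univ _, rfl⟩
  have hE2 : ∀ a i, (F2 a i, a) ∈ E2 := fun a i => mem_image.2 ⟨(a, i), mem_univ _, rfl⟩
  refine ⟨E1 ∪ E2, ?_, ?_⟩
  · have h1 : E1.card ≤ (3 * z - u) * 20 := Finset.card_image_le.trans (by simp)
    have h2 : E2.card ≤ (2 * z + z) * 20 := Finset.card_image_le.trans (by simp)
    have h3 := Finset.card_union_le E1 E2
    omega
  · intro Z hZ
    let t : Fin (3 * z - u) → Finset (Fin (2 * z) ⊕ Fin z) := fun x =>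
      univ.filter fun a => (x, a) ∈ E1 ∪ E2 ∧ ∀ j, a = Sum.inr j → j ∈ Z
    have key : ∀ B : Finset (Fin (3 * z - u)), B.card ≤ (B.biUnion t).card := by
      intro B
      by_cases hB : 2 * B.card ≤ 3 * z - u
      · have h1 := hF1 B (by omega)
        refine h1.trans ?_
        have h2 : (B.biUnion fun x => univ.image (F1 x)).card =
            ((B.biUnion fun x => univ.image (F1 x)).image
              (Sum.inl : Fin (2 * z) → Fin (2 * z) ⊕ Fin z)).card :=
          (Finset.card_image_of_injective _ Sum.inl_injective).symm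
        rw [h2]
        apply Finset.card_le_card
        intro a ha
        simp only [mem_image, mem_biUnion, mem_univ, true_and] at ha
        obtain ⟨y, ⟨x, hx, i, rfl⟩, rfl⟩ := ha
        rw [mem_biUnion]
        refine ⟨x, hx, ?_⟩
        simp only [t, mem_filter, mem_univ, true_and]
        exact ⟨mem_union_left _ (hE1 x i), fun j hj => by simp at hj⟩
      · by_contra hlt
        push Not at hlt hB
        -- the set of all admissible partners
        let A0 : Finset (Fin (2 * z) ⊕ Fin z) := univ.filter fun a => ∀ j, a = Sum.inr j → j ∈ Z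
        have hA0 : A0.card = 3 * z - u := by
          have h1 : A0 = (univ : Finset (Fin (2 * z))).disjSum Z := by
            ext a
            simp only [A0, mem_filter, mem_univ, true_and, mem_disjSum]
            cases a with
            | inl y => simp
            | inr j => simp
          rw [h1, Finset.card_disjSum, Finset.card_univ, Fintype.card_fin]
          omega
        have h2 : B.card ≤ 3 * z - u := by
          simpa using Finset.card_le_univ B
        have h3 : (3 * z - u) - B.card + 1 ≤ (A0 \ B.biUnion t).card := by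
          have := Finset.le_card_sdiff (B.biUnion t) A0
          omega
        obtain ⟨A, hA1, hA2⟩ := Finset.exists_subset_card_eq h3
        have h4 := hF2 A (by omega)
        have h5 : (A.biUnion fun a => univ.image (F2 a)) ⊆ univ \ B := by
          intro x hx
          rw [mem_sdiff]
          refine ⟨mem_univ _, fun hxB => ?_⟩
          simp only [mem_biUnion, mem_image, mem_univ, true_and] at hx
          obtain ⟨a, ha, i, rfl⟩ := hx
          have h6 := hA1 ha
          rw [mem_sdiff] at h6
          apply h6.2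
          rw [mem_biUnion]
          refine ⟨F2 a i, hxB, ?_⟩
          simp only [t, mem_filter, mem_univ, true_and]
          refine ⟨mem_union_right _ (hE2 a i), ?_⟩
          have h7 := h6.1
          simp only [A0, mem_filter, mem_univ, true_and] at h7
          exact h7
        have h8 := Finset.card_le_card h5
        rw [Finset.card_sdiff_of_subset (subset_univ B), Finset.card_univ, Fintype.card_fin] at h8
        omega
    obtain ⟨f, hf1, hf2⟩ := (Finset.all_card_le_biUnion_card_iff_exists_injective t).1 key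
    refine ⟨f, hf1, fun x => ?_, fun x j hj => ?_⟩
    · have := hf2 x
      simp only [t, mem_filter, mem_univ, true_and] at this
      exact this.1
    · have := hf2 x
      simp only [t, mem_filter, mem_univ, true_and] at this
      exact this.2 j hj

end Pool.OM.h76
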