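import Pool.Agent.Work.MP_8d2cba_co_helper76.R
import Pool.Agent.Work.MP_8d2cba_co_helper76.CLOSE2

/-! MP_8d2cba_co, block W: vertex exchange. -/

set_option autoImplicit false

namespace Pool.OM.h76.WG

open Finset Pool.OM Pool.OM.h76

def v (j : ℕ) : Wd := [(j + 1, true)]
def uW : Fin 4 → Wd := ![v 11, v 0, v 1, v 2]
def wW : Fin 4 → Wd := fun j => v (3 + j.val)
def xW : Fin 4 → Wd := fun j => v (7 + j.val)
def dW : Fin 4 → Wd := ![Wd.inv (v 11) ++ v 12, [], [], []]
def zW : Fin 4 → Wd := fun j => Wd.inv (wW j ++ xW j) ++ dW j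
def pW : Fin 3 → Fin 4 → Wd := ![uW, fun j => uW j ++ wW j, fun j => uW j ++ wW j ++ xW j]
def oW : Fin 3 → Fin 4 → Wd := ![wW, xW, zW]
def sW (x : Fin 3 × Fin 4) : Wd := pW x.1 x.2 ++ Wd.inv (oW x.1 (x.2 - 1))
def yW (x : Fin 3 × Fin 4) : Wd := pW x.1 x.2 ++ oW x.1 x.2 ++ oW x.1 (x.2 + 1)
def c1W (x : Fin 3 × Fin 4) : Wd := oW x.1 (x.2 - 1)
def c2W (x : Fin 3 × Fin 4) : Wd := oW x.1 x.2 ++ oW x.1 (x.2 + 1)
def c3W (x : Fin 3 × Fin 4) : Wd := Wd.inv (oW x.1 (x.2 - 1) ++ oW x.1 x.2 ++ oW x.1 (x.2 + 1))

def allL {α : Type} (f : Fin 3 × Fin 4 → α) : List α :=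
  (List.finRange 3).flatMap fun b => (List.finRange 4).map fun j => f (b, j)

def bvL : List Wd := [uW 1, uW 2, uW 3] ++ ((List.finRange 4).map (pW 1) ++
  ((List.finRange 4).map (pW 2) ++ allL yW))
def vs : List Wd := bvL ++ allL sW
def bcL : List Wd := allL c1W ++ allL c2W
def cs : List Wd := bcL ++ allL c3W

set_option maxRecDepth 100000 in
theorem obl_vs : Sys.lobls 11 (Sys.diffs vs) = some [] := by decide +kernel
set_option maxRecDepth 100000 in
theorem obl_cs : Sys.lobls 11 (Sys.diffs cs) = some [] := by decide +kernel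
theorem lin_vs : (vs.all fun w => Wd.lin 11 (Wd.red w)) = true := by decide +kernel
theorem lin_cs : (cs.all fun w => Wd.lin 11 (Wd.red w)) = true := by decide +kernel
theorem len_vs : vs.length = 35 := by decide +kernel
theorem len_cs : cs.length = 36 := by decide +kernel
theorem len_dvs : (Sys.diffs vs).length = 595 := by decide +kernel
theorem len_dcs : (Sys.diffs cs).length = 630 := by decide +kernel

theorem lobls_append (f : ℕ) (a b : List Wd) (ha : Sys.lobls f a = some [])
    (hb : Sys.lobls f b = some []) : Sys.lobls f (a ++ b) = some [] := by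
  unfold Sys.lobls at *
  rw [List.foldr_append, hb, ha]

theorem allL_coe {α : Type} (f : Fin 3 × Fin 4 → α) :
    ((allL f : List α) : Multiset α) = (univ : Finset (Fin 3 × Fin 4)).val.map f := rfl

theorem allL_map_coe {α : Type} (f : Fin 3 × Fin 4 → Wd) (e : Wd → α) :
    (((allL f).map e : List α) : Multiset α) =
      (univ : Finset (Fin 3 × Fin 4)).val.map fun x => e (f x) := by
  rw [← Multiset.map_coe, allL_coe, Multiset.map_map]
  rfl

theorem map_shift {α : Type} (f : Fin 3 × Fin 4 → α) (σ : Fin 4 ≃ Fin 4) :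
    (univ : Finset (Fin 3 × Fin 4)).val.map (fun x => f (x.1, σ x.2)) =
      (univ : Finset (Fin 3 × Fin 4)).val.map f := by
  conv_rhs => rw [← Multiset.map_univ_val_equiv (Equiv.prodCongr (Equiv.refl (Fin 3)) σ),
    Multiset.map_map]
  rfl

end Pool.OM.h76.WG

namespace Pool.OM.h76

open Finset Pool.OM Pool.OM.h76.WG

theorem stmt_W : Stmt_W := by
  refine ⟨10000, ?_⟩
  intro G _ _ _ k FV FC hk hdvd hK u u'
  classical
  have hn : 0 < Fintype.card G := Fintype.card_pos
  let ρ : ℕ → G := fun j => if j = 0 then u else u'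
  have hins : (insert 1 FC).card ≤ FC.card + 1 := Finset.card_insert_le _ _
  have hsum : ((vs.map fun w => (w, FV)) ++ (cs.map fun w => (w, insert (1 : G) FC))).map
      (fun a => a.2.card) = (vs.map fun _ => FV.card) ++ cs.map fun _ => (insert 1 FC).card := by
    simp [Function.comp_def]
  obtain ⟨ω, h1, h2⟩ := stmt_R4 G (1 : G) (by simp) 11 (Sys.diffs vs ++ Sys.diffs cs) []
    (lobls_append 11 _ _ obl_vs obl_cs)
    ((vs.map fun w => (w, FV)) ++ (cs.map fun w => (w, insert (1 : G) FC)))
    (by
      intro a ha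
      rw [List.mem_append, List.mem_map, List.mem_map] at ha
      rcases ha with ⟨w, hw, rfl⟩ | ⟨w, hw, rfl⟩
      · exact List.all_eq_true.1 lin_vs w hw
      · exact List.all_eq_true.1 lin_cs w hw)
    10000 ρ (by omega) (by rw [List.length_append, len_dvs, len_dcs]; norm_num)
    (by intro o ho; simp at ho)
    (by
      rw [hsum, List.sum_append, List.map_const', List.map_const', List.sum_replicate,
        List.sum_replicate, len_vs, len_cs, smul_eq_mul, smul_eq_mul]
      omega)
  set e : Wd → G := ev 1 (join 11 ω ρ) with he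
  have hγ : (1 : G) * 1 = 1 := by simp
  have happ : ∀ a b : Wd, e (a ++ b) = e a * e b := fun a b => ev_append _ _ a b
  have hinv : ∀ a : Wd, e (Wd.inv a) = (e a)⁻¹ := fun a => ev_inv hγ _ a
  have hu : e (v 11) = u := by simp [he, v, ev, evL, join, ρ]
  have hu' : e (v 12) = u' := by simp [he, v, ev, evL, join, ρ]
  have ndv : (vs.map e).Nodup := nodup_of_diffs hγ _ vs fun w hw =>
    h1 w (List.mem_append.2 (Or.inl hw))
  have ndc : (cs.map e).Nodup := nodup_of_diffs hγ _ cs fun w hw =>
    h1 w (List.mem_append.2 (Or.inr hw))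
  have avv : ∀ w ∈ vs, e w ∉ FV := fun w hw =>
    h2 (w, FV) (List.mem_append.2 (Or.inl (List.mem_map.2 ⟨w, hw, rfl⟩)))
  have avc : ∀ w ∈ cs, e w ∉ FC ∧ e w ≠ 1 := fun w hw => by
    have := h2 (w, insert 1 FC) (List.mem_append.2 (Or.inr (List.mem_map.2 ⟨w, hw, rfl⟩)))
    simp only [Finset.mem_insert, not_or] at this
    exact ⟨this.2, this.1⟩
  -- sources, sinks, inner vertices
  let P : Fin 3 × Fin 4 → G := fun x => e (pW x.1 x.2)
  let O : Fin 3 × Fin 4 → G := fun x => e (oW x.1 x.2)
  let s : Fin 3 × Fin 4 → G := fun x => e (sW x)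
  let y : Fin 3 × Fin 4 → G := fun x => e (yW x)
  let Q : Fin 3 × Fin 4 → G := fun x => P x * O x
  have hs : ∀ x, s x = P x * (O (x.1, x.2 - 1))⁻¹ := fun x => by
    simp only [s, sW, happ, hinv, P, O]
  have hy : ∀ x, y x = P x * O x * O (x.1, x.2 + 1) := fun x => by
    simp only [y, yW, happ, P, O]
  set BV : Multiset G := ((bvL.map e : List G) : Multiset G) with hBV
  set BC : Multiset G := ((bcL.map e : List G) : Multiset G) with hBC
  have hVS : BV + (univ : Finset (Fin 3 × Fin 4)).val.map s = ((vs.map e : List G) : Multiset G) := by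
    rw [hBV, vs, List.map_append, ← Multiset.coe_add, allL_map_coe]
  have hCS : BC + (univ : Finset (Fin 3 × Fin 4)).val.map (fun x => (y x)⁻¹ * s x) =
      ((cs.map e : List G) : Multiset G) := by
    rw [hBC, cs, List.map_append, ← Multiset.coe_add, allL_map_coe]
    congr 1
    apply Multiset.map_congr rfl
    intro x _
    rw [hs, hy]
    simp only [c3W, happ, hinv, O]
    group
  have hBC2 : BC = (univ : Finset (Fin 3 × Fin 4)).val.map (fun x => O (x.1, x.2 - 1)) +
      (univ : Finset (Fin 3 × Fin 4)).val.map (fun x => O x * O (x.1, x.2 + 1)) := by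
    rw [hBC, bcL, List.map_append, ← Multiset.coe_add, allL_map_coe, allL_map_coe]
    congr 1
    apply Multiset.map_congr rfl
    intro x _
    simp only [c2W, happ, O]
  have cBV : BV.card = 23 := by
    rw [hBV, Multiset.coe_card, List.length_map]; decide +kernel
  have cBC : BC.card = 24 := by
    rw [hBC, Multiset.coe_card, List.length_map]; decide +kernel
  have cI : Fintype.card (Fin 3 × Fin 4) = 12 := by simp
  obtain ⟨t, τ, -, hfresh⟩ := fresh_close k hk hdvd FV FC s y BV BC
    (by rw [cBV, cBC, cI]; omega)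
    (by rw [hVS]; exact ndv)
    (by
      rw [hVS]
      intro x hx
      rw [Multiset.mem_coe, List.mem_map] at hx
      obtain ⟨w, hw, rfl⟩ := hx
      exact avv w hw)
    (by
      split_ifs
      · rw [hCS]; exact ndc
      · rw [add_zero]
        have : (BC + (univ : Finset (Fin 3 × Fin 4)).val.map
          (fun x => (y x)⁻¹ * s x)).Nodup := by rw [hCS]; exact ndc
        exact (Multiset.nodup_add.1 this).1)
    (by
      intro c hc
      have hc' : c ∈ BC + (univ : Finset (Fin 3 × Fin 4)).val.map
          (fun x => (y x)⁻¹ * s x) := by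
        split_ifs at hc
        · exact hc
        · rw [add_zero] at hc
          exact Multiset.mem_add.2 (Or.inl hc)
      rw [hCS, Multiset.mem_coe, List.mem_map] at hc'
      obtain ⟨w, hw, rfl⟩ := hc'
      exact avc w hw)
  refine ⟨_, ?_, hfresh, ?_, ?_⟩
  · simp only [Gad.size, Multiset.card_map, Multiset.card_add, cBV, cBC]
    have : (univ : Finset (Fin 3 × Fin 4)).val.card = 12 := rfl
    rw [this]
    norm_num
  · -- state 1
    have h := ms_family (univ : Finset (Fin 3 × Fin 4)).val s t P y
    have e1 : (univ : Finset (Fin 3 × Fin 4)).val.map P +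
        (univ : Finset (Fin 3 × Fin 4)).val.map y = u ::ₘ BV := by
      rw [← allL_map_coe, ← allL_coe, ← hu]
      rfl
    have e2 : (univ : Finset (Fin 3 × Fin 4)).val.map (fun i => (s i)⁻¹ * P i) +
        (univ : Finset (Fin 3 × Fin 4)).val.map (fun i => (P i)⁻¹ * y i) = BC := by
      rw [hBC2]
      congr 1
      · apply Multiset.map_congr rfl
        intro x _
        rw [hs]; group
      · apply Multiset.map_congr rfl
        intro x _
        rw [hy]; group
    rw [e1, e2] at h
    have e3 : (⟨(univ : Finset (Fin 3 × Fin 4)).val.map fun i => (s i, t i, τ i), BV,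
        BC + (univ : Finset (Fin 3 × Fin 4)).val.map fun i => (y i)⁻¹ * t i⟩ : Gad G).idx =
        (univ : Finset (Fin 3 × Fin 4)).val.map fun i => (s i, t i, 3) := by
      simp only [Gad.idx, Multiset.map_map]
      rfl
    rw [e3]
    exact h
  · -- state 2
    have h := ms_family (univ : Finset (Fin 3 × Fin 4)).val s t Q y
    have hQ0 : ∀ j : Fin 4, Q (0, j) = e (pW 1 j) := fun j => (happ _ _).symm
    have hQ1 : ∀ j : Fin 4, Q (1, j) = e (pW 2 j) := fun j => (happ _ _).symm
    have hQ2 : ∀ j : Fin 4, Q (2, j) = e (uW j) * e (dW j) := by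
      intro j
      change e (uW j ++ wW j ++ xW j) * e (zW j) = _
      simp only [zW, happ, hinv]
      group
    have e1 : (univ : Finset (Fin 3 × Fin 4)).val.map Q +
        (univ : Finset (Fin 3 × Fin 4)).val.map y = u' ::ₘ BV := by
      have q0 : Q (2, 0) = u' := by
        rw [hQ2]
        change e (v 11) * e (Wd.inv (v 11) ++ v 12) = u'
        rw [happ, hinv, hu, hu']; group
      have q1 : Q (2, 1) = e (uW 1) := by
        rw [hQ2]
        change e (uW 1) * 1 = _
        rw [mul_one]
      have q2 : Q (2, 2) = e (uW 2) := by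
        rw [hQ2]
        change e (uW 2) * 1 = _
        rw [mul_one]
      have q3 : Q (2, 3) = e (uW 3) := by
        rw [hQ2]
        change e (uW 3) * 1 = _
        rw [mul_one]
      have hQL : (univ : Finset (Fin 3 × Fin 4)).val.map Q =
          ((((List.finRange 4).map fun j => Q (0, j)) : List G) : Multiset G) +
          ((((List.finRange 4).map fun j => Q (1, j)) : List G) : Multiset G) +
          (([Q (2, 0), Q (2, 1), Q (2, 2), Q (2, 3)] : List G) : Multiset G) := rfl
      have hBL : u' ::ₘ BV = (([u', e (uW 1), e (uW 2), e (uW 3)] : List G) : Multiset G) +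
          (((((List.finRange 4).map fun j => e (pW 1 j)) : List G) : Multiset G) +
          (((((List.finRange 4).map fun j => e (pW 2 j)) : List G) : Multiset G) +
          (univ : Finset (Fin 3 × Fin 4)).val.map y)) := rfl
      rw [hQL, hBL, q0, q1, q2, q3]
      simp only [hQ0, hQ1]
      abel
    have e2 : (univ : Finset (Fin 3 × Fin 4)).val.map (fun i => (s i)⁻¹ * Q i) +
        (univ : Finset (Fin 3 × Fin 4)).val.map (fun i => (Q i)⁻¹ * y i) = BC := by
      rw [hBC2, add_comm]
      congr 1
      · rw [← map_shift (fun x => O (x.1, x.2 - 1)) (Equiv.addRight 2)]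
        apply Multiset.map_congr rfl
        intro x _
        rw [hy]
        have : (x.2 + 2 - 1 : Fin 4) = x.2 + 1 := by
          rw [add_sub_assoc]; rfl
        simp only [Equiv.coe_addRight, this, Q]
        group
      · rw [← map_shift (fun x => O x * O (x.1, x.2 + 1)) (Equiv.subRight 1)]
        apply Multiset.map_congr rfl
        intro x _
        rw [hs]
        simp only [Equiv.subRight_apply, sub_add_cancel, Q]
        group
    rw [e1, e2] at h
    have e3 : (⟨(univ : Finset (Fin 3 × Fin 4)).val.map fun i => (s i, t i, τ i), BV,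
        BC + (univ : Finset (Fin 3 × Fin 4)).val.map fun i => (y i)⁻¹ * t i⟩ : Gad G).idx =
        (univ : Finset (Fin 3 × Fin 4)).val.map fun i => (s i, t i, 3) := by
      simp only [Gad.idx, Multiset.map_map]
      rfl
    rw [e3]
    exact h

end Pool.OM.h76
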