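import Pool.Agent.Work.MP_8d2cba_co_h18.Interface

/-! MP_8d2cba_co, block CLOSE. -/

set_option autoImplicit false

namespace Pool.OM.h76

open Finset Pool.OM

section close
variable {G : Type} [Group G] [Fintype G] [DecidableEq G]

/-- the vertices chosen for one special index -/
def cV (k : ℕ) (t τ : G) : Multiset G := if k = 5 then {t, τ} else {t}

/-- the colours used for one special index -/
def cC (k : ℕ) (s y t τ : G) : Multiset G := (y⁻¹ * t) ::ₘ tl k (s, t, τ)

theorem cV_card (k : ℕ) (t τ : G) : (cV k t τ).card ≤ 2 := by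
  unfold cV; split_ifs <;> simp

theorem cC_card (k : ℕ) (s y t τ : G) : (cC k s y t τ).card ≤ 3 := by
  unfold cC tl; split_ifs <;> simp

theorem mem_cV (k : ℕ) (t τ x : G) (h : x ∈ cV k t τ) : x = t ∨ x = τ := by
  unfold cV at h
  split_ifs at h
  · simpa using h
  · left; simpa using h

/-- odd order: squaring is injective -/
theorem sq_inj (hodd : Odd (Fintype.card G)) {a b : G} (h : a * a = b * b) : a = b := by
  have hc : (Nat.card G).Coprime 2 := by
    rw [Nat.card_eq_fintype_card]
    exact Nat.Coprime.symm (Nat.coprime_two_left.2 hodd)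
  have := (powCoprime hc).injective (a₁ := a) (a₂ := b)
  apply this
  simp only [powCoprime_apply, pow_two]
  exact h

theorem close_step (k : ℕ) (hk : 4 ≤ k) (hdvd : k ∣ Fintype.card G - 1) (FV FC : Finset G)
    (h : 8 * (FV.card + FC.card + 2) ≤ Fintype.card G) (s y : G) :
    ∃ t τ : G, (cV k t τ).Nodup ∧ (t ∉ FV ∧ τ ∉ FV) ∧ (cC k s y t τ).Nodup ∧
      ∀ c ∈ cC k s y t τ, c ∉ FC ∧ c ≠ 1 := by
  have hF : (insert 1 FC).card ≤ FC.card + 1 := Finset.card_insert_le _ _
  have hmem : ∀ c : G, c ∉ insert 1 FC → c ∉ FC ∧ c ≠ 1 := by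
    intro c hc
    rw [Finset.mem_insert, not_or] at hc
    exact ⟨hc.2, hc.1⟩
  rcases Nat.lt_or_ge 5 k with hk5 | hk5
  · -- k ≥ 6
    have h4 : k ≠ 4 := by omega
    have h5 : k ≠ 5 := by omega
    let B : Finset G := FV ∪ (insert 1 FC).image fun c => y * c
    have hB : B.card < (univ : Finset G).card := by
      rw [Finset.card_univ]
      have h1 := Finset.card_union_le FV ((insert 1 FC).image fun c => y * c)
      have h2 : ((insert 1 FC).image fun c => y * c).card ≤ _ := Finset.card_image_le
      change (FV ∪ (insert 1 FC).image fun c => y * c).card < _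
      omega
    obtain ⟨t, -, ht⟩ := Finset.exists_mem_notMem_of_card_lt_card hB
    rw [Finset.mem_union, not_or] at ht
    have hc : y⁻¹ * t ∉ insert 1 FC := fun hc =>
      ht.2 (Finset.mem_image.2 ⟨_, hc, by group⟩)
    refine ⟨t, t, by simp [cV, h5], ⟨ht.1, ht.1⟩, by simp [cC, tl, h4, h5], ?_⟩
    intro c h1
    simp only [cC, tl, h4, h5, if_false, Multiset.cons_zero, Multiset.mem_singleton] at h1
    rw [h1]
    exact hmem _ hc
  · rcases (by omega : k = 4 ∨ k = 5) with rfl | rfl
    · -- k = 4
      have hodd : Odd (Fintype.card G) := by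
        obtain ⟨j, hj⟩ := hdvd
        have hpos : 0 < Fintype.card G := Fintype.card_pos
        exact ⟨2 * j, by omega⟩
      let Q : Finset G := univ.filter fun t => y⁻¹ * t = t⁻¹ * s
      have hQ : Q.card ≤ 1 := by
        rw [Finset.card_le_one]
        intro a ha b hb
        simp only [Q, mem_filter, mem_univ, true_and] at ha hb
        have h1 : (a * y⁻¹) * (a * y⁻¹) = (b * y⁻¹) * (b * y⁻¹) := by
          calc (a * y⁻¹) * (a * y⁻¹) = a * (y⁻¹ * a) * y⁻¹ := by group
            _ = s * y⁻¹ := by rw [ha]; group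
            _ = b * (y⁻¹ * b) * y⁻¹ := by rw [hb]; group
            _ = (b * y⁻¹) * (b * y⁻¹) := by group
        exact mul_right_cancel (sq_inj hodd h1)
      let B : Finset G := (FV ∪ (insert 1 FC).image fun c => y * c) ∪
        (((insert 1 FC).image fun c => s * c⁻¹) ∪ Q)
      have hB : B.card < (univ : Finset G).card := by
        rw [Finset.card_univ]
        have h1 := Finset.card_union_le FV ((insert 1 FC).image fun c => y * c)
        have h2 : ((insert 1 FC).image fun c => y * c).card ≤ _ := Finset.card_image_le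
        have h3 : ((insert 1 FC).image fun c => s * c⁻¹).card ≤ _ := Finset.card_image_le
        have h4 := Finset.card_union_le ((insert 1 FC).image fun c => s * c⁻¹) Q
        have h5 := Finset.card_union_le (FV ∪ (insert 1 FC).image fun c => y * c)
          (((insert 1 FC).image fun c => s * c⁻¹) ∪ Q)
        change ((FV ∪ (insert 1 FC).image fun c => y * c) ∪
          (((insert 1 FC).image fun c => s * c⁻¹) ∪ Q)).card < _
        omega
      obtain ⟨t, -, ht⟩ := Finset.exists_mem_notMem_of_card_lt_card hB
      simp only [B, Finset.mem_union, not_or] at ht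
      obtain ⟨⟨h1, h2⟩, h3, h4⟩ := ht
      have e1 : y⁻¹ * t ∉ insert 1 FC := fun hc =>
        h2 (Finset.mem_image.2 ⟨_, hc, by group⟩)
      have e2 : t⁻¹ * s ∉ insert 1 FC := fun hc =>
        h3 (Finset.mem_image.2 ⟨_, hc, by group⟩)
      have e3 : y⁻¹ * t ≠ t⁻¹ * s := fun hc => h4 (by simp [Q, hc])
      refine ⟨t, t, by simp [cV], ⟨h1, h1⟩, ?_, ?_⟩
      · simp [cC, tl, e3]
      · intro c hc
        simp only [cC, tl, if_true, Multiset.mem_cons, Multiset.mem_singleton] at hc
        rcases hc with rfl | rfl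
        · exact hmem _ e1
        · exact hmem _ e2
    · -- k = 5
      set F := insert 1 FC with hFdef
      set n := Fintype.card G with hn
      let B1 : Finset (G × G) := FV ×ˢ univ
      let B2 : Finset (G × G) := univ ×ˢ FV
      let B3 : Finset (G × G) := (F ×ˢ univ).image fun p => (y * p.1, p.2)
      let B4 : Finset (G × G) := (univ ×ˢ F).image fun p => (p.1, p.1 * p.2)
      let B5 : Finset (G × G) := (univ ×ˢ F).image fun p => (p.1, s * p.2⁻¹)
      let B6 : Finset (G × G) := (univ : Finset G).image fun t => (t, t * y⁻¹ * t)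
      let B7 : Finset (G × G) := (univ : Finset G).image fun t => (t, s * t⁻¹ * y)
      let B8 : Finset (G × G) := (univ : Finset G).image fun τ => (τ * s⁻¹ * τ, τ)
      have c1 : B1.card = FV.card * n := by simp [B1, Finset.card_product, hn]
      have c2 : B2.card = n * FV.card := by simp [B2, Finset.card_product, hn]
      have c3 : B3.card ≤ F.card * n :=
        Finset.card_image_le.trans (by simp [Finset.card_product, hn])
      have c4 : B4.card ≤ n * F.card :=
        Finset.card_image_le.trans (by simp [Finset.card_product, hn])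
      have c5 : B5.card ≤ n * F.card :=
        Finset.card_image_le.trans (by simp [Finset.card_product, hn])
      have c6 : B6.card ≤ n := Finset.card_image_le.trans (by simp [hn])
      have c7 : B7.card ≤ n := Finset.card_image_le.trans (by simp [hn])
      have c8 : B8.card ≤ n := Finset.card_image_le.trans (by simp [hn])
      let B : Finset (G × G) := (B1 ∪ B2) ∪ ((B3 ∪ B4) ∪ ((B5 ∪ B6) ∪ (B7 ∪ B8)))
      have hB : B.card < (univ : Finset (G × G)).card := by
        rw [Finset.card_univ, Fintype.card_prod]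
        have u1 := Finset.card_union_le B1 B2
        have u2 := Finset.card_union_le B3 B4
        have u3 := Finset.card_union_le B5 B6
        have u4 := Finset.card_union_le B7 B8
        have u5 := Finset.card_union_le (B5 ∪ B6) (B7 ∪ B8)
        have u6 := Finset.card_union_le (B3 ∪ B4) ((B5 ∪ B6) ∪ (B7 ∪ B8))
        have u7 := Finset.card_union_le (B1 ∪ B2) ((B3 ∪ B4) ∪ ((B5 ∪ B6) ∪ (B7 ∪ B8)))
        have hpos : 0 < n := Fintype.card_pos
        have hle : n * (8 * (FV.card + FC.card + 2)) ≤ n * n := Nat.mul_le_mul_left _ h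
        have hFn : n * F.card ≤ n * (FC.card + 1) := Nat.mul_le_mul_left _ hF
        change ((B1 ∪ B2) ∪ ((B3 ∪ B4) ∪ ((B5 ∪ B6) ∪ (B7 ∪ B8)))).card < n * n
        have hcomm : F.card * n = n * F.card := Nat.mul_comm _ _
        have hcomm2 : FV.card * n = n * FV.card := Nat.mul_comm _ _
        have hexp : n * (8 * (FV.card + FC.card + 2)) =
          8 * (n * FV.card) + 8 * (n * FC.card) + 16 * n := by ring
        have hexp2 : n * (FC.card + 1) = n * FC.card + n := by ring
        have hnn : 0 ≤ n * FV.card := Nat.zero_le _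
        omega
      obtain ⟨⟨t, τ⟩, -, ht⟩ := Finset.exists_mem_notMem_of_card_lt_card hB
      simp only [B, Finset.mem_union, not_or] at ht
      obtain ⟨⟨h1, h2⟩, ⟨h3, h4⟩, ⟨h5, h6⟩, h7, h8⟩ := ht
      have e1 : t ∉ FV := fun hc => h1 (by simp [B1, hc])
      have e2 : τ ∉ FV := fun hc => h2 (by simp [B2, hc])
      have e3 : y⁻¹ * t ∉ F := fun hc =>
        h3 (Finset.mem_image.2 ⟨(y⁻¹ * t, τ), by simp [hc], by simp⟩)
      have e4 : t⁻¹ * τ ∉ F := fun hc =>
        h4 (Finset.mem_image.2 ⟨(t, t⁻¹ * τ), by simp [hc], by simp⟩)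
      have e5 : τ⁻¹ * s ∉ F := fun hc =>
        h5 (Finset.mem_image.2 ⟨(t, τ⁻¹ * s), by simp [hc], by simp⟩)
      have e6 : y⁻¹ * t ≠ t⁻¹ * τ := by
        intro hc
        refine h6 (Finset.mem_image.2 ⟨t, mem_univ _, ?_⟩)
        have : τ = t * y⁻¹ * t := by
          calc τ = t * (t⁻¹ * τ) := by group
            _ = t * y⁻¹ * t := by rw [← hc]; group
        rw [this]
      have e7 : y⁻¹ * t ≠ τ⁻¹ * s := by
        intro hc
        refine h7 (Finset.mem_image.2 ⟨t, mem_univ _, ?_⟩)
        have : τ = s * t⁻¹ * y := by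
          calc τ = s * (τ⁻¹ * s)⁻¹ := by group
            _ = s * t⁻¹ * y := by rw [← hc]; group
        rw [this]
      have e8 : t⁻¹ * τ ≠ τ⁻¹ * s := by
        intro hc
        refine h8 (Finset.mem_image.2 ⟨τ, mem_univ _, ?_⟩)
        have : t = τ * s⁻¹ * τ := by
          calc t = τ * (t⁻¹ * τ)⁻¹ := by group
            _ = τ * s⁻¹ * τ := by rw [hc]; group
        rw [this]
      have e9 : t ≠ τ := by
        intro hc
        apply e4
        rw [hc, inv_mul_cancel]
        exact Finset.mem_insert_self _ _
      refine ⟨t, τ, by simp [cV, e9], ⟨e1, e2⟩, ?_, ?_⟩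
      · simp [cC, tl, e6, e7, e8]
      · intro c hc
        simp only [cC, tl] at hc
        simp only [Nat.reduceEqDiff, if_false, if_true, Multiset.insert_eq_cons,
          Multiset.mem_cons, Multiset.mem_singleton] at hc
        rcases hc with rfl | rfl | rfl
        · exact hmem _ e3
        · exact hmem _ e4
        · exact hmem _ e5

theorem card_bind_le {m : ℕ} (I : Finset (Fin m)) (F : Fin m → Multiset G) (c : ℕ)
    (h : ∀ i, (F i).card ≤ c) : (I.val.bind F).toFinset.card ≤ c * m := by
  refine (Multiset.toFinset_card_le _).trans ?_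
  rw [Multiset.card_bind]
  calc (I.val.map (Multiset.card ∘ F)).sum = ∑ i ∈ I, (F i).card := rfl
    _ ≤ ∑ i ∈ I, c := Finset.sum_le_sum fun i _ => h i
    _ = I.card * c := by rw [Finset.sum_const, smul_eq_mul]
    _ ≤ m * c := Nat.mul_le_mul_right _ (by simpa using Finset.card_le_univ I)
    _ = c * m := Nat.mul_comm _ _

theorem close_all (k : ℕ) (hk : 4 ≤ k) (hdvd : k ∣ Fintype.card G - 1) (FV FC : Finset G)
    (m : ℕ) (s y : Fin m → G)
    (h : 40 * (FV.card + FC.card + m + 1) ≤ Fintype.card G) (I : Finset (Fin m)) :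
    ∃ t τ : Fin m → G, (I.val.bind fun i => cV k (t i) (τ i)).Nodup ∧
      (∀ i ∈ I, t i ∉ FV ∧ τ i ∉ FV) ∧
      (I.val.bind fun i => cC k (s i) (y i) (t i) (τ i)).Nodup ∧
      ∀ i ∈ I, ∀ c ∈ cC k (s i) (y i) (t i) (τ i), c ∉ FC ∧ c ≠ 1 := by
  classical
  induction I using Finset.induction_on with
  | empty => exact ⟨fun _ => 1, fun _ => 1, by simp⟩
  | insert a I ha ih =>
    obtain ⟨t, τ, i1, i2, i3, i4⟩ := ih
    set PV := (I.val.bind fun i => cV k (t i) (τ i)).toFinset with hPV
    set PC := (I.val.bind fun i => cC k (s i) (y i) (t i) (τ i)).toFinset with hPC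
    have b1 : PV.card ≤ 2 * m := card_bind_le I _ 2 fun i => cV_card k _ _
    have b2 : PC.card ≤ 3 * m := card_bind_le I _ 3 fun i => cC_card k _ _ _ _
    have b3 := Finset.card_union_le FV PV
    have b4 := Finset.card_union_le FC PC
    obtain ⟨t0, τ0, j1, j2, j3, j4⟩ := close_step k hk hdvd (FV ∪ PV) (FC ∪ PC) (by omega)
      (s a) (y a)
    have hne : ∀ i ∈ I, i ≠ a := fun i hi e => ha (e ▸ hi)
    refine ⟨Function.update t a t0, Function.update τ a τ0, ?_, ?_, ?_, ?_⟩
    · rw [Finset.insert_val_of_notMem ha, Multiset.cons_bind]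
      simp only [Function.update_self]
      have : (I.val.bind fun i => cV k (Function.update t a t0 i) (Function.update τ a τ0 i)) =
          I.val.bind fun i => cV k (t i) (τ i) := by
        apply Multiset.bind_congr
        intro i hi
        rw [Function.update_of_ne (hne i hi), Function.update_of_ne (hne i hi)]
      rw [this, Multiset.nodup_add]
      refine ⟨j1, i1, ?_⟩
      rw [Multiset.disjoint_left]
      intro x hx hx'
      have hx2 : x ∈ PV := by rw [hPV, Multiset.mem_toFinset]; exact hx'
      rcases mem_cV k _ _ _ hx with rfl | rfl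
      · exact j2.1 (Finset.mem_union_right _ hx2)
      · exact j2.2 (Finset.mem_union_right _ hx2)
    · intro i hi
      rcases Finset.mem_insert.1 hi with rfl | hi
      · simp only [Function.update_self]
        exact ⟨fun hc => j2.1 (Finset.mem_union_left _ hc),
          fun hc => j2.2 (Finset.mem_union_left _ hc)⟩
      · rw [Function.update_of_ne (hne i hi), Function.update_of_ne (hne i hi)]
        exact i2 i hi
    · rw [Finset.insert_val_of_notMem ha, Multiset.cons_bind]
      simp only [Function.update_self]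
      have : (I.val.bind fun i => cC k (s i) (y i) (Function.update t a t0 i)
          (Function.update τ a τ0 i)) =
          I.val.bind fun i => cC k (s i) (y i) (t i) (τ i) := by
        apply Multiset.bind_congr
        intro i hi
        rw [Function.update_of_ne (hne i hi), Function.update_of_ne (hne i hi)]
      rw [this, Multiset.nodup_add]
      refine ⟨j3, i3, ?_⟩
      rw [Multiset.disjoint_left]
      intro x hx hx'
      have hx2 : x ∈ PC := by rw [hPC, Multiset.mem_toFinset]; exact hx'
      exact (j4 x hx).1 (Finset.mem_union_right _ hx2)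
    · intro i hi c hc
      rcases Finset.mem_insert.1 hi with rfl | hi
      · simp only [Function.update_self] at hc
        exact ⟨fun h' => (j4 c hc).1 (Finset.mem_union_left _ h'), (j4 c hc).2⟩
      · rw [Function.update_of_ne (hne i hi), Function.update_of_ne (hne i hi)] at hc
        exact i4 i hi c hc

end close

theorem stmt_CLOSE : Stmt_CLOSE := by
  refine ⟨40, ?_⟩
  intro G _ _ _ k FV FC hk hdvd m s y hK
  obtain ⟨t, τ, h1, h2, h3, h4⟩ := close_all k hk hdvd FV FC m s y hK univ
  exact ⟨t, τ, h1, fun i => h2 i (mem_univ _), h3, fun i => h4 i (mem_univ _)⟩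

end Pool.OM.h76
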